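import Pool.Agent.Work.MP_820435_lc.Cls.Defs

/-!
# The rank of constant functions on a countable set
-/

open Ordinal Cardinal Set Order

universe u

namespace IPath

/-- A function which is at most `n` at infinitely many places has rank less than `n`. -/
theorem RankGE.lt_of_infinite {J : Type u} (n : ℕ) : ∀ {η : Ordinal.{u}} {F : J → Ordinal.{u}},
    RankGE η F → {j | F j ≤ n}.Infinite → η < n := by
  induction n with
  | zero =>
    intro η F h hinf
    exfalso
    apply hinf
    refine h.finite.subset fun j hj => ?_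
    have h1 : F j ≤ ((0 : ℕ) : Ordinal.{u}) := hj
    rw [Nat.cast_zero] at h1
    exact nonpos_iff_eq_zero.1 h1
  | succ n ih =>
    intro η F h hinf
    by_contra hcon
    rw [not_lt] at hcon
    have h1 : ((n : ℕ) : Ordinal.{u}) < η :=
      lt_of_lt_of_le (by exact_mod_cast Nat.lt_succ_self n) hcon
    obtain ⟨F', hF', hR⟩ := h.step h1
    refine (ih hR ?_).false
    refine hinf.mono fun j hj => ?_
    have h2 : F j ≤ ((n + 1 : ℕ) : Ordinal.{u}) := hj
    rcases hF' j with h3 | ⟨h3, -⟩
    · have h4 : F' j < ((n + 1 : ℕ) : Ordinal.{u}) := h3.trans_le h2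
      rw [Nat.cast_succ, ← Order.succ_eq_add_one] at h4
      exact Order.lt_succ_iff.1 h4
    · change F' j ≤ n
      rw [h3]
      exact zero_le

/-- A function on a countable set which tends to infinity has every rank. -/
theorem rankGE_of_tendsto {J : Type u} (e : J → ℕ) (he : Function.Injective e)
    (η : Ordinal.{u}) (F : J → Ordinal.{u}) (hF : ∀ n : ℕ, {j | F j ≤ n}.Finite) :
    RankGE η F := by
  classical
  refine ⟨{p | ∀ n : ℕ, {j | p.2 j ≤ n}.Finite}, hF, ?_⟩
  intro p hp
  refine ⟨?_, fun η' _ => ?_⟩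
  · refine (hp 0).subset fun j hj => ?_
    have h1 : p.2 j = 0 := hj
    change p.2 j ≤ ((0 : ℕ) : Ordinal.{u})
    rw [h1]
    exact zero_le
  have key : ∀ j, ∃ o : Ordinal.{u}, (o < p.2 j ∨ (o = 0 ∧ p.2 j = 0)) ∧
      ∀ n : ℕ, o ≤ n → p.2 j ≤ ((n + 1 : ℕ) : Ordinal.{u}) ∨ e j ≤ n := by
    intro j
    rcases lt_or_ge (p.2 j) ω with h1 | h1
    · obtain ⟨m, hm⟩ := lt_omega0.1 h1
      rcases m with _ | m
      · refine ⟨0, Or.inr ⟨rfl, by simpa using hm⟩, fun n _ => Or.inl ?_⟩
        rw [hm, Nat.cast_zero]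
        exact zero_le
      · refine ⟨m, Or.inl ?_, fun n hn => Or.inl ?_⟩
        · rw [hm]
          exact_mod_cast Nat.lt_succ_self m
        · rw [hm]
          have : m ≤ n := by exact_mod_cast hn
          exact_mod_cast Nat.succ_le_succ this
    · refine ⟨e j, Or.inl ((natCast_lt_omega0 _).trans_le h1), fun n hn => Or.inr ?_⟩
      exact_mod_cast hn
  choose F' hF1 hF2 using key
  refine ⟨F', fun n => ?_, hF1⟩
  refine ((hp (n + 1)).union ((Set.finite_Iic n).preimage he.injOn)).subset fun j hj => ?_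
  rcases hF2 j n hj with h1 | h1
  · exact Or.inl h1
  · exact Or.inr h1

theorem rank_omega_iff {ξ : Ordinal.{u}} : (∃ g, g + 2 ≤ ξ ∧ ∀ η < ξ,
    RankGE η (fun _ : (ℵ₀ : Cardinal.{u}).ord.ToType => g)) ↔ ω + 2 ≤ ξ := by
  constructor
  · rintro ⟨g, hg, h⟩
    rcases lt_or_ge g ω with h1 | h1
    · exfalso
      obtain ⟨n, rfl⟩ := lt_omega0.1 h1
      have hinf : Infinite (ℵ₀ : Cardinal.{u}).ord.ToType := by
        rw [Cardinal.infinite_iff, mk_ord_toType]
      have h2 : ((n + 1 : ℕ) : Ordinal.{u}) < ξ := by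
        refine lt_of_lt_of_le ?_ hg
        have : ((n : ℕ) : Ordinal.{u}) + 2 = ((n + 2 : ℕ) : Ordinal.{u}) := by
          push_cast
          rfl
        rw [this]
        exact_mod_cast Nat.lt_succ_self (n + 1)
      have h3 := RankGE.lt_of_infinite n (h _ h2) (by
        have : {j : (ℵ₀ : Cardinal.{u}).ord.ToType | ((n : ℕ) : Ordinal.{u}) ≤ n} = Set.univ := by
          ext j
          simp
        rw [this]
        exact Set.infinite_univ)
      have h4 : n + 1 < n := by exact_mod_cast h3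
      omega
    · exact (add_le_add_left h1 2).trans hg
  · intro h
    refine ⟨ω, h, fun η _ => ?_⟩
    have hc : #(ℵ₀ : Cardinal.{u}).ord.ToType ≤ ℵ₀ := by rw [mk_ord_toType]
    have : Countable (ℵ₀ : Cardinal.{u}).ord.ToType := Cardinal.mk_le_aleph0_iff.1 hc
    obtain ⟨e, he⟩ := exists_injective_nat (ℵ₀ : Cardinal.{u}).ord.ToType
    refine rankGE_of_tendsto e he η _ fun n => ?_
    have : {j : (ℵ₀ : Cardinal.{u}).ord.ToType | (ω : Ordinal.{u}) ≤ n} = ∅ := by
      ext j
      simp only [mem_ofPred_eq, mem_empty_iff_false, iff_false, not_le]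
      exact natCast_lt_omega0 n
    rw [this]
    exact Set.finite_empty

end IPath
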