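import Pool.Agent.Work.MP_820435_lc.Cls.Bad

/-!
# The first bad exponents
-/

open Ordinal Cardinal Set Order

universe u

namespace IPath

/-- `t 0 = ω`, `t 1 = ω₁`, `t 2 = ω₂` and `t (n + 2) = ω_(n + 2) * (t n + 1)` for `n ≥ 1`. -/
noncomputable def firstExp : ℕ → Ordinal.{u}
  | 0 => ω
  | 1 => ω_ 1
  | 2 => ω_ 2
  | n + 3 => ω_ ((n + 3 : ℕ) : Ordinal.{u}) * (firstExp (n + 1) + 1)

end IPath
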