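import Pool.Agent.Work.MP_820435_lc.Cls.Pos

/-!
# Almost covers of `κ ^ ξ * δ`, `0 < δ < κ`
-/

open Ordinal Cardinal Set Order

universe u

namespace IPath

theorem mul_lt_opow_ord {κ : Cardinal.{u}} (hκ : κ.IsRegular) {ξ t δ : Ordinal.{u}}
    (hδ : δ < κ.ord) (ht : t < κ.ord ^ ξ) : t * δ < κ.ord ^ ξ := by
  have hlim : IsSuccLimit κ.ord := isSuccLimit_ord hκ.aleph0_le
  have h0 : κ.ord ≠ 0 := hκ.ord_pos.ne'
  have hpos : ∀ η : Ordinal.{u}, 0 < κ.ord ^ η := fun η => opow_pos _ hκ.ord_pos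
  rcases zero_or_succ_or_isSuccLimit ξ with rfl | ⟨η, rfl⟩ | hξ
  · rw [opow_zero, Ordinal.lt_one_iff_zero] at ht
    rw [ht, zero_mul, opow_zero]
    exact zero_lt_one
  · rw [opow_succ] at ht ⊢
    obtain ⟨i, hi, hti⟩ := (lt_mul_iff_of_isSuccLimit hlim).1 ht
    have h1 : i * δ < κ.ord := by
      rw [lt_ord] at hi hδ ⊢
      rw [card_mul]
      exact mul_lt_of_lt hκ.aleph0_le hi hδ
    calc t * δ ≤ (κ.ord ^ η * i) * δ := mul_le_mul_left hti.le δ
      _ = κ.ord ^ η * (i * δ) := mul_assoc _ _ _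
      _ < κ.ord ^ η * κ.ord := (mul_lt_mul_iff_right₀ (hpos η)).2 h1
  · obtain ⟨η, hη, htη⟩ := (lt_opow_of_isSuccLimit h0 hξ).1 ht
    calc t * δ ≤ κ.ord ^ η * δ := mul_le_mul_left htη.le δ
      _ < κ.ord ^ η * κ.ord := (mul_lt_mul_iff_right₀ (hpos η)).2 hδ
      _ = κ.ord ^ (succ η) := (opow_succ _ _).symm
      _ ≤ κ.ord ^ ξ := opow_le_opow_right hκ.ord_pos (succ_le_of_lt hη)

/-- The factor `δ` does not matter. -/
theorem almostCover_mul_iff {κ : Cardinal.{u}} (hκ : κ.IsRegular) (hκ1 : ℵ₀ < κ)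
    {ξ δ : Ordinal.{u}} (hδ0 : δ ≠ 0) (hδ : δ.card < κ) :
    AlmostCover κ (κ.ord ^ ξ * δ) ↔ AlmostCover κ (κ.ord ^ ξ) := by
  have hδ' : δ < κ.ord := by rwa [lt_ord]
  have hX : otp (δ.ToType ×ₗ (κ.ord ^ ξ).ToType) = κ.ord ^ ξ * δ := by
    rw [otp_prodLex, otp_toType, otp_toType]
  constructor
  · rintro ⟨A, hA, hfin⟩
    obtain ⟨e⟩ := exists_orderIso_of_otp_eq (hX.trans (otp_toType _).symm)
    -- the sets in the product
    let S : κ.ord.ToType → Set (δ.ToType ×ₗ (κ.ord ^ ξ).ToType) := fun j => e ⁻¹' A j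
    have hS : ∀ j, otp (S j) < κ.ord ^ ξ * δ := by
      intro j
      have h1 : otp (S j) ≤ otp (A j) :=
        otp_le_of_strictMono (fun p => ⟨e p.1, p.2⟩) fun p q hpq => e.strictMono hpq
      exact h1.trans_lt (hA j)
    have hblock : ∀ j, ∃ d : δ.ToType, otp (fib (S j) d) < κ.ord ^ ξ := by
      intro j
      by_contra hcon
      push Not at hcon
      have h1 := mul_le_otp_of_fib (S j) Set.univ (κ.ord ^ ξ) (fun i _ => hcon i)
      have h2 : otp (Set.univ : Set δ.ToType) = δ := by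
        rw [← otp_toType δ]
        apply le_antisymm
        · rw [otp_toType]
          exact (otp_set_le _).trans (otp_toType δ).le
        · rw [otp_toType]
          conv_lhs => rw [← otp_toType δ]
          exact otp_le_of_strictMono (fun x => ⟨x, trivial⟩) fun a b hab => hab
      rw [h2] at h1
      exact absurd (hS j) (not_lt.2 h1)
    choose d hd using hblock
    obtain ⟨d₀, hd₀⟩ := infinite_pigeonhole (β := κ.ord.ToType) (α := δ.ToType) d
      (by simpa using hκ.aleph0_le) (by simpa [hκ.cof_ord] using hδ)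
    refine almostCover_of_model ((κ.ord ^ ξ).ToType) (otp_toType _) (J := (d ⁻¹' {d₀} : Set _))
      (by rw [hd₀]; simp) (fun j => fib (S j.1) d₀) (fun j => ?_) (fun x => ?_)
    · have h1 : d j.1 = d₀ := j.2
      have h2 := hd j.1
      rwa [h1] at h2
    · exact (hfin (e (toLex (d₀, x)))).preimage Subtype.val_injective.injOn
  · rintro ⟨A, hA, hfin⟩
    refine almostCover_of_model (δ.ToType ×ₗ (κ.ord ^ ξ).ToType) hX (J := κ.ord.ToType)
      (by simp) (fun j => {p | (ofLex p).2 ∈ A j}) (fun j => ?_) (fun p => ?_)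
    · refine lt_of_le_of_lt (b := otp (A j) * δ) ?_ ?_
      · have h1 : otp (A j) * δ = otp (δ.ToType ×ₗ (A j)) := by
          rw [otp_prodLex, otp_toType]
        rw [h1]
        refine otp_le_of_strictMono (fun p => toLex ((ofLex p.1).1, ⟨(ofLex p.1).2, p.2⟩)) ?_
        intro p q hpq
        have hpq' : p.1 < q.1 := hpq
        rcases Prod.Lex.lt_iff.1 hpq' with h2 | ⟨h2, h3⟩
        · exact Prod.Lex.lt_iff.2 (Or.inl h2)
        · exact Prod.Lex.lt_iff.2 (Or.inr ⟨h2, h3⟩)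
      · refine (mul_lt_opow_ord hκ hδ' (hA j)).trans_le ?_
        exact le_mul_left _ (pos_iff_ne_zero.2 hδ0)
    · exact hfin (ofLex p).2

end IPath
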