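import Pool.Agent.Work.MP_820435_lc.Cls.Defs
import Pool.Agent.Work.MP_820435_lc.Graph
import Pool.Agent.Work.MP_820435_lc.SumRel

/-!
# No almost cover: the relation holds
-/

open Ordinal Cardinal Set Order

universe u

namespace IPath

/-- An almost cover of a model gives an almost cover of the ordinal. -/
theorem almostCover_of_model {κ : Cardinal.{u}} {α : Ordinal.{u}} (X : Type u) [LinearOrder X]
    [WellFoundedLT X] (hX : otp X = α) {J : Type u} (hJ : #J = κ) (A : J → Set X)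
    (hA : ∀ j, otp (A j) < α) (hfin : ∀ x, {j | x ∉ A j}.Finite) : AlmostCover κ α := by
  obtain ⟨e⟩ := exists_orderIso_of_otp_eq (hX.trans (otp_toType α).symm)
  have h1 : #κ.ord.ToType = #J := by rw [hJ]; simp
  obtain ⟨i⟩ := Cardinal.eq.1 h1
  refine ⟨fun j => e '' A (i j), fun j => ?_, fun x => ?_⟩
  · rw [otp_image e e.strictMono]
    exact hA _
  · have h2 : {j | x ∉ e '' A (i j)} = i ⁻¹' {j | e.symm x ∉ A j} := by
      ext j
      simp only [mem_ofPred_eq, mem_preimage, not_iff_not]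
      constructor
      · rintro ⟨y, hy, rfl⟩
        simpa using hy
      · intro hy
        exact ⟨e.symm x, hy, by simp⟩
    rw [h2]
    exact (hfin _).preimage i.injective.injOn

/-- The sum of `β` copies: a bad set mapping on `β` gives an almost cover of `κ * β`. -/
theorem goodLT_of_not_almostCover {κ : Cardinal.{u}} (hκ : κ.IsRegular) {β : Ordinal.{u}}
    (h : ¬ AlmostCover κ (κ.ord * β)) (Λ : Type u) : GoodLT Λ κ β := by
  intro Y _ _ hY b
  by_contra hcon
  rw [not_lt, le_mk_iff_exists_subset] at hcon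
  obtain ⟨J, hJ, hJc⟩ := hcon
  apply h
  refine almostCover_of_model (Y ×ₗ κ.ord.ToType) ?_ hJc
    (fun j => {p | j.1 ∉ b (ofLex p).1}) (fun j => ?_) (fun p => ?_)
  · rw [otp_prodLex, otp_toType, hY]
  · have hj := hJ j.2
    simp only [badSet, mem_ofPred_eq] at hj
    rw [hY] at hj
    refine lt_of_le_of_lt ?_ ((mul_lt_mul_iff_right₀ hκ.ord_pos).2 hj)
    have h1 : κ.ord * otp {y : Y | j.1 ∉ b y} =
        otp (({y : Y | j.1 ∉ b y} : Set Y) ×ₗ κ.ord.ToType) := by
      rw [otp_prodLex, otp_toType]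
    rw [h1]
    refine otp_le_of_strictMono (fun p => toLex (⟨(ofLex p.1).1, p.2⟩, (ofLex p.1).2)) ?_
    intro p q hpq
    have hpq' : p.1 < q.1 := hpq
    rcases Prod.Lex.lt_iff.1 hpq' with h2 | ⟨h2, h3⟩
    · exact Prod.Lex.lt_iff.2 (Or.inl h2)
    · exact Prod.Lex.lt_iff.2 (Or.inr ⟨Subtype.ext h2, h3⟩)
  · have h2 : {j : J | p ∉ {q : Y ×ₗ κ.ord.ToType | j.1 ∉ b (ofLex q).1}} =
        Subtype.val ⁻¹' (b (ofLex p).1 : Set Λ) := by
      ext j
      simp
    rw [h2]
    exact (b (ofLex p).1).finite_toSet.preimage Subtype.val_injective.injOn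

theorem pathRel_of_not_almostCover {κ : Cardinal.{u}} (hκ : κ.IsRegular) {e : Ordinal.{u}}
    (hc : (ω ^ e : Ordinal.{u}).card = κ) (h : ¬ AlmostCover κ (ω ^ e)) : PathRel (ω ^ e) := by
  -- `κ.ord` is a power of `ω`
  obtain ⟨f, hf⟩ : ∃ f : Ordinal.{u}, κ.ord = ω ^ f := by
    rcases isPrincipal_add_iff_zero_or_omega0_opow.1 (isPrincipal_add_ord hκ.aleph0_le) with
      h1 | ⟨f, h1⟩
    · exact absurd h1 hκ.ord_pos.ne'
    · exact ⟨f, h1.symm⟩
  have hle : κ.ord ≤ ω ^ e := by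
    rw [← hc]
    exact ord_card_le _
  have hfe : f ≤ e := by
    rw [hf] at hle
    exact (opow_le_opow_iff_right one_lt_omega0).1 hle
  have hβ : ω ^ e = κ.ord * ω ^ (e - f) := by
    rw [hf, ← opow_add, Ordinal.add_sub_cancel_of_le hfe]
  have hcard : (ω ^ (e - f) : Ordinal.{u}).card ≤ κ := by
    rw [← hc]
    exact card_le_card (opow_le_opow_right omega0_pos (sub_le_self _ _))
  rw [hβ] at h ⊢
  intro X _ _ hX G
  exact pathRel_of_good hκ hcard (fun Λ => goodLT_of_not_almostCover hκ h Λ) X hX G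

end IPath
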