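import Pool.Agent.Work.MP_820435_lc.Cls.Suf

/-!
# Sufficiency: from `ν` colours to `ν⁺` colours
-/

open Ordinal Cardinal Set Order

universe u

namespace IPath

section rank
variable {J : Type u} {η : Ordinal.{u}} {F : J → Ordinal.{u}}

theorem RankGE.add_one (h : RankGE η F) : RankGE (η + 1) (fun j => F j + 1) := by
  rw [rankGE_iff]
  refine ⟨?_, fun η' hη => ⟨F, fun j => Or.inl (lt_add_one _), h.mono_left (lt_add_one_iff.1 hη)⟩⟩
  convert Set.finite_empty (α := J)
  rw [eq_empty_iff_forall_notMem]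
  intro j hj
  have h1 : F j + 1 = 0 := hj
  exact (succ_ne_bot (F j)) h1

theorem RankGE.add_nat (h : RankGE η F) (n : ℕ) : RankGE (η + n) (fun j => F j + n) := by
  induction n with
  | zero => simpa using h
  | succ n ih =>
    have h1 := ih.add_one
    have h2 : ∀ o : Ordinal.{u}, o + n + 1 = o + ((n + 1 : ℕ) : Ordinal.{u}) := by
      intro o
      rw [add_assoc]
      push_cast
      rfl
    simp only [h2] at h1
    exact h1

theorem exists_small_rank (J : Type u) [Infinite J] (g : Ordinal.{u}) :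
    RankGE (g + 1) (fun _ : J => g) → ∀ n : ℕ, ∃ F : J → Ordinal.{u}, (∀ j, F j + n ≤ g) ∧
      RankGE (g + n) F := by
  induction g using limitRecOn with
  | zero =>
    intro h
    exfalso
    have h1 := h.finite
    simp only [ofPred_true] at h1
    exact Set.infinite_univ h1
  | add_one g ih =>
    intro h n
    obtain ⟨F', h1, h2⟩ := h.step (lt_add_one (g + 1))
    have h3 : RankGE (g + 1) (fun _ : J => g) := by
      refine h2.mono fun j => ?_
      rcases h1 j with h4 | h4
      · exact lt_add_one_iff.1 h4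
      · rw [h4.1]
        exact zero_le
    obtain ⟨F, h5, h6⟩ := ih h3 (n + 1)
    have h7 : ∀ o : Ordinal.{u}, o + ((n + 1 : ℕ) : Ordinal.{u}) = o + 1 + n := by
      intro o
      have h8 : ((n + 1 : ℕ) : Ordinal.{u}) = 1 + (n : Ordinal.{u}) := by
        have : n + 1 = 1 + n := by omega
        rw [this]
        push_cast
        rfl
      rw [h8, ← add_assoc]
    refine ⟨F, fun j => ?_, ?_⟩
    · refine le_trans ?_ ((h5 j).trans (le_add_of_nonneg_right zero_le_one))
      gcongr
      omega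
    · rw [← h7]
      exact h6
  | limit g hg _ =>
    intro h n
    obtain ⟨F', h1, h2⟩ := h.step (lt_add_one g)
    have h3 : ∀ j, F' j < g := by
      intro j
      rcases h1 j with h4 | h4
      · exact h4
      · exact absurd h4.2 hg.ne_bot
    have h4 : ∀ (m : ℕ) (o : Ordinal.{u}), o < g → o + m < g := by
      intro m o ho
      induction m with
      | zero => simpa using ho
      | succ m ih =>
        have h5 := hg.add_one_lt ih
        rw [add_assoc] at h5
        push_cast
        exact h5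
    refine ⟨fun j => F' j + n, fun j => ?_, h2.add_nat n⟩
    exact (h4 n _ (h4 n _ (h3 j))).le

end rank

/-- A set splits into a lower and an upper part. -/
theorem otp_le_add_cls {B K : Type u} [LinearOrder B] [WellFoundedLT B] [LinearOrder K]
    (r : B → K) (hr : Monotone r) (A : Set B) (k : K) :
    otp A ≤ otp (A ∩ {b | r b ≤ k} : Set B) + otp (A ∩ {b | k < r b} : Set B) := by
  classical
  have h1 : otp (A ∩ {b | r b ≤ k} : Set B) + otp (A ∩ {b | k < r b} : Set B) =
      otp ((A ∩ {b | r b ≤ k} : Set B) ⊕ₗ (A ∩ {b | k < r b} : Set B)) := by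
    rw [← type_sum_lex]
    rfl
  rw [h1]
  refine otp_le_of_strictMono (fun a => if h : r a.1 ≤ k then toLex (Sum.inl ⟨a.1, a.2, h⟩)
    else toLex (Sum.inr ⟨a.1, a.2, not_le.1 h⟩)) ?_
  intro a b hab
  have hab' : r a.1 ≤ r b.1 := hr (le_of_lt hab)
  beta_reduce
  by_cases h2 : r a.1 ≤ k
  · by_cases h3 : r b.1 ≤ k
    · rw [dif_pos h2, dif_pos h3]
      exact Sum.Lex.inl hab
    · rw [dif_pos h2, dif_neg h3]
      exact Sum.Lex.sep _ _
  · have h3 : ¬ r b.1 ≤ k := fun h4 => h2 (hab'.trans h4)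
    rw [dif_neg h2, dif_neg h3]
    exact Sum.Lex.inr hab

/-- Gluing covers of the pieces: small for the colours below the piece, less small for the
others. -/
theorem exists_cover_comb {κ : Cardinal.{u}} (hκ : κ.IsRegular) (hκ1 : ℵ₀ < κ)
    {h h' : Ordinal.{u}} (hh : h < h')
    {B : Type u} [LinearOrder B] [WellFoundedLT B] (r : B → κ.ord.ToType) (hr : Monotone r)
    (C : ∀ i : κ.ord.ToType, κ.ord.ToType → Set (r ⁻¹' {i} : Set B))
    (h1 : ∀ i j, j < i → otp (C i j) < κ.ord ^ (h + 1))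
    (h2 : ∀ i j, i ≤ j → otp (C i j) < κ.ord ^ (h' + 1))
    (hfin : ∀ i x, {j | x ∉ C i j}.Finite) :
    ∃ A : κ.ord.ToType → Set B, (∀ j, otp (A j) < κ.ord ^ (h' + 1)) ∧
      ∀ x, {j | x ∉ A j}.Finite := by
  have hκ0 : 0 < κ.ord := hκ.ord_pos
  have hκone : 1 < κ.ord := one_lt_ord hκ
  have hkey : ∀ (j : κ.ord.ToType) (b : B) (i : κ.ord.ToType) (hi : r b = i),
      (⟨b, hi⟩ : (r ⁻¹' {i} : Set B)) ∈ C i j ↔ selfFib r b ∈ C (r b) j := by
    rintro j b _ rfl
    exact Iff.rfl
  have hpc : ∀ (j i : κ.ord.ToType) (A : Set B), A ⊆ {b | selfFib r b ∈ C (r b) j} →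
      otp (A ∩ r ⁻¹' {i} : Set B) ≤ otp (C i j) := by
    intro j i A hA
    refine otp_le_of_strictMono (fun b => ⟨⟨b.1, b.2.2⟩, (hkey j b.1 i b.2.2).2 (hA b.2.1)⟩) ?_
    intro a b hab
    exact hab
  refine ⟨fun j => {b | selfFib r b ∈ C (r b) j}, ?_, fun b => hfin (r b) (selfFib r b)⟩
  intro j
  beta_reduce
  refine (otp_le_add_cls r hr _ j).trans_lt ?_
  refine isPrincipal_add_opow_of_isPrincipal_add (isPrincipal_add_ord hκ.aleph0_le) _ ?_ ?_
  · refine otp_lt_of_pieces hκ r hr _ j (fun a ha => ha.2) ?_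
    intro i hi
    exact (hpc j i _ inter_subset_left).trans_lt (h2 i j hi)
  · refine (otp_le_of_pieces hκ hκ1 (g := h) r hr _ ?_).trans_lt ?_
    · intro i
      rcases lt_or_ge j i with hi | hi
      · exact (hpc j i _ inter_subset_left).trans_lt (h1 i j hi)
      · have h3 : (({b | selfFib r b ∈ C (r b) j} ∩ {b | j < r b}) ∩ r ⁻¹' {i} : Set B) = ∅ := by
          rw [eq_empty_iff_forall_notMem]
          rintro b ⟨⟨_, hb1⟩, hb2⟩
          have hb3 : r b = i := hb2
          have hb4 : j < r b := hb1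
          rw [hb3] at hb4
          exact absurd hb4 (not_lt.2 hi)
        rw [h3]
        have h4 : otp (∅ : Set B) = 0 := by
          rw [type_eq_zero_iff_isEmpty]
          infer_instance
        rw [h4]
        exact opow_pos _ hκ0
    · rw [opow_lt_opow_iff_right hκone]
      rw [← succ_eq_add_one, ← succ_eq_add_one]
      exact succ_lt_succ hh

/-- Gluing colours. -/
theorem exists_glue {K J X : Type u} [LinearOrder K] (i : K) (hi : #(Iio i) ≤ #J)
    (A : J → Set X) (hA : ∀ x, {j | x ∉ A j}.Finite) (D : K → Set X)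
    (hD : ∀ x, {j | x ∉ D j}.Finite) :
    ∃ C : K → Set X, (∀ j < i, ∃ k, C j = A k) ∧ (∀ j, i ≤ j → C j = D j) ∧
      ∀ x, {j | x ∉ C j}.Finite := by
  classical
  obtain ⟨e⟩ := hi
  refine ⟨fun j => if h : j < i then A (e ⟨j, h⟩) else D j, ?_, ?_, ?_⟩
  · intro j hj
    exact ⟨_, dif_pos hj⟩
  · intro j hj
    exact dif_neg (not_lt.2 hj)
  · intro x
    have h1 : (Subtype.val '' {j : Iio i | x ∉ A (e j)}).Finite :=
      ((hA x).preimage e.injective.injOn).image _
    refine (h1.union (hD x)).subset ?_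
    intro j hj
    rcases lt_or_ge j i with h2 | h2
    · refine Or.inl ⟨⟨j, h2⟩, ?_, rfl⟩
      rw [mem_ofPred_eq] at hj ⊢
      beta_reduce at hj
      rwa [dif_pos h2] at hj
    · refine Or.inr ?_
      rw [mem_ofPred_eq] at hj ⊢
      beta_reduce at hj
      rwa [dif_neg (not_lt.2 h2)] at hj

theorem le_ord_mul {κ : Cardinal.{u}} (hκ : κ.IsRegular) (o : Ordinal.{u}) : o ≤ κ.ord * o :=
  le_mul_right o hκ.ord_pos

theorem mk_Iio_le_of_succ {ν : Cardinal.{u}} (i : (succ ν).ord.ToType) :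
    #(Iio i) ≤ #(ν.ord.ToType) := by
  have h1 : #(Iio i) < succ ν := by
    have h2 := mk_Iio_lt i (by rw [mk_toType, card_ord, type_toType])
    rwa [mk_toType, card_ord] at h2
  rw [mk_toType, card_ord]
  exact lt_succ_iff.1 h1

theorem cover_aux {ν : Cardinal.{u}} (hν : ℵ₀ ≤ ν) {ξ g : Ordinal.{u}}
    (hξ : ξ.card ≤ succ ν) (h : ∀ η < ξ, RankGE η (fun _ : ν.ord.ToType => g))
    (η : Ordinal.{u}) : η ≤ ξ →
    ∀ (B : Type u) [LinearOrder B] [WellFoundedLT B], otp B ≤ (succ ν).ord ^ η →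
    ∃ A : (succ ν).ord.ToType → Set B, (∀ j, otp (A j) < (succ ν).ord ^ (g + 2 + 1)) ∧
      ∀ x, {j | x ∉ A j}.Finite := by
  have hκ : (succ ν).IsRegular := isRegular_succ hν
  have hκ1 : ℵ₀ < succ ν := hν.trans_lt (lt_succ ν)
  induction η using WellFoundedLT.induction with
  | _ η ih =>
    intro hη B _ _ hB
    rcases lt_or_ge (otp B) ((succ ν).ord ^ (g + 2 + 1)) with h0 | h0
    · refine ⟨fun _ => Set.univ, fun j => ?_, fun x => ?_⟩
      · rw [otp_univ]
        exact h0
      · simp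
    · have hη0 : η ≠ 0 := by
        rintro rfl
        rw [opow_zero] at hB
        have h1 : (1 : Ordinal.{u}) < (succ ν).ord ^ (g + 2 + 1) := by
          refine (one_lt_ord hκ).trans_le ?_
          exact Ordinal.left_le_opow _ (by
            rw [← Order.succ_eq_add_one]
            exact bot_lt_iff_ne_bot.2 (succ_ne_bot _))
        exact absurd (h0.trans hB) (not_le.2 h1)
      obtain ⟨r, hr, hp⟩ := exists_pieces hκ hκ1 hη0 ((Ordinal.card_le_card hη).trans hξ) hB
      choose e he1 he2 using hp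
      have h1 : ∀ i, ∃ C : (succ ν).ord.ToType → Set (r ⁻¹' {i} : Set B),
          (∀ j < i, otp (C j) < (succ ν).ord ^ (g + 1 + 1)) ∧
          (∀ j, i ≤ j → otp (C j) < (succ ν).ord ^ (g + 2 + 1)) ∧
          ∀ x, {j | x ∉ C j}.Finite := by
        intro i
        obtain ⟨D, hD1, hD2⟩ := ih (e i) (he1 i) ((he1 i).le.trans hη) _ (he2 i)
        obtain ⟨A, hA1, _, hA3⟩ := cover_of_rankGE hκ hκ1
          ((Ordinal.card_le_card ((he1 i).le.trans hη)).trans hξ) _
          (h (e i) ((he1 i).trans_le hη)) (he2 i)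
        obtain ⟨C, hC1, hC2, hC3⟩ := exists_glue i (mk_Iio_le_of_succ i) A hA1 D hD2
        refine ⟨C, ?_, ?_, hC3⟩
        · intro j hj
          obtain ⟨k, hk⟩ := hC1 j hj
          rw [hk]
          refine ((le_ord_mul hκ _).trans_lt (hA3 k)).trans_eq ?_
          rw [add_assoc, one_add_one_eq_two]
        · intro j hj
          rw [hC2 j hj]
          exact hD1 j
      choose C hC1 hC2 hC3 using h1
      refine exists_cover_comb hκ hκ1 ?_ r hr C hC1 hC2 hC3
      have : g + 2 = g + 1 + 1 := by rw [add_assoc, one_add_one_eq_two]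
      rw [this]
      exact lt_add_one _

/-- C7: from `ν` colours to `ν⁺` colours. -/
theorem cover_of_rank {ν : Cardinal.{u}} (hν : ℵ₀ ≤ ν) {ξ g : Ordinal.{u}}
    (hξ : ξ.card ≤ succ ν) (hg : g + 2 ≤ ξ)
    (h : ∀ η < ξ, RankGE η (fun _ : ν.ord.ToType => g))
    {B : Type u} [LinearOrder B] [WellFoundedLT B] (hB : otp B = (succ ν).ord ^ ξ) :
    ∃ A : (succ ν).ord.ToType → Set B, (∀ j, otp (A j) < otp B) ∧
      ∀ x, {j | x ∉ A j}.Finite := by
  have hκ : (succ ν).IsRegular := isRegular_succ hν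
  have hκ1 : ℵ₀ < succ ν := hν.trans_lt (lt_succ ν)
  have hκ0 : 0 < (succ ν).ord := hκ.ord_pos
  have hκone : 1 < (succ ν).ord := one_lt_ord hκ
  have hg2 : g + 2 = g + 1 + 1 := by rw [add_assoc, one_add_one_eq_two]
  rcases hg.lt_or_eq with hlt | heq
  · obtain ⟨A, hA1, hA2⟩ := cover_aux hν hξ h ξ le_rfl B hB.le
    refine ⟨A, fun j => ?_, hA2⟩
    rw [hB]
    exact (hA1 j).trans_le (opow_le_opow_right hκ0 (add_one_le_of_lt hlt))
  · subst heq
    have hinf : Infinite ν.ord.ToType := by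
      rw [infinite_iff, mk_toType, card_ord]
      exact hν
    obtain ⟨F, hF1, hF2⟩ := exists_small_rank ν.ord.ToType g (h (g + 1) (by
      rw [hg2]
      exact lt_add_one _)) 2
    have hF3 : RankGE (g + 1) F := by
      refine hF2.mono_left ?_
      push_cast
      rw [hg2]
      exact (lt_add_one _).le
    obtain ⟨r, hr, hp⟩ := exists_pieces hκ hκ1 (by
      rw [hg2]
      exact succ_ne_bot _) hξ hB.le
    have hp' : ∀ i, otp (r ⁻¹' {i}) ≤ (succ ν).ord ^ (g + 1) := by
      intro i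
      obtain ⟨e, he1, he2⟩ := hp i
      refine he2.trans (opow_le_opow_right hκ0 ?_)
      rw [hg2] at he1
      exact lt_add_one_iff.1 he1
    have hcard : (g + 1).card ≤ succ ν := by
      refine (Ordinal.card_le_card ?_).trans hξ
      rw [hg2]
      exact (lt_add_one _).le
    have h1 : ∀ i, ∃ C : (succ ν).ord.ToType → Set (r ⁻¹' {i} : Set B),
        (∀ j < i, otp (C j) < (succ ν).ord ^ (g + 1)) ∧
        (∀ j, i ≤ j → otp (C j) < (succ ν).ord ^ (g + 1 + 1)) ∧
        ∀ x, {j | x ∉ C j}.Finite := by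
      intro i
      obtain ⟨A, hA1, _, hA3⟩ := cover_of_rankGE hκ hκ1 hcard _ hF3 (hp' i)
      obtain ⟨C, hC1, hC2, hC3⟩ := exists_glue i (mk_Iio_le_of_succ i) A hA1
        (fun _ => Set.univ) (by simp)
      refine ⟨C, ?_, ?_, hC3⟩
      · intro j hj
        obtain ⟨k, hk⟩ := hC1 j hj
        rw [hk]
        refine ((le_ord_mul hκ _).trans_lt (hA3 k)).trans_le (opow_le_opow_right hκ0 ?_)
        have h2 := hF1 k
        push_cast at h2
        exact h2.trans (le_add_of_nonneg_right zero_le_one)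
      · intro j hj
        rw [hC2 j hj, otp_univ]
        refine (hp' i).trans_lt ?_
        rw [opow_lt_opow_iff_right hκone]
        exact lt_add_one _
    choose C hC1 hC2 hC3 using h1
    obtain ⟨A, hA1, hA2⟩ := exists_cover_comb hκ hκ1 (lt_add_one g) r hr C hC1 hC2 hC3
    refine ⟨A, fun j => ?_, hA2⟩
    rw [hB, hg2]
    exact hA1 j

end IPath
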