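import Pool.Agent.Work.MP_820435_lc.Cls.Nec2
import Pool.Agent.Work.MP_820435_lc.Cls.Mul
import Pool.Agent.Work.MP_820435_lc.Cls.Suf2
import Pool.Agent.Work.MP_820435_lc.Cls.Pos

/-!
# Almost covers of `κ ^ ξ * δ` and the rank
-/

open Ordinal Cardinal Set Order

universe u

namespace IPath

/-- **The criterion.** `(ν⁺) ^ ξ * δ` is almost covered by `ν⁺` smaller sets if and only if there
is `g` with `g + 2 ≤ ξ` such that the constant function `g` on `ν` has rank at least `η` for all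
`η < ξ`. -/
theorem almostCover_iff_rank {ν : Cardinal.{u}} (hν : ℵ₀ ≤ ν) {ξ δ : Ordinal.{u}}
    (hξ : ξ.card ≤ succ ν) (hδ0 : δ ≠ 0) (hδ : δ.card < succ ν) :
    AlmostCover (succ ν) ((succ ν).ord ^ ξ * δ) ↔
      ∃ g, g + 2 ≤ ξ ∧ ∀ η < ξ, RankGE η (fun _ : ν.ord.ToType => g) := by
  rw [almostCover_mul_iff (isRegular_succ hν) (hν.trans_lt (lt_succ ν)) hδ0 hδ]
  constructor
  · rintro ⟨A, hA, hfin⟩
    refine exists_rank_of_cover hν (otp_toType _) (Λ := (succ ν).ord.ToType) ?_ A (fun j => ?_) hfin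
    · simp
    · rw [otp_toType]
      exact hA j
  · rintro ⟨g, hg, h⟩
    obtain ⟨A, hA, hfin⟩ := cover_of_rank hν hξ hg h
      (otp_toType ((succ ν).ord ^ ξ))
    refine almostCover_of_model (((succ ν).ord ^ ξ).ToType) (otp_toType _)
      (J := (succ ν).ord.ToType) (by simp) A (fun j => ?_) hfin
    have h1 := hA j
    rwa [otp_toType] at h1

end IPath
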