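import Pool.Agent.Work.MP_820435_lc.Cls.Suf2

/-!
# Sufficiency: from fewer than `κ` colours to `κ` colours
-/

open Ordinal Cardinal Set Order

universe u

namespace IPath

theorem max_mk_Iio_lt {κ : Cardinal.{u}} (hκ1 : ℵ₀ < κ) (i : κ.ord.ToType) :
    max ℵ₀ #(Iio i) < κ := by
  refine max_lt hκ1 ?_
  have h2 := mk_Iio_lt i (by rw [mk_toType, card_ord, type_toType])
  rwa [mk_toType, card_ord] at h2

theorem mk_Iio_le_max {κ : Cardinal.{u}} (i : κ.ord.ToType) :
    #(Iio i) ≤ #((max ℵ₀ #(Iio i)).ord.ToType) := by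
  rw [mk_toType (max ℵ₀ #(Iio i)).ord, card_ord]
  exact le_max_right _ _

theorem cover_gen_aux {κ : Cardinal.{u}} (hκ : κ.IsRegular) (hκ1 : ℵ₀ < κ) {ξ g : Ordinal.{u}}
    (hξ : ξ.card ≤ κ) (h : ∀ ρ < κ, ∀ η < ξ, RankGE η (fun _ : ρ.ord.ToType => g))
    (η : Ordinal.{u}) : η ≤ ξ →
    ∀ (B : Type u) [LinearOrder B] [WellFoundedLT B], otp B ≤ κ.ord ^ η →
    ∃ A : κ.ord.ToType → Set B, (∀ j, otp (A j) < κ.ord ^ (g + 2 + 1)) ∧
      ∀ x, {j | x ∉ A j}.Finite := by
  induction η using WellFoundedLT.induction with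
  | _ η ih =>
    intro hη B _ _ hB
    rcases lt_or_ge (otp B) (κ.ord ^ (g + 2 + 1)) with h0 | h0
    · refine ⟨fun _ => Set.univ, fun j => ?_, fun x => ?_⟩
      · rw [otp_univ]
        exact h0
      · simp
    · have hη0 : η ≠ 0 := by
        rintro rfl
        rw [opow_zero] at hB
        have h1 : (1 : Ordinal.{u}) < κ.ord ^ (g + 2 + 1) := by
          refine (one_lt_ord hκ).trans_le ?_
          exact Ordinal.left_le_opow _ (by
            rw [← Order.succ_eq_add_one]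
            exact bot_lt_iff_ne_bot.2 (succ_ne_bot _))
        exact absurd (h0.trans hB) (not_le.2 h1)
      obtain ⟨r, hr, hp⟩ := exists_pieces hκ hκ1 hη0 ((Ordinal.card_le_card hη).trans hξ) hB
      choose e he1 he2 using hp
      have h1 : ∀ i, ∃ C : κ.ord.ToType → Set (r ⁻¹' {i} : Set B),
          (∀ j < i, otp (C j) < κ.ord ^ (g + 1 + 1)) ∧
          (∀ j, i ≤ j → otp (C j) < κ.ord ^ (g + 2 + 1)) ∧
          ∀ x, {j | x ∉ C j}.Finite := by
        intro i
        obtain ⟨D, hD1, hD2⟩ := ih (e i) (he1 i) ((he1 i).le.trans hη) _ (he2 i)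
        obtain ⟨A, hA1, _, hA3⟩ := cover_of_rankGE hκ hκ1
          ((Ordinal.card_le_card ((he1 i).le.trans hη)).trans hξ) _
          (h _ (max_mk_Iio_lt hκ1 i) (e i) ((he1 i).trans_le hη)) (he2 i)
        obtain ⟨C, hC1, hC2, hC3⟩ := exists_glue i (mk_Iio_le_max i) A hA1 D hD2
        refine ⟨C, ?_, ?_, hC3⟩
        · intro j hj
          obtain ⟨k, hk⟩ := hC1 j hj
          rw [hk]
          refine ((le_ord_mul hκ _).trans_lt (hA3 k)).trans_eq ?_
          rw [add_assoc, one_add_one_eq_two]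
        · intro j hj
          rw [hC2 j hj]
          exact hD1 j
      choose C hC1 hC2 hC3 using h1
      refine exists_cover_comb hκ hκ1 ?_ r hr C hC1 hC2 hC3
      have : g + 2 = g + 1 + 1 := by rw [add_assoc, one_add_one_eq_two]
      rw [this]
      exact lt_add_one _

/-- S1: from fewer than `κ` colours to `κ` colours. -/
theorem cover_of_rank_gen {κ : Cardinal.{u}} (hκ : κ.IsRegular) (hκ1 : ℵ₀ < κ)
    {ξ g : Ordinal.{u}} (hξ : ξ.card ≤ κ) (hg : g + 2 ≤ ξ)
    (h : ∀ ρ < κ, ∀ η < ξ, RankGE η (fun _ : ρ.ord.ToType => g))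
    {B : Type u} [LinearOrder B] [WellFoundedLT B] (hB : otp B = κ.ord ^ ξ) :
    ∃ A : κ.ord.ToType → Set B, (∀ j, otp (A j) < otp B) ∧ ∀ x, {j | x ∉ A j}.Finite := by
  have hκ0 : 0 < κ.ord := hκ.ord_pos
  have hκone : 1 < κ.ord := one_lt_ord hκ
  have hg2 : g + 2 = g + 1 + 1 := by rw [add_assoc, one_add_one_eq_two]
  rcases hg.lt_or_eq with hlt | heq
  · obtain ⟨A, hA1, hA2⟩ := cover_gen_aux hκ hκ1 hξ h ξ le_rfl B hB.le
    refine ⟨A, fun j => ?_, hA2⟩
    rw [hB]
    exact (hA1 j).trans_le (opow_le_opow_right hκ0 (add_one_le_of_lt hlt))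
  · subst heq
    have hF : ∀ i : κ.ord.ToType, ∃ F : (max ℵ₀ #(Iio i)).ord.ToType → Ordinal.{u},
        (∀ j, F j + 2 ≤ g) ∧ RankGE (g + 1) F := by
      intro i
      have hinf : Infinite (max ℵ₀ #(Iio i)).ord.ToType := by
        rw [infinite_iff, mk_toType, card_ord]
        exact le_max_left _ _
      obtain ⟨F, hF1, hF2⟩ := exists_small_rank (max ℵ₀ #(Iio i)).ord.ToType g
        (h _ (max_mk_Iio_lt hκ1 i) (g + 1) (by
          rw [hg2]
          exact lt_add_one _)) 2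
      refine ⟨F, fun j => ?_, hF2.mono_left ?_⟩
      · have h2 := hF1 j
        push_cast at h2
        exact h2
      · push_cast
        rw [hg2]
        exact (lt_add_one _).le
    choose F hF1 hF3 using hF
    obtain ⟨r, hr, hp⟩ := exists_pieces hκ hκ1 (by
      rw [hg2]
      exact succ_ne_bot _) hξ hB.le
    have hp' : ∀ i, otp (r ⁻¹' {i}) ≤ κ.ord ^ (g + 1) := by
      intro i
      obtain ⟨e, he1, he2⟩ := hp i
      refine he2.trans (opow_le_opow_right hκ0 ?_)
      rw [hg2] at he1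
      exact lt_add_one_iff.1 he1
    have hcard : (g + 1).card ≤ κ := by
      refine (Ordinal.card_le_card ?_).trans hξ
      rw [hg2]
      exact (lt_add_one _).le
    have h1 : ∀ i, ∃ C : κ.ord.ToType → Set (r ⁻¹' {i} : Set B),
        (∀ j < i, otp (C j) < κ.ord ^ (g + 1)) ∧
        (∀ j, i ≤ j → otp (C j) < κ.ord ^ (g + 1 + 1)) ∧
        ∀ x, {j | x ∉ C j}.Finite := by
      intro i
      obtain ⟨A, hA1, _, hA3⟩ := cover_of_rankGE hκ hκ1 hcard _ (hF3 i) (hp' i)
      obtain ⟨C, hC1, hC2, hC3⟩ := exists_glue i (mk_Iio_le_max i) A hA1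
        (fun _ => Set.univ) (by simp)
      refine ⟨C, ?_, ?_, hC3⟩
      · intro j hj
        obtain ⟨k, hk⟩ := hC1 j hj
        rw [hk]
        refine ((le_ord_mul hκ _).trans_lt (hA3 k)).trans_le (opow_le_opow_right hκ0 ?_)
        exact (hF1 i k).trans (le_add_of_nonneg_right zero_le_one)
      · intro j hj
        rw [hC2 j hj, otp_univ]
        refine (hp' i).trans_lt ?_
        rw [opow_lt_opow_iff_right hκone]
        exact lt_add_one _
    choose C hC1 hC2 hC3 using h1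
    obtain ⟨A, hA1, hA2⟩ := exists_cover_comb hκ hκ1 (lt_add_one g) r hr C hC1 hC2 hC3
    refine ⟨A, fun j => ?_, hA2⟩
    rw [hB, hg2]
    exact hA1 j

end IPath
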