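import Pool.Agent.Work.MP_820435_lc.Cls.Suf2

/-!
# Sufficiency: exponents of cofinality `κ`
-/

open Ordinal Cardinal Set Order

universe u

namespace IPath

/-- A bounded ordered sum of pieces of type less than `κ ^ ζ`, where `ζ` has cofinality `κ`. -/
theorem otp_lt_of_pieces_cof {κ : Cardinal.{u}} (hκ : κ.IsRegular) {ζ : Ordinal.{u}}
    (hζ : IsSuccLimit ζ) (hcof : ζ.cof = κ)
    {B : Type u} [LinearOrder B] [WellFoundedLT B] (r : B → κ.ord.ToType) (hr : Monotone r)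
    (A : Set B) (i0 : κ.ord.ToType) (hA : ∀ a ∈ A, r a ≤ i0)
    (h : ∀ i ≤ i0, otp (A ∩ r ⁻¹' {i} : Set B) < κ.ord ^ ζ) :
    otp A < κ.ord ^ ζ := by
  have hκ0 : 0 < κ.ord := hκ.ord_pos
  have hI : #(Iic i0) < κ := by
    have h1 : #(Iio i0) < κ := by
      have h2 := mk_Iio_lt i0 (by rw [mk_toType, card_ord, type_toType])
      rwa [mk_toType, card_ord] at h2
    have h2 : Iic i0 = insert i0 (Iio i0) := by
      ext a
      simp [le_iff_eq_or_lt]
    rw [h2]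
    exact mk_insert_le.trans_lt (add_lt_of_lt hκ.aleph0_le h1 (one_lt_aleph0.trans_le hκ.aleph0_le))
  have h3 : ∀ i : Iic i0, ∃ d < ζ, otp (A ∩ r ⁻¹' {i.1} : Set B) < κ.ord ^ d := by
    intro i
    have h4 := h i.1 i.2
    rwa [lt_opow_of_isSuccLimit hκ0.ne' hζ] at h4
  choose d hd1 hd2 using h3
  have h5 : (⨆ i : Iic i0, d i + 1) < ζ :=
    iSup_add_one_lt_of_lt_cof (by rwa [hcof]) hd1
  set δ := ⨆ i : Iic i0, d i + 1 with hδ
  have h6 : otp A ≤ κ.ord ^ δ * otp (Iic i0) := by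
    have h7 := otp_le_mul (B := A) (K := Iic i0) (t := κ.ord ^ δ)
      (fun a => ⟨r a.1, hA a.1 a.2⟩) (fun a b hab => hr hab) Set.univ (fun i => by
        have h8 : otp (Set.univ ∩ (fun a : A => (⟨r a.1, hA a.1 a.2⟩ : Iic i0)) ⁻¹' {i} : Set A) ≤
            otp (A ∩ r ⁻¹' {i.1} : Set B) := by
          refine otp_le_of_strictMono (fun a => ⟨a.1.1, a.1.2, congrArg Subtype.val a.2.2⟩) ?_
          intro a b hab
          exact hab
        refine h8.trans ((hd2 i).le.trans ?_)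
        exact opow_le_opow_right hκ0
          ((le_add_of_nonneg_right zero_le_one).trans (Ordinal.le_iSup _ i)))
    rwa [otp_univ] at h7
  refine h6.trans_lt ?_
  have h7 : κ.ord ^ δ * otp (Iic i0) < κ.ord ^ δ * κ.ord := by
    refine mul_lt_mul_of_pos_left ?_ (opow_pos _ hκ0)
    rw [lt_ord, card_type]
    exact hI
  refine h7.trans_le ?_
  rw [← opow_add_one]
  exact opow_le_opow_right hκ0 (add_one_le_of_lt h5)

/-- The sum of `κ` pieces of type less than `κ ^ ζ`, where `ζ` has cofinality `κ`. -/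
theorem otp_le_of_pieces_cof {κ : Cardinal.{u}} (hκ : κ.IsRegular) {ζ : Ordinal.{u}}
    (hζ : IsSuccLimit ζ) (hcof : ζ.cof = κ)
    {B : Type u} [LinearOrder B] [WellFoundedLT B] (r : B → κ.ord.ToType) (hr : Monotone r)
    (A : Set B) (h : ∀ i, otp (A ∩ r ⁻¹' {i} : Set B) < κ.ord ^ ζ) :
    otp A ≤ κ.ord ^ ζ := by
  refine otp_le_of_Iio fun a => ?_
  have h1 : otp (Iio a) ≤ otp (A ∩ Iio a.1 : Set B) := by
    refine otp_le_of_strictMono (fun b => ⟨b.1.1, b.1.2, b.2⟩) ?_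
    intro b c hbc
    exact hbc
  refine h1.trans_lt (otp_lt_of_pieces_cof hκ hζ hcof r hr _ (r a.1) ?_ ?_)
  · rintro b ⟨_, hb⟩
    exact hr (le_of_lt hb)
  · intro i _
    refine (otp_set_mono ?_).trans_lt (h i)
    rintro b ⟨⟨hb1, _⟩, hb2⟩
    exact ⟨hb1, hb2⟩

/-- Gluing covers of the pieces. -/
theorem exists_cover_pieces {κ : Cardinal.{u}} {B : Type u} [LinearOrder B] [WellFoundedLT B]
    (r : B → κ.ord.ToType) (hr : Monotone r)
    (C : ∀ i : κ.ord.ToType, κ.ord.ToType → Set (r ⁻¹' {i} : Set B))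
    (hfin : ∀ i x, {j | x ∉ C i j}.Finite) :
    ∃ A : κ.ord.ToType → Set B, (∀ x, {j | x ∉ A j}.Finite) ∧
      (∀ j, otp (A j) ≤ otp (A j ∩ {b | r b ≤ j} : Set B) + otp (A j ∩ {b | j < r b} : Set B)) ∧
      ∀ j i, otp (A j ∩ r ⁻¹' {i} : Set B) ≤ otp (C i j) := by
  have hkey : ∀ (j : κ.ord.ToType) (b : B) (i : κ.ord.ToType) (hi : r b = i),
      (⟨b, hi⟩ : (r ⁻¹' {i} : Set B)) ∈ C i j ↔ selfFib r b ∈ C (r b) j := by
    rintro j b _ rfl
    exact Iff.rfl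
  refine ⟨fun j => {b | selfFib r b ∈ C (r b) j}, fun b => hfin (r b) (selfFib r b), fun j => ?_,
    fun j i => ?_⟩
  · exact otp_le_add_cls r hr _ j
  · refine otp_le_of_strictMono (fun b => ⟨⟨b.1, b.2.2⟩, (hkey j b.1 i b.2.2).2 b.2.1⟩) ?_
    intro a b hab
    exact hab

/-- The pieces of the part above the index `j`. -/
theorem otp_upper_lt {κ : Cardinal.{u}} {B : Type u} [LinearOrder B] [WellFoundedLT B]
    (r : B → κ.ord.ToType) (A : Set B) (j : κ.ord.ToType) {t : Ordinal.{u}} (ht : 0 < t)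
    (h : ∀ i, j < i → otp (A ∩ r ⁻¹' {i} : Set B) < t) (i : κ.ord.ToType) :
    otp ((A ∩ {b | j < r b}) ∩ r ⁻¹' {i} : Set B) < t := by
  rcases lt_or_ge j i with hi | hi
  · exact (otp_set_mono (inter_subset_inter_left _ inter_subset_left)).trans_lt (h i hi)
  · have h3 : ((A ∩ {b | j < r b}) ∩ r ⁻¹' {i} : Set B) = ∅ := by
      rw [eq_empty_iff_forall_notMem]
      rintro b ⟨⟨_, hb1⟩, hb2⟩
      have hb3 : r b = i := hb2
      have hb4 : j < r b := hb1
      rw [hb3] at hb4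
      exact absurd hb4 (not_lt.2 hi)
    rw [h3]
    have h4 : otp (∅ : Set B) = 0 := by
      rw [type_eq_zero_iff_isEmpty]
      infer_instance
    rw [h4]
    exact ht

/-- Gluing colours: the colours below `i` and the others. -/
theorem exists_glue_Iio {K X : Type u} [LinearOrder K] (i : K)
    (A : Iio i → Set X) (hA : ∀ x, {j | x ∉ A j}.Finite) :
    ∃ C : K → Set X, (∀ j (h : j < i), C j = A ⟨j, h⟩) ∧ (∀ j, i ≤ j → C j = Set.univ) ∧
      ∀ x, {j | x ∉ C j}.Finite := by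
  classical
  refine ⟨fun j => if h : j < i then A ⟨j, h⟩ else Set.univ, ?_, ?_, ?_⟩
  · intro j hj
    exact dif_pos hj
  · intro j hj
    exact dif_neg (not_lt.2 hj)
  · intro x
    have h1 : (Subtype.val '' {j : Iio i | x ∉ A j}).Finite := (hA x).image _
    refine h1.subset ?_
    intro j hj
    rcases lt_or_ge j i with h2 | h2
    · refine ⟨⟨j, h2⟩, ?_, rfl⟩
      rw [mem_ofPred_eq] at hj ⊢
      beta_reduce at hj
      rwa [dif_pos h2] at hj
    · exfalso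
      rw [mem_ofPred_eq] at hj
      beta_reduce at hj
      rw [dif_neg (not_lt.2 h2)] at hj
      exact hj (mem_univ x)

theorem mk_Iio_ord_lt {κ : Cardinal.{u}} (i : κ.ord.ToType) : #(Iio i) < κ := by
  have h2 := mk_Iio_lt i (by rw [mk_toType, card_ord, type_toType])
  rwa [mk_toType, card_ord] at h2

/-- The rank of a constant function depends only on the size of the set of indices. -/
theorem rankGE_const_of_mk_le {I J : Type u} {η g : Ordinal.{u}} (h : #I ≤ #J)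
    (hJ : RankGE η (fun _ : J => g)) : RankGE η (fun _ : I => g) := by
  obtain ⟨e⟩ := h
  exact hJ.comp e e.injective

theorem add_two_lt_of_isSuccLimit {ζ g : Ordinal.{u}} (hζ : IsSuccLimit ζ) (hg : g < ζ) :
    g + 2 < ζ := by
  have h1 : g + 2 = g + 1 + 1 := by rw [add_assoc, one_add_one_eq_two]
  rw [h1]
  exact hζ.add_one_lt (hζ.add_one_lt hg)

/-- S2, successors of exponents of cofinality `κ`. -/
theorem cover_of_cof_succ {κ : Cardinal.{u}} (hκ : κ.IsRegular) (hκ1 : ℵ₀ < κ)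
    {ζ : Ordinal.{u}} (hζ : IsSuccLimit ζ) (hcof : ζ.cof = κ) (hζκ : ζ.card ≤ κ)
    (h : ∀ ρ < κ, ∃ g < ζ, RankGE ζ (fun _ : ρ.ord.ToType => g))
    {B : Type u} [LinearOrder B] [WellFoundedLT B] (hB : otp B = κ.ord ^ (ζ + 1)) :
    ∃ A : κ.ord.ToType → Set B, (∀ j, otp (A j) < otp B) ∧ ∀ x, {j | x ∉ A j}.Finite := by
  have hκ0 : 0 < κ.ord := hκ.ord_pos
  have hκone : 1 < κ.ord := one_lt_ord hκ
  have hcard : (ζ + 1).card ≤ κ := by
    rw [card_add, card_one]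
    exact add_le_of_le hκ.aleph0_le hζκ (one_lt_aleph0.le.trans hκ.aleph0_le)
  obtain ⟨r, hr, hp⟩ := exists_pieces hκ hκ1 (succ_ne_bot ζ) hcard hB.le
  have hp' : ∀ i, otp (r ⁻¹' {i}) ≤ κ.ord ^ ζ := by
    intro i
    obtain ⟨e, he1, he2⟩ := hp i
    exact he2.trans (opow_le_opow_right hκ0 (lt_add_one_iff.1 he1))
  have h1 : ∀ i, ∃ C : κ.ord.ToType → Set (r ⁻¹' {i} : Set B),
      (∀ j < i, otp (C j) < κ.ord ^ ζ) ∧ ∀ x, {j | x ∉ C j}.Finite := by
    intro i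
    obtain ⟨g, hg, hR⟩ := h (#(Iio i)) (mk_Iio_ord_lt i)
    have hR' : RankGE ζ (fun _ : Iio i => g) := rankGE_const_of_mk_le (by simp) hR
    obtain ⟨A, hA1, _, hA3⟩ := cover_of_rankGE hκ hκ1 hζκ _ hR' (hp' i)
    obtain ⟨C, hC1, _, hC3⟩ := exists_glue_Iio i A hA1
    refine ⟨C, fun j hj => ?_, hC3⟩
    rw [hC1 j hj]
    exact ((le_ord_mul hκ _).trans_lt (hA3 _)).trans
      ((opow_lt_opow_iff_right hκone).2 (add_two_lt_of_isSuccLimit hζ hg))
  choose C hC1 hC2 using h1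
  obtain ⟨A, hA1, hA2, hA3⟩ := exists_cover_pieces r hr C hC2
  refine ⟨A, fun j => ?_, hA1⟩
  rw [hB]
  refine (hA2 j).trans_lt ?_
  have hlt : κ.ord ^ ζ < κ.ord ^ (ζ + 1) := (opow_lt_opow_iff_right hκone).2 (lt_add_one ζ)
  refine isPrincipal_add_opow_of_isPrincipal_add (isPrincipal_add_ord hκ.aleph0_le) _ ?_ ?_
  · refine otp_lt_of_pieces hκ r hr _ j (fun a ha => ha.2) ?_
    intro i _
    exact ((otp_set_mono inter_subset_right).trans (hp' i)).trans_lt hlt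
  · refine (otp_le_of_pieces_cof hκ hζ hcof r hr _ ?_).trans_lt hlt
    exact otp_upper_lt r (A j) j (opow_pos _ hκ0) fun i hi => (hA3 j i).trans_lt (hC1 i j hi)

/-- S2, exponents of cofinality `κ`. -/
theorem cover_of_cof_limit {κ : Cardinal.{u}} (hκ : κ.IsRegular) (hκ1 : ℵ₀ < κ)
    {ξ : Ordinal.{u}} (hζ : IsSuccLimit ξ) (hcof : ξ.cof = κ) (hξκ : ξ.card ≤ κ)
    (F : κ.ord.ToType → Ordinal.{u}) (hF : ∀ j, F j < ξ)
    (h : ∀ i, ∀ η < ξ, RankGE η (fun j : Iio i => F j.1))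
    {B : Type u} [LinearOrder B] [WellFoundedLT B] (hB : otp B = κ.ord ^ ξ) :
    ∃ A : κ.ord.ToType → Set B, (∀ j, otp (A j) < otp B) ∧ ∀ x, {j | x ∉ A j}.Finite := by
  have hκ0 : 0 < κ.ord := hκ.ord_pos
  have hκone : 1 < κ.ord := one_lt_ord hκ
  obtain ⟨r, hr, hp⟩ := exists_pieces hκ hκ1 hζ.ne_bot hξκ hB.le
  choose e he1 he2 using hp
  have h1 : ∀ i, ∃ C : κ.ord.ToType → Set (r ⁻¹' {i} : Set B),
      (∀ j < i, otp (C j) < κ.ord ^ (F j + 1 + 1)) ∧ ∀ x, {j | x ∉ C j}.Finite := by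
    intro i
    obtain ⟨A, hA1, _, hA3⟩ := cover_of_rankGE hκ hκ1
      ((Ordinal.card_le_card (he1 i).le).trans hξκ) _ (h i (e i) (he1 i)) (he2 i)
    obtain ⟨C, hC1, _, hC3⟩ := exists_glue_Iio i A hA1
    refine ⟨C, fun j hj => ?_, hC3⟩
    rw [hC1 j hj, add_assoc, one_add_one_eq_two]
    exact (le_ord_mul hκ _).trans_lt (hA3 ⟨j, hj⟩)
  choose C hC1 hC2 using h1
  obtain ⟨A, hA1, hA2, hA3⟩ := exists_cover_pieces r hr C hC2
  refine ⟨A, fun j => ?_, hA1⟩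
  rw [hB]
  refine (hA2 j).trans_lt ?_
  refine isPrincipal_add_opow_of_isPrincipal_add (isPrincipal_add_ord hκ.aleph0_le) _ ?_ ?_
  · refine otp_lt_of_pieces_cof hκ hζ hcof r hr _ j (fun a ha => ha.2) ?_
    intro i _
    exact ((otp_set_mono inter_subset_right).trans (he2 i)).trans_lt
      ((opow_lt_opow_iff_right hκone).2 (he1 i))
  · refine (otp_le_of_pieces hκ hκ1 (g := F j + 1) r hr _ ?_).trans_lt
      ((opow_lt_opow_iff_right hκone).2 (hζ.add_one_lt (hζ.add_one_lt (hF j))))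
    exact otp_upper_lt r (A j) j (opow_pos _ hκ0) fun i hi => (hA3 j i).trans_lt (hC1 i j hi)

end IPath
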