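import Pool.Agent.Work.MP_820435_lc.Cls.NecBad
import Pool.Agent.Work.MP_820435_lc.Cls.Suf3
import Pool.Agent.Work.MP_820435_lc.Cls.SufCof
import Pool.Agent.Work.MP_820435_lc.Cls.Iff

/-!
# Almost covers and bad exponents, for all regular uncountable cardinals
-/

open Ordinal Cardinal Set Order

universe u

namespace IPath

/-- A function from `κ` to `ζ`, where `ζ` has cofinality less than `κ`, is bounded below `ζ` on a
set of size `κ`. -/
theorem exists_bound_of_cof_lt {κ : Cardinal.{u}} (hκ : κ.IsRegular) {ζ : Ordinal.{u}}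
    (hcof : ζ.cof < κ) (F : κ.ord.ToType → Ordinal.{u})
    (hF : ∀ j, F j < ζ) : ∃ g < ζ, #{j | F j ≤ g} = κ := by
  obtain ⟨s, hs, hsc⟩ := Order.exists_cof_eq ζ.ToType
  rw [cof_toType] at hsc
  have h1 : ∀ j, ∃ x : s, ToType.mk ⟨F j, hF j⟩ ≤ x.1 := by
    intro j
    obtain ⟨x, hx, hle⟩ := hs (ToType.mk ⟨F j, hF j⟩)
    exact ⟨⟨x, hx⟩, hle⟩
  choose f hf using h1
  obtain ⟨x, hx⟩ := infinite_pigeonhole_card f κ (by rw [mk_toType, card_ord]) hκ.aleph0_le
    (by rw [hsc, hκ.cof_ord]; exact hcof)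
  refine ⟨((x.1 : ζ.ToType) : Ordinal.{u}), mem_Iio.1 x.1.toOrd.2, le_antisymm ?_ ?_⟩
  · refine (mk_set_le _).trans ?_
    rw [mk_toType, card_ord]
  · refine hx.trans (mk_le_mk_of_subset ?_)
    intro j hj
    have h2 := hf j
    have h3 : f j = x := hj
    rw [h3] at h2
    have h4 : (ToType.mk ⟨F j, hF j⟩ : ζ.ToType).toOrd ≤ x.1.toOrd :=
      ToType.mk.symm.monotone h2
    have h5 : ((ToType.mk ⟨F j, hF j⟩ : ζ.ToType).toOrd : Ordinal.{u}) ≤ x.1.toOrd := h4
    simpa using h5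

/-- A set of size `κ` contains copies of all smaller sets inside a proper initial segment. -/
theorem exists_small_embedding {κ : Cardinal.{u}} (hκ : κ.IsRegular) (S : Set κ.ord.ToType)
    (hS : #S = κ) {ρ : Cardinal.{u}} (hρ : ρ < κ) :
    ∃ (i : κ.ord.ToType) (e : ρ.ord.ToType → Iio i), Function.Injective e ∧ ∀ x, (e x).1 ∈ S := by
  have h1 : #(ρ.ord.ToType) ≤ #S := by
    rw [mk_toType, card_ord, hS]
    exact hρ.le
  obtain ⟨e⟩ := h1
  have h2 : ¬ IsCofinal (range fun x => (e x).1) := by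
    intro h3
    have h4 := Order.cof_le h3
    rw [cof_toType, hκ.cof_ord] at h4
    have h5 := h4.trans mk_range_le
    rw [mk_toType, card_ord] at h5
    exact absurd hρ (not_lt.2 h5)
  rw [not_isCofinal_iff] at h2
  obtain ⟨i, hi⟩ := h2
  refine ⟨i, fun x => ⟨(e x).1, hi _ (mem_range_self x)⟩, ?_, fun x => (e x).2⟩
  intro x y hxy
  have h6 : (e x).1 = (e y).1 := congrArg (fun z : Iio i => z.1) hxy
  exact e.injective (Subtype.ext h6)

/-- A bad exponent has an almost cover. -/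
theorem cover_of_isBad {κ : Cardinal.{u}} (hκ : κ.IsRegular) (hκ1 : ℵ₀ < κ)
    {ξ : Ordinal.{u}} (hξ : ξ.card ≤ κ) (h : IsBad κ ξ)
    {B : Type u} [LinearOrder B] [WellFoundedLT B] (hB : otp B = κ.ord ^ ξ) :
    ∃ A : κ.ord.ToType → Set B, (∀ j, otp (A j) < otp B) ∧ ∀ x, {j | x ∉ A j}.Finite := by
  have hκ0 : 0 < κ := aleph0_pos.trans hκ1
  rcases h with ⟨ζ, rfl, h⟩ | ⟨hlim, F, hF, h⟩
  · have hζκ : ζ.card ≤ κ := (Ordinal.card_le_card (lt_add_one ζ).le).trans hξ
    rcases zero_or_succ_or_isSuccLimit ζ with rfl | ⟨ζ', rfl⟩ | hζ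
    · obtain ⟨g, hg, -⟩ := h 0 hκ0
      exact absurd hg not_lt_zero
    · refine cover_of_rank_gen hκ hκ1 (g := ζ') hξ ?_ ?_ hB
      · rw [← Order.succ_eq_add_one (Order.succ ζ'), Order.succ_eq_add_one, Order.succ_eq_add_one,
          add_assoc, one_add_one_eq_two]
      · intro ρ hρ η hη
        obtain ⟨g, hg, hR⟩ := h ρ hρ
        exact (hR.mono_left (lt_add_one_iff.1 hη)).mono fun _ => lt_succ_iff.1 hg
    · rcases (ζ.cof_le_card.trans hζκ).lt_or_eq with hcof | hcof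
      · choose! g hg hR using h
        obtain ⟨g0, hg0, hS⟩ := exists_bound_of_cof_lt hκ hcof (fun j => g (#(Iio j)))
          (fun j => hg _ (mk_Iio_ord_lt j))
        refine cover_of_rank_gen hκ hκ1 (g := g0) hξ
          ((add_two_lt_of_isSuccLimit hζ hg0).le.trans (lt_add_one ζ).le) ?_ hB
        intro ρ hρ η hη
        obtain ⟨i, e, he, -⟩ := exists_small_embedding hκ _ hS hρ
        obtain ⟨j, hj, hij⟩ : ∃ j ∈ {j | g (#(Iio j)) ≤ g0}, i ≤ j := by
          by_contra hcon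
          push Not at hcon
          have h1 := mk_le_mk_of_subset (show {j | g (#(Iio j)) ≤ g0} ⊆ Iio i from hcon)
          rw [hS] at h1
          exact absurd (mk_Iio_ord_lt i) (not_lt.2 h1)
        have h1 : #(ρ.ord.ToType) ≤ #((#(Iio j)).ord.ToType) := by
          rw [mk_toType (#(Iio j)).ord, card_ord]
          exact (mk_le_of_injective he).trans (mk_le_mk_of_subset (Iio_subset_Iio hij))
        exact (rankGE_const_of_mk_le h1 ((hR _ (mk_Iio_ord_lt j)).mono fun _ => hj)).mono_left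
          (lt_add_one_iff.1 hη)
      · exact cover_of_cof_succ hκ hκ1 hζ hcof hζκ h hB
  · rcases (ξ.cof_le_card.trans hξ).lt_or_eq with hcof | hcof
    · obtain ⟨g0, hg0, hS⟩ := exists_bound_of_cof_lt hκ hcof F hF
      refine cover_of_rank_gen hκ hκ1 (g := g0) hξ (add_two_lt_of_isSuccLimit hlim hg0).le ?_ hB
      intro ρ hρ η hη
      obtain ⟨i, e, he, hS'⟩ := exists_small_embedding hκ _ hS hρ
      exact ((h i η hη).comp e he).mono fun x => hS' x
    · exact cover_of_cof_limit hκ hκ1 hlim hcof hξ F hF h hB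

/-- **The criterion.** For `κ` regular uncountable, `ξ` of size at most `κ` and `δ ≠ 0` of size
less than `κ`, the ordinal `κ ^ ξ * δ` is almost covered by `κ` smaller sets if and only if the
exponent `ξ` is bad for `κ`. -/
theorem almostCover_iff_isBad {κ : Cardinal.{u}} (hκ : κ.IsRegular) (hκ1 : ℵ₀ < κ)
    {ξ δ : Ordinal.{u}} (hξ : ξ.card ≤ κ) (hδ0 : δ ≠ 0) (hδ : δ.card < κ) :
    AlmostCover κ (κ.ord ^ ξ * δ) ↔ IsBad κ ξ := by
  rw [almostCover_mul_iff hκ hκ1 hδ0 hδ]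
  refine ⟨isBad_of_almostCover hκ hκ1 hξ, fun h => ?_⟩
  obtain ⟨A, hA, hfin⟩ := cover_of_isBad hκ hκ1 hξ h (otp_toType (κ.ord ^ ξ))
  refine almostCover_of_model ((κ.ord ^ ξ).ToType) (otp_toType _)
    (J := κ.ord.ToType) (by simp) A (fun j => ?_) hfin
  have h1 := hA j
  rwa [otp_toType] at h1

/-- The bad exponents for a successor cardinal. -/
theorem isBad_succ_iff {ν : Cardinal.{u}} (hν : ℵ₀ ≤ ν) {ξ : Ordinal.{u}}
    (hξ : ξ.card ≤ succ ν) : IsBad (succ ν) ξ ↔
      ∃ g, g + 2 ≤ ξ ∧ ∀ η < ξ, RankGE η (fun _ : ν.ord.ToType => g) := by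
  have hκ : (succ ν).IsRegular := isRegular_succ hν
  have hκ1 : ℵ₀ < succ ν := hν.trans_lt (lt_succ ν)
  have h1 : (1 : Ordinal.{u}).card < succ ν := by
    rw [card_one]
    exact one_lt_aleph0.trans hκ1
  rw [← almostCover_iff_isBad hκ hκ1 hξ one_ne_zero h1,
    almostCover_iff_rank hν hξ one_ne_zero h1]

end IPath
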