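import Pool.Agent.Work.MP_820435_lc.Cls.RankCan
import Pool.Agent.Work.MP_820435_lc.Cls.FirstDef
import Pool.Agent.Work.MP_820435_lc.Cls.IffBad

/-!
# The rank of the constant function with value the first bad exponent
-/

open Ordinal Cardinal Set Order

universe u

namespace IPath

/-- If the constant function with value `y + c` on every smaller cardinal has rank at least `y + β`
for all `β < ν`, then the constant function with value `y + ν` on `ν` has rank more than `y + ν`. -/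
theorem rank_add_ord {ν : Cardinal.{u}} (hν : ℵ₀ ≤ ν) {y c : Ordinal.{u}} (hc : c < ν.ord)
    (h1 : 1 + y ≤ y + c)
    (h : ∀ ρ < ν, ∀ β < ν.ord, RankGE (y + β) (fun _ : ρ.ord.ToType => y + c)) :
    RankGE (y + ν.ord + 1) (fun _ : ν.ord.ToType => y + ν.ord) := by
  have hlim : IsSuccLimit (y + ν.ord) := isSuccLimit_add y (isSuccLimit_ord hν)
  have hν0 : ν.ord ≠ 0 := (isSuccLimit_ord hν).bot_lt.ne'
  have hj : ∀ j : ν.ord.ToType, ((j.toOrd : Ordinal.{u})) < ν.ord := fun j => mem_Iio.1 j.toOrd.2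
  rw [rankGE_iff]
  refine ⟨?_, fun η' hη' => ?_⟩
  · have : {j : ν.ord.ToType | y + ν.ord = 0} = ∅ := by
      ext j
      simp only [mem_ofPred_eq, mem_empty_iff_false, iff_false]
      exact (hlim.bot_lt).ne'
    rw [this]
    exact Set.finite_empty
  refine ⟨fun j => y + c + (j.toOrd : Ordinal.{u}), fun j => Or.inl ?_, ?_⟩
  · change y + c + (j.toOrd : Ordinal.{u}) < y + ν.ord
    rw [add_assoc]
    exact add_lt_add_right (isPrincipal_add_ord hν hc (hj j)) y
  refine RankGE.mono_left ?_ (lt_add_one_iff.1 hη')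
  refine rankGE_limit hlim fun η hη => ?_
  obtain ⟨β, hβ, hηβ⟩ := (lt_add_iff hν0).1 hη
  refine RankGE.mono_left (η := y + β) ?_ hηβ
  refine rankGE_split {j | (j.toOrd : Ordinal.{u}) < β} ?_ ?_
  · refine RankGE.mono (F := fun _ => y + c) ?_ fun j => le_self_add
    have h2 : β.card < ν := lt_ord.1 hβ
    refine rankGE_const_of_mk_le ?_ (h _ h2 β hβ)
    rw [mk_toType, card_ord, ← mk_toType]
    refine mk_le_of_injective (f := fun j => ToType.mk ⟨_, j.2⟩) fun j k hjk => ?_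
    have h3 := ToType.mk.injective hjk
    have h4 := congrArg Subtype.val h3
    exact Subtype.ext (ToType.mk.symm.injective (Subtype.ext h4))
  · refine rankGE_of_le fun j => ?_
    have h2 : β ≤ (j.1.toOrd : Ordinal.{u}) := not_lt.1 j.2
    calc 1 + (y + β) = 1 + y + β := (add_assoc _ _ _).symm
      _ ≤ y + c + β := add_le_add_left h1 β
      _ ≤ _ := add_le_add_right h2 _

/-- Step from `n` to `n + 2`. -/
theorem rank_step (n : ℕ) {x : Ordinal.{u}} (hx : x ≠ 0)
    (h : RankGE (x + 1) (fun _ : (ℵ_ n : Cardinal.{u}).ord.ToType => x)) :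
    RankGE (ω_ ((n + 2 : ℕ) : Ordinal.{u}) * (x + 1) + 1)
      (fun _ : (ℵ_ ((n + 2 : ℕ) : Ordinal.{u}) : Cardinal.{u}).ord.ToType =>
        ω_ ((n + 2 : ℕ) : Ordinal.{u}) * (x + 1)) := by
  have hs : ∀ k : ℕ, (ℵ_ ((k + 1 : ℕ) : Ordinal.{u}) : Cardinal.{u}) = succ (ℵ_ (k : Ordinal.{u})) := by
    intro k
    rw [Nat.cast_succ, succ_aleph]
  have hν : ℵ₀ ≤ (ℵ_ ((n + 2 : ℕ) : Ordinal.{u}) : Cardinal.{u}) := aleph0_le_aleph _
  have hνo : (ℵ_ ((n + 2 : ℕ) : Ordinal.{u}) : Cardinal.{u}).ord = ω_ ((n + 2 : ℕ) : Ordinal.{u}) :=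
    ord_aleph _
  rw [← hνo]
  generalize hνe : (ℵ_ ((n + 2 : ℕ) : Ordinal.{u}) : Cardinal.{u}) = ν at *
  have hν0 : ν.ord ≠ 0 := (isSuccLimit_ord hν).bot_lt.ne'
  rw [mul_add_one]
  have hy1 : 1 + ν.ord * x = ν.ord * x := by
    apply one_add_of_omega0_le
    calc ω ≤ ν.ord := omega0_le_ord.2 hν
      _ = ν.ord * 1 := (mul_one _).symm
      _ ≤ ν.ord * x := mul_le_mul_right (Order.one_le_iff_pos.2 (pos_iff_ne_zero.2 hx)) _
  refine rank_add_ord hν (c := (ℵ_ ((n + 1 : ℕ) : Ordinal.{u}) : Cardinal.{u}).ord) ?_ ?_ ?_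
  · rw [ord_lt_ord, ← hνe, hs (n + 1)]
    exact lt_succ _
  · rw [hy1]
    exact le_self_add
  intro ρ hρ β hβ
  have hρ' : ρ ≤ ℵ_ ((n + 1 : ℕ) : Ordinal.{u}) := by
    rw [← hνe, hs (n + 1)] at hρ
    exact lt_succ_iff.1 hρ
  refine rankGE_const_of_mk_le (J := (ℵ_ ((n + 1 : ℕ) : Ordinal.{u}) : Cardinal.{u}).ord.ToType) ?_ ?_
  · simpa using hρ'
  have hreg : (ℵ_ ((n + 1 : ℕ) : Ordinal.{u}) : Cardinal.{u}).IsRegular := by
    rw [hs n]
    exact isRegular_succ (aleph0_le_aleph _)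
  refine rankGE_canonical hreg ?_ ?_ ?_
  · have h2 : β.card < ν := lt_ord.1 hβ
    rw [← hνe, hs (n + 1)] at h2
    exact lt_succ_iff.1 h2
  · exact rankGE_of_le fun _ => hy1.le
  · intro ρ' hρ'
    have h2 : RankGE (ν.ord * (x + 1)) (fun _ : (ℵ_ n : Cardinal.{u}).ord.ToType => ν.ord * x) :=
      h.mul hν0
    refine rankGE_const_of_mk_le ?_ (h2.mono_left ?_)
    · rw [hs n, lt_succ_iff] at hρ'
      simpa using hρ'
    · rw [mul_add_one]
      exact add_le_add_right hβ.le _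

theorem firstExp_ne_zero : ∀ n : ℕ, firstExp.{u} n ≠ 0
  | 0 => omega0_ne_zero
  | 1 => (omega_pos 1).ne'
  | 2 => (omega_pos 2).ne'
  | n + 3 => by
    rw [firstExp]
    exact mul_ne_zero (omega_pos _).ne' (by simp)

/-- The constant function with value `ω` on a countable set has every rank. -/
theorem rank_omega0 (η : Ordinal.{u}) {ρ : Cardinal.{u}} (hρ : ρ ≤ ℵ₀) :
    RankGE η (fun _ : ρ.ord.ToType => ω) := by
  have hc : #ρ.ord.ToType ≤ ℵ₀ := by rwa [mk_ord_toType]
  have : Countable ρ.ord.ToType := Cardinal.mk_le_aleph0_iff.1 hc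
  exact rankGE_of_countable η fun _ => le_rfl

theorem rank_one : RankGE (ω_ 1 + 1) (fun _ : (ℵ₁ : Cardinal.{u}).ord.ToType => ω_ 1) := by
  have h0 : (ℵ₁ : Cardinal.{u}) = succ ℵ₀ := succ_aleph0.symm
  have h := rank_add_ord (ν := ℵ₁) (y := 0) (c := ω) (aleph0_le_aleph 1)
    (by rw [← ord_aleph0, ord_lt_ord]; exact aleph0_lt_aleph_one)
    (by rw [add_zero, zero_add]; exact one_lt_omega0.le) (by
      intro ρ hρ β hβ
      rw [h0, lt_succ_iff] at hρ
      simpa only [zero_add] using rank_omega0 β hρ)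
  simpa only [zero_add, ord_aleph] using h

theorem rank_two : RankGE (ω_ 2 + 1) (fun _ : (ℵ_ 2 : Cardinal.{u}).ord.ToType => ω_ 2) := by
  have h0 : (ℵ₁ : Cardinal.{u}) = succ ℵ₀ := succ_aleph0.symm
  have h1 : (ℵ_ 2 : Cardinal.{u}) = succ ℵ₁ := by
    rw [← one_add_one_eq_two, succ_aleph]
  have h := rank_add_ord (ν := ℵ_ 2) (y := 0) (c := ω_ 1) (aleph0_le_aleph _)
    (by rw [← ord_aleph, ord_lt_ord, h1]; exact lt_succ _)
    (by rw [add_zero, zero_add]; exact one_lt_omega0.le.trans (omega0_le_omega 1)) (by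
      intro ρ hρ β hβ
      rw [h1, lt_succ_iff] at hρ
      refine rankGE_const_of_mk_le (J := (ℵ₁ : Cardinal.{u}).ord.ToType) (by simpa using hρ) ?_
      have h2 : β.card ≤ ℵ₁ := by
        have h3 := lt_ord.1 hβ
        rw [h1] at h3
        exact lt_succ_iff.1 h3
      have h4 := rankGE_canonical (ν := ℵ₁) isRegular_aleph_one (b := ω) (b' := 0) (β := β) h2
        (by
          rw [rankGE_iff]
          refine ⟨?_, fun η' hη' => absurd hη' not_lt_zero⟩
          have : {j : (ℵ₁ : Cardinal.{u}).ord.ToType | (ω : Ordinal.{u}) = 0} = ∅ := by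
            ext j
            simp only [mem_ofPred_eq, mem_empty_iff_false, iff_false]
            exact omega0_ne_zero
          rw [this]
          exact Set.finite_empty)
        (fun ρ hρ => rank_omega0 _ (by rwa [h0, lt_succ_iff] at hρ))
      have h5 : (ω : Ordinal.{u}) + (ℵ₁ : Cardinal.{u}).ord = ω_ 1 := by
        rw [ord_aleph]
        rw [← ord_aleph]
        exact isPrincipal_add_iff_add_left_eq_self.1 (isPrincipal_add_ord (aleph0_le_aleph 1)) _
          (by rw [← ord_aleph0, ord_lt_ord]; exact aleph0_lt_aleph_one)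
      rw [h5] at h4
      simpa only [zero_add] using h4)
  simpa only [zero_add, ord_aleph] using h

theorem rank_firstExp : ∀ n : ℕ, RankGE (firstExp n + 1)
    (fun _ : (ℵ_ n : Cardinal.{u}).ord.ToType => firstExp n)
  | 0 => by
    have h : (ℵ_ ((0 : ℕ) : Ordinal.{u}) : Cardinal.{u}) = ℵ₀ := by rw [Nat.cast_zero, aleph_zero]
    rw [h]
    exact rank_omega0 _ le_rfl
  | 1 => by
    have h := rank_one.{u}
    rw [firstExp]
    have h0 : (ℵ_ ((1 : ℕ) : Ordinal.{u}) : Cardinal.{u}) = ℵ₁ := by rw [Nat.cast_one]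
    rw [h0]
    exact h
  | 2 => by
    have h := rank_two.{u}
    rw [firstExp]
    simpa only [Nat.cast_ofNat] using h
  | n + 3 => by
    rw [firstExp]
    exact rank_step (n + 1) (firstExp_ne_zero _) (rank_firstExp (n + 1))

theorem card_firstExp_le : ∀ n : ℕ, (firstExp.{u} n).card ≤ ℵ_ n
  | 0 => by
    rw [firstExp, card_omega0, Nat.cast_zero, aleph_zero]
  | 1 => by
    rw [firstExp, card_omega, Nat.cast_one]
  | 2 => by
    rw [firstExp, card_omega, Nat.cast_ofNat]
  | n + 3 => by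
    rw [firstExp, card_mul, card_omega]
    refine mul_le_of_le (aleph0_le_aleph _) le_rfl ?_
    rw [card_add, card_one]
    refine add_le_of_le (aleph0_le_aleph _) ((card_firstExp_le (n + 1)).trans ?_)
      (one_le_aleph0.trans (aleph0_le_aleph _))
    rw [aleph_le_aleph]
    exact_mod_cast (by omega : n + 1 ≤ n + 3)

theorem isBad_firstExp (n : ℕ) : IsBad (succ (ℵ_ n : Cardinal.{u})) (firstExp n + 2) := by
  have h2 : firstExp.{u} n + 2 = firstExp n + 1 + 1 := by rw [add_assoc, one_add_one_eq_two]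
  rw [isBad_succ_iff (aleph0_le_aleph _)]
  · refine ⟨firstExp n, le_rfl, fun η hη => (rank_firstExp n).mono_left ?_⟩
    rw [h2] at hη
    exact lt_add_one_iff.1 hη
  · rw [card_add]
    refine add_le_of_le ((aleph0_le_aleph _).trans (le_succ _))
      ((card_firstExp_le n).trans (le_succ _)) ?_
    refine le_trans ?_ ((aleph0_le_aleph _).trans (le_succ _))
    have h3 : (2 : Ordinal.{u}).card = 2 := by simp
    rw [h3]
    exact (natCast_lt_aleph0 (n := 2)).le

end IPath
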