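import Pool.Agent.Work.MP_820435_lc.Cls.Neg
import Pool.Agent.Work.MP_820435_lc.Cls.Pos
import Pool.Agent.Work.MP_820435_lc.Cnf
import Pool.Agent.Work.MP_820435_lc.CofOmega
import Pool.Agent.Work.MP_820435_lc.Sg4

/-!
# The relation under the generalized continuum hypothesis
-/

open Ordinal Cardinal Set Order

universe u

namespace IPath

theorem pathRel_one : PathRel (1 : Ordinal.{u}) := by
  intro X _ _ hX G
  have hs : Subsingleton X := by
    rw [← le_one_iff_subsingleton, ← card_type (α := X) (r := (· < ·))]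
    have h1 := congrArg Ordinal.card hX
    rw [card_one] at h1
    exact h1.le
  refine Or.inl ⟨Set.univ, ?_, ?_⟩
  · rw [← hX]
    exact otp_univ X
  · intro x _ y _ hxy
    exact G.loopless.irrefl x (by rwa [Subsingleton.elim y x] at hxy)

/-- Under GCH the powers of smaller cardinals are at most the cardinal. -/
theorem two_power_le_of_gch (hgch : ∀ μ : Cardinal.{u}, ℵ₀ ≤ μ → 2 ^ μ = succ μ)
    {κ : Cardinal.{u}} (hκ : ℵ₀ ≤ κ) {ρ : Cardinal.{u}} (hρ : ρ < κ) : 2 ^ ρ ≤ κ := by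
  rcases lt_or_ge ρ ℵ₀ with h | h
  · exact (power_lt_aleph0 (natCast_lt_aleph0 (n := 2)) h).le.trans hκ
  · rw [hgch ρ h]
    exact succ_le_of_lt hρ

/-- Under GCH a singular cardinal is closed under powers. -/
theorem power_lt_of_gch (hgch : ∀ μ : Cardinal.{u}, ℵ₀ ≤ μ → 2 ^ μ = succ μ)
    {κ : Cardinal.{u}} (hκ : ℵ₀ < κ) (hns : ¬ κ.IsRegular) {ρ σ : Cardinal.{u}} (hρ : ρ < κ)
    (hσ : σ < κ) : ρ ^ σ < κ := by
  obtain ⟨δ, hδ⟩ : ∃ δ : Cardinal.{u}, δ = max (max ρ σ) ℵ₀ := ⟨_, rfl⟩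
  have h0 : ℵ₀ ≤ δ := by rw [hδ]; exact le_max_right _ _
  have h1 : ρ ≤ δ := by rw [hδ]; exact (le_max_left _ _).trans (le_max_left _ _)
  have h2 : σ ≤ δ := by rw [hδ]; exact (le_max_right _ _).trans (le_max_left _ _)
  have h3 : δ < κ := by rw [hδ]; exact max_lt (max_lt hρ hσ) hκ
  have h4 : succ δ < κ := by
    refine lt_of_le_of_ne (succ_le_of_lt h3) fun h => hns ?_
    rw [← h]
    exact isRegular_succ h0
  calc ρ ^ σ ≤ (2 ^ δ) ^ δ := by
        refine (power_le_power_right (h1.trans (cantor δ).le)).trans ?_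
        exact power_le_power_left (power_ne_zero δ two_ne_zero) h2
    _ = 2 ^ δ := by rw [← power_mul, mul_eq_self h0]
    _ = succ δ := hgch δ h0
    _ < κ := h4

/-- The terms. -/
theorem pathRel_opow_iff_of_gch (hgch : ∀ μ : Cardinal.{u}, ℵ₀ ≤ μ → 2 ^ μ = succ μ)
    {e : Ordinal.{u}} : PathRel (ω ^ e) ↔ ∀ κ : Cardinal.{u}, κ = (ω ^ e : Ordinal.{u}).card →
      κ.IsRegular → ℵ₀ < κ → ¬ AlmostCover κ (ω ^ e) := by
  constructor
  · rintro h κ hκ hr h1 hc
    exact not_pathRel_of_almostCover hr h1 (fun ρ hρ => two_power_le_of_gch hgch h1.le hρ)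
      hκ.symm hc h
  · intro h
    rcases eq_or_ne e 0 with rfl | he
    · rw [opow_zero]
      exact pathRel_one
    have h0 : ℵ₀ ≤ (ω ^ e : Ordinal.{u}).card := by
      have h3 : (ω : Ordinal.{u}) ≤ ω ^ e := left_le_opow ω (pos_iff_ne_zero.2 he)
      have h4 := Ordinal.card_le_card h3
      rwa [card_omega0] at h4
    by_cases h1 : (ω ^ e : Ordinal.{u}).card.ord.cof = ℵ₀
    · exact pathRel_of_cof_aleph0 h1 rfl
    by_cases h2 : (ω ^ e : Ordinal.{u}).card.IsRegular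
    · rcases h0.eq_or_lt with h3 | h3
      · exfalso
        apply h1
        rw [← h3]
        simp
      · exact pathRel_of_not_almostCover h2 rfl (h _ rfl h2 h3)
    · have h3 : ℵ₀ < (ω ^ e : Ordinal.{u}).card := by
        refine lt_of_le_of_ne h0 fun h => h2 ?_
        rw [← h]
        exact isRegular_aleph0
      have h4 : (ω ^ e : Ordinal.{u}).card.ord.cof < (ω ^ e : Ordinal.{u}).card := by
        refine lt_of_le_of_ne (cof_ord_le _) fun h => h2 ⟨h0, h.ge⟩
      exact pathRel_of_singular h0 h4 (fun ρ hρ => power_lt_of_gch hgch h3 h2 hρ h4) rfl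

/-- The relation for ordinals divisible by `ω`, under GCH. -/
theorem pathRel_iff_of_gch (hgch : ∀ μ : Cardinal.{u}, ℵ₀ ≤ μ → 2 ^ μ = succ μ)
    {α : Ordinal.{u}} (hα : ω ∣ α) : PathRel α ↔ ∀ p ∈ CNF ω α, ∀ κ : Cardinal.{u},
      κ = (ω ^ p.1).card → κ.IsRegular → ℵ₀ < κ → ¬ AlmostCover κ (ω ^ p.1) := by
  rw [pathRel_iff_CNF hα]
  exact forall₂_congr fun p _ => pathRel_opow_iff_of_gch hgch

end IPath
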