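import Pool.Agent.Work.MP_820435_lc.Cls.FirstDef
import Pool.Agent.Work.MP_820435_lc.Cls.IffBad
import Pool.Agent.Work.MP_820435_lc.Cls.Gch
import Pool.Agent.Work.MP_820435_lc.Init

/-!
# The first bad exponents are least, under GCH
-/

open Ordinal Cardinal Set Order

universe u

namespace IPath

/-- Below the exponents of `pathRel_succ_init` no exponent is bad, under GCH. -/
theorem not_isBad_of_isExpOf (hgch : ∀ μ : Cardinal.{u}, ℵ₀ ≤ μ → 2 ^ μ = succ μ)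
    {ν : Cardinal.{u}} (hν : ℵ₀ ≤ ν) {t : Ordinal.{u}} (ht : IsExpOf ν t) {ξ : Ordinal.{u}}
    (hξ : ξ < t + 2) : ¬ IsBad (succ ν) ξ := by
  intro hbad
  have hκ : (succ ν).IsRegular := isRegular_succ hν
  have hκ1 : ℵ₀ < succ ν := hν.trans_lt (lt_succ ν)
  have hκone : 1 < (succ ν).ord := one_lt_ord hκ
  have h1 : (1 : Ordinal.{u}).card < succ ν := by
    rw [card_one]
    exact one_lt_aleph0.trans hκ1
  have hξκ : ξ.card ≤ succ ν := by
    refine (Ordinal.card_le_card hξ.le).trans ?_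
    rw [Ordinal.card_add]
    refine add_le_of_le hκ.aleph0_le ((ht.card_le hν).trans (le_succ ν)) ?_
    rw [Ordinal.card_ofNat]
    exact (hκ.nat_lt 2).le
  have hξ0 : ξ ≠ 0 := by
    rintro rfl
    rcases hbad with ⟨ζ, h2, -⟩ | ⟨h2, -⟩
    · exact succ_ne_bot ζ h2.symm
    · exact h2.ne_bot rfl
  have hcov : AlmostCover (succ ν) ((succ ν).ord ^ ξ) := by
    have h2 := (almostCover_iff_isBad hκ hκ1 hξκ one_ne_zero h1).2 hbad
    rwa [mul_one] at h2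
  -- `κ ^ ξ` is a power of `ω`
  obtain ⟨e, he⟩ : ∃ e : Ordinal.{u}, (succ ν).ord ^ ξ = ω ^ e := by
    rcases isPrincipal_add_iff_zero_or_omega0_opow.1
      (isPrincipal_add_opow_of_isPrincipal_add (isPrincipal_add_ord hκ.aleph0_le) ξ) with h2 | ⟨f, h2⟩
    · exact absurd h2 (opow_pos _ hκ.ord_pos).ne'
    · exact ⟨f, h2.symm⟩
  have hcard : (ω ^ e : Ordinal.{u}).card = succ ν := by
    rw [← he]
    refine le_antisymm ?_ ?_
    · refine (card_opow_le_of_omega0_le_left (omega0_le_ord.2 hκ.aleph0_le) _).trans ?_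
      rw [card_ord]
      exact max_le le_rfl hξκ
    · have h2 := Ordinal.card_le_card (left_le_opow (succ ν).ord (pos_iff_ne_zero.2 hξ0))
      rwa [card_ord] at h2
  rw [he] at hcov
  refine not_pathRel_of_almostCover hκ hκ1 (fun ρ hρ => two_power_le_of_gch hgch hκ.aleph0_le hρ)
    hcard hcov ?_
  -- the relation holds
  obtain ⟨ξ', hξ'⟩ : ∃ ξ', ξ = 1 + ξ' :=
    ⟨ξ - 1, (Ordinal.add_sub_cancel_of_le (one_le_iff_ne_zero.2 hξ0)).symm⟩
  have h2 : (succ ν).ord * (succ ν).ord ^ ξ' = (succ ν).ord ^ ξ := by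
    rw [hξ', opow_add, opow_one]
  rw [← he, ← h2]
  refine pathRel_succ_init hν ht _ ?_
  rw [opow_lt_opow_iff_right hκone]
  refine lt_of_le_of_lt ?_ hξ
  rw [hξ']
  exact le_add_of_nonneg_left zero_le

/-- Under GCH `ℵ_(m+2)` is closed under powers with exponent `ℵ_m`, `m ≥ 1`. -/
theorem isPowClosed_aleph (hgch : ∀ μ : Cardinal.{u}, ℵ₀ ≤ μ → 2 ^ μ = succ μ) (m : ℕ) :
    IsPowClosed (ℵ_ ((m + 3 : ℕ) : Ordinal.{u}) : Cardinal.{u})
      (ℵ_ ((m + 1 : ℕ) : Ordinal.{u})) := by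
  have hs : ∀ n : ℕ, (ℵ_ ((n + 1 : ℕ) : Ordinal.{u}) : Cardinal.{u}) =
      succ (ℵ_ (n : Ordinal.{u})) := by
    intro n
    push_cast
    exact (succ_aleph _).symm
  have hreg : ∀ n : ℕ, (ℵ_ ((n + 1 : ℕ) : Ordinal.{u}) : Cardinal.{u}).IsRegular := by
    intro n
    rw [hs]
    exact isRegular_succ (aleph0_le_aleph _)
  have hlt : ∀ n : ℕ, (ℵ_ (n : Ordinal.{u}) : Cardinal.{u}) < ℵ_ ((n + 1 : ℕ) : Ordinal.{u}) := by
    intro n
    rw [hs]
    exact lt_succ _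
  refine ⟨hreg m, ?_, (hlt (m + 1)).trans (hlt (m + 2)), ?_, ?_⟩
  · exact (aleph0_le_aleph _).trans_lt (hlt m)
  · rw [(hreg (m + 2)).cof_ord]
    exact ((hlt (m + 1)).trans (hlt (m + 2))).ne'
  · intro μ hμ
    have h0 : ℵ₀ ≤ (ℵ_ ((m + 1 : ℕ) : Ordinal.{u}) : Cardinal.{u}) := aleph0_le_aleph _
    have h1 : μ ≤ ℵ_ ((m + 2 : ℕ) : Ordinal.{u}) := by
      have h2 := hs (m + 2)
      rw [h2] at hμ
      exact lt_succ_iff.1 hμ
    have h2 : (ℵ_ ((m + 2 : ℕ) : Ordinal.{u}) : Cardinal.{u}) =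
        2 ^ (ℵ_ ((m + 1 : ℕ) : Ordinal.{u}) : Cardinal.{u}) := by
      rw [hgch _ h0]
      exact hs (m + 1)
    calc μ ^ (ℵ_ ((m + 1 : ℕ) : Ordinal.{u}) : Cardinal.{u})
        ≤ (2 ^ (ℵ_ ((m + 1 : ℕ) : Ordinal.{u}) : Cardinal.{u})) ^
          (ℵ_ ((m + 1 : ℕ) : Ordinal.{u}) : Cardinal.{u}) := by
          refine power_le_power_right ?_
          rw [← h2]
          exact h1
      _ = 2 ^ (ℵ_ ((m + 1 : ℕ) : Ordinal.{u}) : Cardinal.{u}) := by
          rw [← power_mul, mul_eq_self h0]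
      _ = ℵ_ ((m + 2 : ℕ) : Ordinal.{u}) := h2.symm
      _ < ℵ_ ((m + 3 : ℕ) : Ordinal.{u}) := hlt (m + 2)

/-- F4: under GCH the exponents `firstExp n + 2` are the least bad exponents, `n ≤ 4`. -/
theorem not_isBad_of_lt_firstExp (hgch : ∀ μ : Cardinal.{u}, ℵ₀ ≤ μ → 2 ^ μ = succ μ) {n : ℕ}
    (hn : n ≤ 4) {ξ : Ordinal.{u}} (hξ : ξ < firstExp n + 2) :
    ¬ IsBad (succ (ℵ_ n : Cardinal.{u})) ξ := by
  refine not_isBad_of_isExpOf hgch (aleph0_le_aleph _) ?_ hξ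
  interval_cases n
  · left
    simp [firstExp]
  · left
    simp [firstExp]
  · left
    simp [firstExp]
  · right; right; left
    refine ⟨_, isPowClosed_aleph hgch 0, ?_⟩
    simp [firstExp]
  · right; right; left
    refine ⟨_, isPowClosed_aleph hgch 1, ?_⟩
    simp [firstExp]

end IPath
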