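import Pool.Agent.Work.MP_820435_lc.Cls.NormDiv
import Pool.Agent.Work.MP_820435_lc.Cls.FirstLeast
import Pool.Agent.Work.MP_820435_lc.Cls.First
import Pool.Agent.Work.MP_820435_lc.Cls.IffBad
import Pool.Agent.Work.MP_820435_lc.Cls.Omega

/-!
# The least bad exponent for all `ℵ_(n + 1)`, under GCH
-/

open Ordinal Cardinal Set Order

universe u

namespace IPath

/-- The norm of a constant function on a smaller set of indices. -/
theorem normGE_const_of_mk_le {I J : Type u} {η g : Ordinal.{u}} (h : #I ≤ #J)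
    (hJ : NormGE η (fun _ : J => g)) : NormGE η (fun _ : I => g) := by
  obtain ⟨e⟩ := h
  exact hJ.comp e e.injective

/-- If `F` is at most `g` on a set of size `ν`, the norm of the constant function is large. -/
theorem normGE_const_of_large {ν : Cardinal.{u}} {η g : Ordinal.{u}}
    {F : ν.ord.ToType → Ordinal.{u}} (h : NormGE η F) {S : Set ν.ord.ToType} (hS : #S = ν)
    (hg : ∀ j ∈ S, F j ≤ g) : NormGE η (fun _ : ν.ord.ToType => g) := by
  have h1 : #(ν.ord.ToType) ≤ #S := by rw [hS, mk_toType, card_ord]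
  refine normGE_const_of_mk_le h1 ((h.comp (Subtype.val : S → ν.ord.ToType)
    Subtype.val_injective).mono ?_)
  have h2 : {j : S | ¬ (F ∘ (Subtype.val : S → ν.ord.ToType)) j ≤ g} = ∅ := by
    rw [eq_empty_iff_forall_notMem]
    intro j hj
    exact hj (hg j.1 j.2)
  rw [h2]
  exact countable_empty

theorem not_countable_univ_ord {ν : Cardinal.{u}} (hν1 : ℵ₀ < ν) :
    ¬ (Set.univ : Set ν.ord.ToType).Countable := by
  intro h
  rw [← le_aleph0_iff_set_countable, mk_univ, mk_toType, card_ord] at h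
  exact absurd hν1 (not_lt.2 h)

/-- A smaller function everywhere. -/
theorem exists_lt_of_normGE {ν : Cardinal.{u}} (hν1 : ℵ₀ < ν) {g : Ordinal.{u}}
    (h : NormGE (g + 1) (fun _ : ν.ord.ToType => g)) :
    g ≠ 0 ∧ ∃ F : ν.ord.ToType → Ordinal.{u}, (∀ j, F j < g) ∧ NormGE g F := by
  classical
  obtain ⟨F, hF, hN⟩ := normGE_iff.1 h g (lt_add_one g)
  have hg : g ≠ 0 := by
    rintro rfl
    apply not_countable_univ_ord hν1
    have h1 : {j | ¬ F j < 0} = Set.univ := by
      rw [eq_univ_iff_forall]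
      intro j
      exact not_lt_zero
    rwa [h1] at hF
  refine ⟨hg, fun j => if F j < g then F j else 0, fun j => ?_, hN.mono ?_⟩
  · beta_reduce
    split_ifs with h1
    · exact h1
    · exact pos_iff_ne_zero.2 hg
  · refine hF.mono ?_
    intro j hj hlt
    apply hj
    rw [if_pos hlt]

theorem closed_of_lt_ord {ν : Cardinal.{u}} (hν : ν.IsRegular) (hν1 : ℵ₀ < ν) {z : Ordinal.{u}}
    (hz : z < ν.ord) : ¬ NormGE (z + 1) (fun _ : ν.ord.ToType => z) := by
  induction z using WellFoundedLT.induction with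
  | _ z ih =>
    intro h
    obtain ⟨hz0, F, hF, hN⟩ := exists_lt_of_normGE hν1 h
    have h1 : #(z.ToType) < ν.ord.cof := by
      rw [hν.cof_ord, mk_toType]
      exact lt_ord.1 hz
    obtain ⟨w, hw⟩ := infinite_pigeonhole_card
      (fun j : ν.ord.ToType => (ToType.mk ⟨F j, hF j⟩ : z.ToType)) ν (by rw [mk_toType, card_ord])
      hν.aleph0_le h1
    have hwz : ((w : z.ToType) : Ordinal.{u}) < z := mem_Iio.1 w.toOrd.2
    refine ih _ hwz (hwz.trans hz) ?_
    refine (normGE_const_of_large hN (S := (fun j : ν.ord.ToType =>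
      (ToType.mk ⟨F j, hF j⟩ : z.ToType)) ⁻¹' {w}) (le_antisymm ?_ hw) ?_).mono_left
      (add_one_le_of_lt hwz)
    · refine (mk_set_le _).trans ?_
      rw [mk_toType, card_ord]
    · intro j hj
      have h2 : (ToType.mk ⟨F j, hF j⟩ : z.ToType) = w := hj
      rw [← h2]
      simp

theorem closed_step {θ ν : Cardinal.{u}} (hθ : ℵ₀ < θ) (hν : ν.IsRegular)
    (hpow : ∀ μ < ν, μ ^ θ < ν) {x : Ordinal.{u}} (hx : x.card < ν)
    (h : ∀ z < x, ¬ NormGE (z + 1) (fun _ : θ.ord.ToType => z)) {g : Ordinal.{u}}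
    (hg : g < ν.ord * (x + 1)) : ¬ NormGE (g + 1) (fun _ : ν.ord.ToType => g) := by
  have hν0 : 0 < ν.ord := hν.ord_pos
  have hθν : θ < ν := by
    refine (cantor θ).trans ?_
    exact hpow 2 ((natCast_lt_aleph0 (n := 2)).trans_le hν.aleph0_le)
  have hν1 : ℵ₀ < ν := hθ.trans hθν
  induction g using WellFoundedLT.induction with
  | _ g ih =>
    intro hN0
    obtain ⟨hg0, F, hF, hN⟩ := exists_lt_of_normGE hν1 hN0
    -- a bound on a large set gives a contradiction
    have key : ∀ g' < g, ∀ S : Set ν.ord.ToType, #S = ν → (∀ j ∈ S, F j ≤ g') → False := by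
      intro g' hg' S hS hb
      exact ih g' hg' (hg'.trans hg) ((normGE_const_of_large hN hS hb).mono_left
        (add_one_le_of_lt hg'))
    have huniv : #(Set.univ : Set ν.ord.ToType) = ν := by
      rw [mk_univ, mk_toType, card_ord]
    rcases zero_or_succ_or_isSuccLimit g with rfl | ⟨g', rfl⟩ | hlim
    · exact hg0 rfl
    · exact key g' (lt_succ g') Set.univ huniv fun j _ => lt_succ_iff.1 (hF j)
    rcases lt_trichotomy g.cof ν with hcof | hcof | hcof
    · obtain ⟨g0, hg0', hS⟩ := exists_bound_of_cof_lt hν hcof F hF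
      exact key g0 hg0' _ hS fun j hj => hj
    · -- cofinality `ν`
      have hq : g / ν.ord ≤ x := by
        rw [← lt_add_one_iff]
        exact (lt_mul_iff_div_lt hν0.ne').1 hg
      have hr : g % ν.ord = 0 := by
        by_contra hr0
        have h1 : g = ν.ord * (g / ν.ord) + g % ν.ord := (div_add_mod g ν.ord).symm
        have h2 : g.cof = (g % ν.ord).cof := by
          conv_lhs => rw [h1]
          exact cof_add _ hr0
        have h3 : (g % ν.ord).cof < ν :=
          (cof_le_card _).trans_lt (lt_ord.1 (mod_lt _ hν0.ne'))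
        rw [← h2, hcof] at h3
        exact lt_irrefl _ h3
      have hgq : g = ν.ord * (g / ν.ord) := by
        conv_lhs => rw [← div_add_mod g ν.ord, hr, add_zero]
      obtain ⟨z, hz⟩ : ∃ z, g / ν.ord = z + 1 := by
        rcases zero_or_succ_or_isSuccLimit (g / ν.ord) with h1 | ⟨z, h1⟩ | h1
        · rw [h1, mul_zero] at hgq
          exact absurd hgq hg0
        · exact ⟨z, h1.symm⟩
        · exfalso
          have h2 : g.cof = (g / ν.ord).cof := by
            conv_lhs => rw [hgq]
            exact cof_map_of_isNormal (isNormal_mul_right hν0) h1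
          have h3 : (g / ν.ord).cof < ν :=
            (cof_le_card _).trans_lt ((Ordinal.card_le_card hq).trans_lt hx)
          rw [← h2, hcof] at h3
          exact lt_irrefl _ h3
      rw [hz] at hgq hq
      have hzx : z < x := (lt_add_one z).trans_le hq
      refine h z hzx ?_
      -- restrict to a set of size `θ`
      obtain ⟨e⟩ : Nonempty (θ.ord.ToType ↪ ν.ord.ToType) := by
        rw [← le_def, mk_toType, card_ord, mk_toType, card_ord]
        exact hθν.le
      have hy : ∀ j, F j - ν.ord * z < ν.ord := by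
        intro j
        have h1 := hF j
        rw [hgq, mul_add_one] at h1
        exact sub_lt_of_lt_add h1 hν0
      have hsup : (⨆ j : θ.ord.ToType, (F (e j) - ν.ord * z) + 1) < ν.ord := by
        refine iSup_add_one_lt_of_lt_cof ?_ fun j => hy (e j)
        rw [mk_toType, card_ord, hν.cof_ord]
        exact hθν
      refine NormGE.div (J := θ.ord.ToType) hν (by rwa [mk_toType, card_ord])
        (Y := fun j => F (e j) - ν.ord * z) hsup (fun j => ?_) ?_
      · exact (le_add_of_nonneg_right zero_le_one).trans (Ordinal.le_iSup _ j)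
      · rw [← hgq]
        refine (hN.comp e e.injective).mono ?_
        have h2 : {j : θ.ord.ToType | ¬ (F ∘ e) j ≤ ν.ord * z + (F (e j) - ν.ord * z)} = ∅ := by
          rw [eq_empty_iff_forall_notMem]
          intro j hj
          exact hj (le_add_sub _ _)
        rw [h2]
        exact countable_empty
    · -- cofinality greater than `ν`
      have h1 : (⨆ j : ν.ord.ToType, F j + 1) < g :=
        iSup_add_one_lt_of_lt_cof (by rwa [mk_toType, card_ord]) hF
      exact key _ h1 Set.univ huniv fun j _ =>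
        (le_add_of_nonneg_right zero_le_one).trans (Ordinal.le_iSup _ j)

theorem aleph_add_one (n : ℕ) : (ℵ_ ((n + 1 : ℕ) : Ordinal.{u}) : Cardinal.{u}) =
    succ (ℵ_ (n : Ordinal.{u})) := by
  push_cast
  exact (succ_aleph _).symm

theorem aleph_lt_aleph_succ (n : ℕ) : (ℵ_ (n : Ordinal.{u}) : Cardinal.{u}) <
    ℵ_ ((n + 1 : ℕ) : Ordinal.{u}) := by
  rw [aleph_add_one]
  exact lt_succ _

theorem aleph_isRegular (n : ℕ) : (ℵ_ ((n + 1 : ℕ) : Ordinal.{u}) : Cardinal.{u}).IsRegular := by
  rw [aleph_add_one]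
  exact isRegular_succ (aleph0_le_aleph _)

theorem firstExp_add_three (n : ℕ) : (firstExp (n + 3) : Ordinal.{u}) =
    (ℵ_ ((n + 3 : ℕ) : Ordinal.{u}) : Cardinal.{u}).ord * (firstExp (n + 1) + 1) := by
  rw [ord_aleph]
  rfl

theorem firstExp_one : (firstExp 1 : Ordinal.{u}) =
    (ℵ_ ((1 : ℕ) : Ordinal.{u}) : Cardinal.{u}).ord := by
  simp [firstExp]

theorem firstExp_two : (firstExp 2 : Ordinal.{u}) =
    (ℵ_ ((2 : ℕ) : Ordinal.{u}) : Cardinal.{u}).ord := by
  simp [firstExp]

theorem closed_firstExp (hgch : ∀ μ : Cardinal.{u}, ℵ₀ ≤ μ → 2 ^ μ = succ μ) {n : ℕ}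
    (hn : 1 ≤ n) {g : Ordinal.{u}} (hg : g < firstExp n) :
    ¬ NormGE (g + 1) (fun _ : (ℵ_ n : Cardinal.{u}).ord.ToType => g) := by
  induction n using Nat.strong_induction_on generalizing g with
  | _ n ih =>
    have h0 : ∀ m : ℕ, ℵ₀ < (ℵ_ ((m + 1 : ℕ) : Ordinal.{u}) : Cardinal.{u}) := fun m =>
      (aleph0_le_aleph _).trans_lt (aleph_lt_aleph_succ m)
    rcases n with _ | _ | _ | n
    · omega
    · rw [show (0 + 1 : ℕ) = 1 from rfl, firstExp_one] at hg
      exact closed_of_lt_ord (aleph_isRegular 0) (h0 0) hg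
    · rw [show (0 + 1 + 1 : ℕ) = 2 from rfl, firstExp_two] at hg
      exact closed_of_lt_ord (aleph_isRegular 1) (h0 1) hg
    · rw [show n + 1 + 1 + 1 = n + 3 from rfl, firstExp_add_three] at hg
      refine closed_step (θ := ℵ_ ((n + 1 : ℕ) : Ordinal.{u})) (h0 n) (aleph_isRegular (n + 2))
        (isPowClosed_aleph hgch n).2.2.2.2 ?_ ?_ hg
      · exact (card_firstExp_le (n + 1)).trans_lt
          ((aleph_lt_aleph_succ (n + 1)).trans (aleph_lt_aleph_succ (n + 2)))
      · intro z hz
        exact ih (n + 1) (by omega) (by omega) hz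

theorem not_isBad_of_lt (hgch : ∀ μ : Cardinal.{u}, ℵ₀ ≤ μ → 2 ^ μ = succ μ) {n : ℕ}
    {ξ : Ordinal.{u}} (hξ : ξ < firstExp n + 2) : ¬ IsBad (succ (ℵ_ n : Cardinal.{u})) ξ := by
  have hν : ℵ₀ ≤ (ℵ_ n : Cardinal.{u}) := aleph0_le_aleph _
  have hξκ : ξ.card ≤ succ (ℵ_ n : Cardinal.{u}) := by
    refine (Ordinal.card_le_card hξ.le).trans ?_
    rw [Ordinal.card_add]
    refine add_le_of_le (hν.trans (le_succ _)) ((card_firstExp_le n).trans (le_succ _)) ?_
    rw [Ordinal.card_ofNat]
    exact ((natCast_lt_aleph0 (n := 2)).trans_le (hν.trans (le_succ _))).le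
  rw [isBad_succ_iff hν hξκ]
  rintro ⟨g, hg, hR⟩
  rcases n with _ | n
  · have h1 : (∃ g, g + 2 ≤ ξ ∧ ∀ η < ξ,
        RankGE η (fun _ : (ℵ₀ : Cardinal.{u}).ord.ToType => g)) := by
      refine ⟨g, hg, fun η hη => rankGE_const_of_mk_le ?_ (hR η hη)⟩
      simp
    rw [rank_omega_iff] at h1
    exact absurd hξ (not_lt.2 h1)
  · have h1 : g < firstExp (n + 1) := by
      have h2 := hg.trans_lt hξ
      exact lt_of_add_lt_add_right h2
    refine closed_firstExp hgch (by omega) h1 (RankGE.normGE (hR (g + 1) ?_))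
    refine lt_of_lt_of_le ?_ hg
    rw [show g + 2 = g + 1 + 1 by rw [add_assoc, one_add_one_eq_two]]
    exact lt_add_one _

end IPath
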