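import Pool.Agent.Work.MP_820435_lc.Cls.Defs

/-!
# The bad exponents, for all regular uncountable cardinals
-/

open Ordinal Cardinal Set Order

universe u

namespace IPath

/-- The exponent `ξ` is bad for `κ`. For `ξ = ζ + 1`: for every `ρ < κ` there is `g < ζ` such that
the constant function `g` on `ρ` has rank at least `ζ`. For `ξ` a limit: there is `F : κ → ξ` whose
restriction to `i` has rank at least `η` for all `i < κ` and `η < ξ`. -/
def IsBad (κ : Cardinal.{u}) (ξ : Ordinal.{u}) : Prop :=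
  (∃ ζ, ξ = ζ + 1 ∧ ∀ ρ < κ, ∃ g < ζ, RankGE ζ (fun _ : ρ.ord.ToType => g)) ∨
  (IsSuccLimit ξ ∧ ∃ F : κ.ord.ToType → Ordinal.{u}, (∀ j, F j < ξ) ∧
    ∀ i, ∀ η < ξ, RankGE η (fun j : Iio i => F j.1))

end IPath
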