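import Pool.Agent.Work.MP_820435_lc.SetMap

/-!
# Almost covers and the rank of functions into the ordinals
-/

open Ordinal Cardinal Set Order

universe u

namespace IPath

/-- `α` is almost covered by `κ` sets of smaller order type: there are subsets `A j` (`j < κ`) of
`α`, each of order type less than `α`, such that every point is in all but finitely many `A j`. -/
def AlmostCover (κ : Cardinal.{u}) (α : Ordinal.{u}) : Prop :=
  ∃ A : κ.ord.ToType → Set α.ToType, (∀ j, otp (A j) < α) ∧ ∀ x, {j | x ∉ A j}.Finite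

/-- The rank of `F : J → Ord` is at least `η`: `F` has finitely many zeros and for every `η' < η`
there is `F'` of rank at least `η'` with `F' j < F j`, or `F' j = F j = 0`, for all `j`. -/
def RankGE {J : Type u} (η : Ordinal.{u}) (F : J → Ordinal.{u}) : Prop :=
  ∃ W : Set (Ordinal.{u} × (J → Ordinal.{u})), (η, F) ∈ W ∧ ∀ p ∈ W, {j | p.2 j = 0}.Finite ∧
    ∀ η' < p.1, ∃ F' : J → Ordinal.{u}, (η', F') ∈ W ∧ ∀ j, F' j < p.2 j ∨ (F' j = 0 ∧ p.2 j = 0)

variable {J : Type u} {η η' : Ordinal.{u}} {F F' : J → Ordinal.{u}}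

theorem RankGE.finite (h : RankGE η F) : {j | F j = 0}.Finite := by
  obtain ⟨W, h1, h2⟩ := h
  exact (h2 _ h1).1

theorem RankGE.step (h : RankGE η F) (hη : η' < η) : ∃ F' : J → Ordinal.{u},
    (∀ j, F' j < F j ∨ (F' j = 0 ∧ F j = 0)) ∧ RankGE η' F' := by
  obtain ⟨W, h1, h2⟩ := h
  obtain ⟨F', h3, h4⟩ := (h2 _ h1).2 η' hη
  exact ⟨F', h4, W, h3, h2⟩

theorem rankGE_iff : RankGE η F ↔ {j | F j = 0}.Finite ∧ ∀ η' < η, ∃ F' : J → Ordinal.{u},
    (∀ j, F' j < F j ∨ (F' j = 0 ∧ F j = 0)) ∧ RankGE η' F' := by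
  refine ⟨fun h => ⟨h.finite, fun η' hη => h.step hη⟩, ?_⟩
  rintro ⟨h1, h2⟩
  choose! F' hF' hR using h2
  refine ⟨{p | p = (η, F) ∨ RankGE p.1 p.2}, Or.inl rfl, ?_⟩
  rintro p (rfl | hp)
  · exact ⟨h1, fun η' hη => ⟨F' η', Or.inr (hR η' hη), hF' η' hη⟩⟩
  · exact ⟨hp.finite, fun η' hη => by
      obtain ⟨F'', h3, h4⟩ := hp.step hη
      exact ⟨F'', Or.inr h4, h3⟩⟩

/-- The rank is monotone. -/
theorem RankGE.mono (h : RankGE η F) (hF : ∀ j, F j ≤ F' j) : RankGE η F' := by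
  rw [rankGE_iff] at h ⊢
  obtain ⟨h1, h2⟩ := h
  refine ⟨h1.subset fun j hj => ?_, fun η' hη => ?_⟩
  · have h3 : F' j = 0 := hj
    have h4 := hF j
    rw [h3] at h4
    exact nonpos_iff_eq_zero.1 h4
  · obtain ⟨F'', h3, h4⟩ := h2 η' hη
    refine ⟨F'', fun j => ?_, h4⟩
    rcases h3 j with h5 | ⟨h5, h6⟩
    · exact Or.inl (h5.trans_le (hF j))
    · rcases eq_or_ne (F' j) 0 with h7 | h7
      · exact Or.inr ⟨h5, h7⟩
      · exact Or.inl (by rw [h5]; exact pos_iff_ne_zero.2 h7)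

theorem RankGE.mono_left (h : RankGE η F) (hη : η' ≤ η) : RankGE η' F := by
  rw [rankGE_iff] at h ⊢
  exact ⟨h.1, fun ζ hζ => h.2 ζ (hζ.trans_le hη)⟩

/-- Restriction to a subset of the index set (composition with an injection). -/
theorem RankGE.comp {I : Type u} (h : RankGE η F) (e : I → J) (he : Function.Injective e) :
    RankGE η (F ∘ e) := by
  induction η using WellFoundedLT.induction generalizing F with
  | _ η ih =>
    rw [rankGE_iff] at h ⊢
    refine ⟨h.1.preimage he.injOn, fun η' hη => ?_⟩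
    obtain ⟨F', h1, h2⟩ := h.2 η' hη
    exact ⟨F' ∘ e, fun i => h1 (e i), ih η' hη h2⟩

end IPath
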