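import Pool.Agent.Work.MP_820435_lc.Tree

/-!
# The killing forest
-/

open Set Order

universe u

namespace IPath

section comparability

variable {V : Type u}

/-- The comparability graph of a relation. -/
def cmpGraph (A : V → V → Prop) (hA : ∀ x, ¬ A x x) : SimpleGraph V where
  Adj x y := A x y ∨ A y x
  symm := ⟨fun _ _ h => h.symm⟩
  loopless := ⟨fun x h => h.elim (hA x) (hA x)⟩

/-- A comparability graph of a forest with bounded branches in each class has no ray. -/
theorem not_hasRay_cmpGraph (A : V → V → Prop) (lab cl : V → ℕ) (bd : ℕ → ℕ)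
    (hlab : ∀ x y, A x y → lab x < lab y) (hcl : ∀ x y, A x y → cl x = cl y)
    (hbd : ∀ x, lab x ≤ bd (cl x)) (htr : ∀ x y z, A x y → A y z → A x z)
    (hch : ∀ x y z, A x z → A y z → x = y ∨ A x y ∨ A y x) (hA : ∀ x, ¬ A x x) :
    ¬ HasRay (cmpGraph A hA) := by
  rintro ⟨x, hx, hadj⟩
  have hcl' : ∀ n, cl (x n) = cl (x 0) := by
    intro n
    induction n with
    | zero => rfl
    | succ n ih =>
      rcases hadj n with h | h
      · rw [← hcl _ _ h, ih]
      · rw [hcl _ _ h, ih]
  have key : ∀ m, ∃ K, ∀ k ≥ K, m ≤ lab (x k) := by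
    intro m
    induction m with
    | zero => exact ⟨0, fun k _ => Nat.zero_le _⟩
    | succ m ih =>
      obtain ⟨K, hK⟩ := ih
      by_cases hm : ∃ k ≥ K, lab (x k) = m
      · obtain ⟨k, hk, hkm⟩ := hm
        have h1 : ∀ j, A (x k) (x (k + 1 + j)) := by
          intro j
          induction j with
          | zero =>
            rcases hadj k with h | h
            · exact h
            · have h2 := hlab _ _ h
              have h3 := hK (k + 1) (by omega)
              omega
          | succ j ih =>
            rcases hadj (k + 1 + j) with h | h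
            · exact htr _ _ _ ih h
            · rcases hch _ _ _ ih h with h2 | h2 | h2
              · have := hx h2
                omega
              · exact h2
              · have h3 := hlab _ _ h2
                have h4 := hK (k + 1 + j + 1) (by omega)
                omega
        refine ⟨k + 1, fun i hi => ?_⟩
        obtain ⟨j, rfl⟩ := Nat.exists_eq_add_of_le hi
        have := hlab _ _ (h1 j)
        omega
      · push Not at hm
        refine ⟨K, fun k hk => ?_⟩
        have h1 := hK k hk
        have h2 := hm k hk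
        omega
  obtain ⟨K, hK⟩ := key (bd (cl (x 0)) + 1)
  have h1 := hK K le_rfl
  have h2 := hbd (x K)
  rw [hcl' K] at h2
  omega

end comparability

section step

variable {V J : Type u} (T : J → Set V) (cl : V → ℕ) (D : V → List V × ℕ) (n : ℕ)

/-- The elements of the task `j` above the state `s`. -/
def Cand (s : Option V) (j : J) (x : V) : Prop := x ∈ T j ∧ cl x = n ∧ ∀ w ∈ s, w ∈ (D x).1

/-- The least label of an element of the task `j` above the state `s`. -/
noncomputable def fval (s : Option V) (j : J) : ℕ := sInf {l | ∃ x, Cand T cl D n s j x ∧ (D x).2 = l}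

open Classical in
/-- The possible next state. -/
noncomputable def nx (s : Option V) (j : J) : Option V :=
  if h : ∃ x, Cand T cl D n s j x ∧ (D x).2 = fval T cl D n s j then some h.choose else s

/-- The next state. -/
noncomputable def mv (L : ℕ) (s : Option V) (j : J) : Option V :=
  if fval T cl D n s j < L then nx T cl D n s j else s

/-- The state after the tasks of a list. -/
noncomputable def runs (L : ℕ) : List J → Option V → Option V
  | [], s => s
  | j :: ts, s => runs L ts (mv T cl D n L s j)

open Classical in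
/-- The forbidden labels. -/
noncomputable def badL : List J → Option V → Finset ℕ
  | [], _ => ∅
  | j :: ts, s => insert (fval T cl D n s j) (badL ts (nx T cl D n s j) ∪ badL ts s)

theorem card_badL (ts : List J) : ∀ s, (badL T cl D n ts s).card + 1 ≤ 2 ^ ts.length := by
  induction ts with
  | nil => intro s; simp [badL]
  | cons j ts ih =>
    intro s
    have h1 := ih (nx T cl D n s j)
    have h2 := ih s
    have h3 := Finset.card_insert_le (fval T cl D n s j)
      (badL T cl D n ts (nx T cl D n s j) ∪ badL T cl D n ts s)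
    have h4 := Finset.card_union_le (badL T cl D n ts (nx T cl D n s j)) (badL T cl D n ts s)
    rw [badL, List.length_cons, pow_succ]
    omega

theorem exists_label (ts : List J) : ∃ L, L < 2 ^ ts.length ∧ L ∉ badL T cl D n ts none := by
  by_contra hcon
  push Not at hcon
  have h1 : Finset.range (2 ^ ts.length) ⊆ badL T cl D n ts none := fun L hL =>
    hcon L (Finset.mem_range.1 hL)
  have h2 := Finset.card_le_card h1
  have h3 := card_badL T cl D n ts none
  rw [Finset.card_range] at h2
  omega

/-- The label chosen. -/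
noncomputable def lb (ts : List J) : ℕ := (exists_label T cl D n ts).choose

theorem lb_spec (ts : List J) : lb T cl D n ts < 2 ^ ts.length ∧
    lb T cl D n ts ∉ badL T cl D n ts none := (exists_label T cl D n ts).choose_spec

theorem ne_fval {L : ℕ} (ts : List J) : ∀ s, L ∉ badL T cl D n ts s → ∀ pre j post,
    ts = pre ++ j :: post → L ≠ fval T cl D n (runs T cl D n L pre s) j := by
  induction ts with
  | nil =>
    intro s _ pre j post h
    simp at h
  | cons i ts ih =>
    intro s hL pre j post h
    rw [badL, Finset.mem_insert, Finset.mem_union, not_or, not_or] at hL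
    obtain ⟨h1, h2, h3⟩ := hL
    cases pre with
    | nil =>
      rw [List.nil_append, List.cons.injEq] at h
      rw [← h.1]
      exact h1
    | cons i' pre =>
      rw [List.cons_append, List.cons.injEq] at h
      obtain ⟨rfl, h⟩ := h
      rw [runs]
      by_cases hc : fval T cl D n s i < L
      · have : mv T cl D n L s i = nx T cl D n s i := if_pos hc
        rw [this]
        exact ih _ h2 pre j post h
      · have : mv T cl D n L s i = s := if_neg hc
        rw [this]
        exact ih _ h3 pre j post h

theorem runs_append (L : ℕ) (ts ts' : List J) : ∀ s, runs T cl D n L (ts ++ ts') s =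
    runs T cl D n L ts' (runs T cl D n L ts s) := by
  induction ts with
  | nil => intro s; rfl
  | cons j ts ih => intro s; exact ih _

/-- The cases of a step. -/
theorem mv_cases (L : ℕ) (s : Option V) (j : J) : mv T cl D n L s j = s ∨
    ∃ x, mv T cl D n L s j = some x ∧ Cand T cl D n s j x ∧ (D x).2 < L := by
  unfold mv
  split_ifs with h1
  · unfold nx
    split_ifs with h2
    · exact Or.inr ⟨_, rfl, h2.choose_spec.1, h2.choose_spec.2.trans_lt h1⟩
    · exact Or.inl rfl
  · exact Or.inl rfl

/-- If a candidate has a label less than `L` then the step moves. -/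
theorem mv_of_lt {L : ℕ} {s : Option V} {j : J} {x : V} (hx : Cand T cl D n s j x)
    (hL : (D x).2 ≤ L) (hne : L ≠ fval T cl D n s j) :
    ∃ x, mv T cl D n L s j = some x ∧ Cand T cl D n s j x ∧ (D x).2 < L := by
  have h1 : ∃ x, Cand T cl D n s j x ∧ (D x).2 = fval T cl D n s j :=
    Nat.sInf_mem (s := {l | ∃ x, Cand T cl D n s j x ∧ (D x).2 = l}) ⟨_, x, hx, rfl⟩
  have h2 : fval T cl D n s j ≤ (D x).2 := Nat.sInf_le ⟨x, hx, rfl⟩
  have h3 : fval T cl D n s j < L := by omega
  have h4 : mv T cl D n L s j = nx T cl D n s j := if_pos h3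
  have h5 : nx T cl D n s j = some h1.choose := dif_pos h1
  exact ⟨_, h4.trans h5, h1.choose_spec.1, h1.choose_spec.2.trans_lt h3⟩

/-- `s` is below `s'`. -/
def Blw (s s' : Option V) : Prop := ∀ w ∈ s, ∃ w' ∈ s', w = w' ∨ w ∈ (D w').1

theorem runs_cases {L : ℕ} (htr : ∀ x y z, x ∈ (D y).1 → y ∈ (D z).1 → x ∈ (D z).1)
    (ts : List J) : ∀ s, Blw D s (runs T cl D n L ts s) ∧ (runs T cl D n L ts s = s ∨
      ∃ x, runs T cl D n L ts s = some x ∧ (∃ j ∈ ts, x ∈ T j) ∧ cl x = n ∧ (D x).2 < L) := by
  induction ts with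
  | nil =>
    intro s
    exact ⟨fun w hw => ⟨w, hw, Or.inl rfl⟩, Or.inl rfl⟩
  | cons j ts ih =>
    intro s
    obtain ⟨h1, h2⟩ := ih (mv T cl D n L s j)
    rw [runs]
    rcases mv_cases T cl D n L s j with h | ⟨x, hx, hc, hl⟩
    · rw [h] at h1 h2 ⊢
      refine ⟨h1, ?_⟩
      rcases h2 with h2 | ⟨x, h3, ⟨i, hi, hxi⟩, h4⟩
      · exact Or.inl h2
      · exact Or.inr ⟨x, h3, ⟨i, List.mem_cons_of_mem _ hi, hxi⟩, h4⟩
    · rw [hx] at h1 h2 ⊢
      constructor
      · intro w hw
        obtain ⟨w', hw', h3⟩ := h1 x rfl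
        refine ⟨w', hw', Or.inr ?_⟩
        have h4 : w ∈ (D x).1 := hc.2.2 w hw
        rcases h3 with rfl | h3
        · exact h4
        · exact htr _ _ _ h4 h3
      · rcases h2 with h2 | ⟨y, h3, ⟨i, hi, hyi⟩, h4⟩
        · exact Or.inr ⟨x, h2, ⟨j, List.mem_cons_self, hc.1⟩, hc.2.1, hl⟩
        · exact Or.inr ⟨y, h3, ⟨i, List.mem_cons_of_mem _ hi, hyi⟩, h4⟩

end step

section forest

variable {V J : Type u} [LinearOrder V] [WellFoundedLT V] (T : J → Set V) (cl : V → ℕ)
  (tk : V → List J)

open Classical in
/-- Restriction of the data to the points below `v`. -/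
noncomputable def rst (D : V → List V × ℕ) (v : V) (x : V) : List V × ℕ :=
  if x < v then D x else ([], 0)

/-- The data of a point. -/
noncomputable def mk (D : V → List V × ℕ) (v : V) : List V × ℕ :=
  (match runs T cl D (cl v) (lb T cl D (cl v) (tk v)) (tk v) none with
    | none => []
    | some w => w :: (D w).1, lb T cl D (cl v) (tk v))

/-- The branch (without the point) and the label of a point. -/
noncomputable def dat : V → List V × ℕ :=
  (wellFounded_lt (α := V)).fix fun v ih => mk T cl tk
    (fun x => by classical exact if h : x < v then ih x h else ([], 0)) v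

theorem dat_eq (v : V) : dat T cl tk v = mk T cl tk (rst (dat T cl tk) v) v := by
  rw [dat, WellFounded.fix_eq]
  congr 1

/-- The properties of the branch of `z`. -/
structure Brn (z : V) : Prop where
  lt : ∀ y ∈ (dat T cl tk z).1, y < z
  lab : ∀ y ∈ (dat T cl tk z).1, (dat T cl tk y).2 < (dat T cl tk z).2
  cls : ∀ y ∈ (dat T cl tk z).1, cl y = cl z
  trans : ∀ y ∈ (dat T cl tk z).1, ∀ x ∈ (dat T cl tk y).1, x ∈ (dat T cl tk z).1
  chain : ∀ x ∈ (dat T cl tk z).1, ∀ y ∈ (dat T cl tk z).1,
    x = y ∨ x ∈ (dat T cl tk y).1 ∨ y ∈ (dat T cl tk x).1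

theorem rst_of_lt {D : V → List V × ℕ} {v x : V} (h : x < v) : rst D v x = D x := by
  classical exact if_pos h

theorem lt_of_mem_rst {D : V → List V × ℕ} {v x y : V} (h : y ∈ (rst D v x).1) : x < v := by
  by_contra hcon
  have h1 : rst D v x = ([], 0) := by classical exact if_neg hcon
  rw [h1] at h
  simp at h

theorem rst_trans {v : V} (h : ∀ z < v, Brn T cl tk z) (x y z : V)
    (hx : x ∈ (rst (dat T cl tk) v y).1) (hy : y ∈ (rst (dat T cl tk) v z).1) :
    x ∈ (rst (dat T cl tk) v z).1 := by
  have h1 := lt_of_mem_rst hx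
  have h2 := lt_of_mem_rst hy
  rw [rst_of_lt h1] at hx
  rw [rst_of_lt h2] at hy ⊢
  exact (h z h2).trans y hy x hx

variable {T cl tk} {γ : J → V}

/-- The state of `v` after the tasks in `pre`. -/
theorem state_spec (hT : ∀ j, ∀ x ∈ T j, x < γ j) (hγ : ∀ v, ∀ j ∈ tk v, γ j ≤ v) {v : V}
    (h : ∀ z < v, Brn T cl tk z) (L : ℕ) (pre : List J) (hpre : ∀ j ∈ pre, j ∈ tk v) :
    ∀ w ∈ runs T cl (rst (dat T cl tk) v) (cl v) L pre none, w < v ∧ (∃ j ∈ pre, w ∈ T j) ∧
      cl w = cl v ∧ (dat T cl tk w).2 < L := by
  intro w hw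
  rcases (runs_cases T cl (rst (dat T cl tk) v) (cl v) (L := L) (rst_trans T cl tk h) pre
    none).2 with h1 | ⟨x, h1, ⟨j, hj, hx⟩, h2, h3⟩
  · rw [h1] at hw
    simp at hw
  · rw [h1] at hw
    obtain rfl : x = w := by simpa using hw
    have h4 : x < v := (hT j x hx).trans_le (hγ v j (hpre j hj))
    rw [rst_of_lt h4] at h3
    exact ⟨h4, ⟨j, hj, hx⟩, h2, h3⟩

theorem dat_cases (hT : ∀ j, ∀ x ∈ T j, x < γ j) (hγ : ∀ v, ∀ j ∈ tk v, γ j ≤ v) {v : V}
    (h : ∀ z < v, Brn T cl tk z) :
    (runs T cl (rst (dat T cl tk) v) (cl v) (dat T cl tk v).2 (tk v) none = none ∧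
      (dat T cl tk v).1 = []) ∨
    ∃ w, runs T cl (rst (dat T cl tk) v) (cl v) (dat T cl tk v).2 (tk v) none = some w ∧
      (dat T cl tk v).1 = w :: (dat T cl tk w).1 ∧ w < v ∧ cl w = cl v ∧
      (dat T cl tk w).2 < (dat T cl tk v).2 := by
  have h1 := dat_eq T cl tk v
  have hL : (dat T cl tk v).2 = lb T cl (rst (dat T cl tk) v) (cl v) (tk v) := by
    rw [h1, mk]
  have h2 := state_spec hT hγ h (dat T cl tk v).2 (tk v) (fun j hj => hj)
  rcases hr : runs T cl (rst (dat T cl tk) v) (cl v) (dat T cl tk v).2 (tk v) none with _ | w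
  · left
    refine ⟨rfl, ?_⟩
    rw [h1, mk]
    rw [hL] at hr
    rw [hr]
  · right
    obtain ⟨h3, -, h4, h5⟩ := h2 w hr
    refine ⟨w, rfl, ?_, h3, h4, h5⟩
    rw [hL] at hr
    conv_lhs => rw [h1, mk]
    rw [hr]
    simp only [rst_of_lt h3]

theorem brn (hT : ∀ j, ∀ x ∈ T j, x < γ j) (hγ : ∀ v, ∀ j ∈ tk v, γ j ≤ v) (v : V) :
    Brn T cl tk v := by
  induction v using WellFoundedLT.induction with
  | _ v ih =>
    rcases dat_cases hT hγ ih with ⟨-, h1⟩ | ⟨w, -, h1, h2, h3, h4⟩
    · constructor <;> intro y hy <;> rw [h1] at hy <;> simp at hy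
    · have hw := ih w h2
      have hm : ∀ y ∈ (dat T cl tk v).1, y = w ∨ y ∈ (dat T cl tk w).1 := by
        intro y hy
        rw [h1] at hy
        exact List.mem_cons.1 hy
      constructor
      · intro y hy
        rcases hm y hy with rfl | hy
        · exact h2
        · exact (hw.lt y hy).trans h2
      · intro y hy
        rcases hm y hy with rfl | hy
        · exact h4
        · exact (hw.lab y hy).trans h4
      · intro y hy
        rcases hm y hy with rfl | hy
        · exact h3
        · exact (hw.cls y hy).trans h3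
      · intro y hy x hx
        rw [h1]
        rcases hm y hy with rfl | hy
        · exact List.mem_cons_of_mem _ hx
        · exact List.mem_cons_of_mem _ (hw.trans y hy x hx)
      · intro x hx y hy
        rcases hm x hx with rfl | hx
        · rcases hm y hy with rfl | hy
          · exact Or.inl rfl
          · exact Or.inr (Or.inr hy)
        · rcases hm y hy with rfl | hy
          · exact Or.inr (Or.inl hx)
          · exact hw.chain x hx y hy

end forest

/-- The killing forest: there is a graph without infinite paths on the well-ordered set `V` such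
that, for every independent set `Y`, if `g` is a point closed under certain functions, then no
point of `Y` has the task `Y ∩ Iio g` on its list. -/
theorem exists_killing_graph {V J : Type u} [LinearOrder V] [WellFoundedLT V] [Nonempty V]
    (tk : V → List J) (γ : J → V) (T : J → Set V) (hT : ∀ j, ∀ x ∈ T j, x < γ j)
    (hγ : ∀ v, ∀ j ∈ tk v, γ j ≤ v) (hsort : ∀ v, (tk v).Pairwise (fun i j => γ i ≤ γ j))
    (cl : V → ℕ) (hcl : ∀ v, (tk v).length ≤ cl v) :
    ∃ G : SimpleGraph V, ¬ HasRay G ∧ ∀ Y : Set V, (∀ x ∈ Y, ∀ y ∈ Y, ¬ G.Adj x y) →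
      ∃ (h0 : ℕ → ℕ → V) (h : V → ℕ → ℕ → V), ∀ g : V, (∀ n l, h0 n l < g) →
        (∀ x < g, ∀ n l, h x n l < g) → ∀ j, T j = Y ∩ Iio g → γ j ≤ g → ∀ y ∈ Y, j ∉ tk y := by
  classical
  have hB : ∀ v, Brn T cl tk v := brn hT hγ
  set A : V → V → Prop := fun x y => x ∈ (dat T cl tk y).1 with hA
  have hirr : ∀ x, ¬ A x x := fun x hx => ((hB x).lt x hx).false
  refine ⟨cmpGraph A hirr, ?_, ?_⟩
  · refine not_hasRay_cmpGraph A (fun v => (dat T cl tk v).2) cl (fun n => 2 ^ n)
      (fun x y h => (hB y).lab x h) (fun x y h => (hB y).cls x h) ?_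
      (fun x y z h1 h2 => (hB z).trans y h2 x h1) (fun x y z h1 h2 => (hB z).chain x h1 y h2) hirr
    intro v
    have h1 := (lb_spec T cl (rst (dat T cl tk) v) (cl v) (tk v)).1
    have h2 : (dat T cl tk v).2 = lb T cl (rst (dat T cl tk) v) (cl v) (tk v) := by
      rw [dat_eq T cl tk v, mk]
    rw [h2]
    exact (h1.trans_le (Nat.pow_le_pow_right (by norm_num) (hcl v))).le
  · intro Y hY
    have hY' : ∀ x ∈ Y, ∀ y ∈ Y, ¬ A x y := fun x hx y hy h => hY x hx y hy (Or.inl h)
    obtain ⟨v0⟩ := ‹Nonempty V›
    set Q : Option V → ℕ → ℕ → V → Prop := fun s n l y =>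
      y ∈ Y ∧ cl y = n ∧ (dat T cl tk y).2 = l ∧ ∀ w ∈ s, A w y with hQ
    set H : Option V → ℕ → ℕ → V := fun s n l =>
      if h : ∃ y, Q s n l y then h.choose else s.getD v0 with hH
    have hHs : ∀ s n l, (∃ y, Q s n l y) → Q s n l (H s n l) := by
      intro s n l h
      have : H s n l = h.choose := dif_pos h
      rw [this]
      exact h.choose_spec
    refine ⟨H none, fun x => H (some x), ?_⟩
    intro g hg0 hg j hTj hγj y hy hjy
    -- the state before the task `j`
    obtain ⟨pre, post, hpp⟩ := List.append_of_mem hjy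
    have hih : ∀ z < y, Brn T cl tk z := fun z _ => hB z
    set D := rst (dat T cl tk) y with hD
    set L := (dat T cl tk y).2 with hL
    have hLlb : L = lb T cl D (cl y) (tk y) := by
      rw [hL, dat_eq T cl tk y, mk]
    set s := runs T cl D (cl y) L pre none with hs
    have hstate := state_spec hT hγ hih L pre (fun i hi => by rw [hpp]; simp [hi])
    have hne : L ≠ fval T cl D (cl y) s j := by
      refine ne_fval T cl D (cl y) (tk y) none ?_ pre j post hpp
      rw [hLlb]
      exact (lb_spec T cl D (cl y) (tk y)).2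
    have htr := rst_trans T cl tk hih
    -- elements of states are on the branch of `y`
    have hrun : runs T cl D (cl y) L (tk y) none =
        runs T cl D (cl y) L post (mv T cl D (cl y) L s j) := by
      rw [hpp, runs_append, runs]
    have hbelow : ∀ s', Blw D s' (runs T cl D (cl y) L (tk y) none) → ∀ w ∈ s', A w y := by
      intro s' hs' w hw
      obtain ⟨w', hw', h1⟩ := hs' w hw
      rcases dat_cases hT hγ hih with ⟨h2, -⟩ | ⟨u, h2, h3, h4, -⟩
      · rw [← hD, ← hL] at h2
        rw [h2] at hw'
        simp at hw'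
      · rw [← hD, ← hL] at h2
        rw [h2] at hw'
        obtain rfl : u = w' := by simpa using hw'
        show w ∈ (dat T cl tk y).1
        rw [h3]
        rcases h1 with rfl | h1
        · exact List.mem_cons_self
        · rw [hD, rst_of_lt h4] at h1
          exact List.mem_cons_of_mem _ h1
    have hBmv : Blw D (mv T cl D (cl y) L s j) (runs T cl D (cl y) L (tk y) none) := by
      rw [hrun]
      exact (runs_cases T cl D (cl y) htr post _).1
    have hBs : Blw D s (runs T cl D (cl y) L (tk y) none) := by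
      have h1 : runs T cl D (cl y) L (tk y) none = runs T cl D (cl y) L (j :: post) s := by
        rw [hpp, runs_append]
      rw [h1]
      exact (runs_cases T cl D (cl y) htr _ _).1
    have hsA : ∀ w ∈ s, A w y := hbelow s hBs
    -- the closure of `g`
    have hQy : Q s (cl y) L y := ⟨hy, rfl, rfl, hsA⟩
    have hQ' := hHs s (cl y) L ⟨y, hQy⟩
    have hlt : H s (cl y) L < g := by
      rcases hs' : s with _ | w
      · exact hg0 _ _
      · refine hg w ?_ _ _
        obtain ⟨-, ⟨i, hi, hwi⟩, -⟩ := hstate w hs'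
        refine (hT i w hwi).trans_le (le_trans ?_ hγj)
        have h1 := hsort y
        rw [hpp, List.pairwise_append] at h1
        exact h1.2.2 i hi j List.mem_cons_self
    set x := H s (cl y) L with hx
    have hxT : x ∈ T j := by
      rw [hTj]
      exact ⟨hQ'.1, hlt⟩
    have hxy : x < y := (hT j x hxT).trans_le (hγ y j hjy)
    have hDx : D x = dat T cl tk x := rst_of_lt hxy
    have hcand : Cand T cl D (cl y) s j x := by
      refine ⟨hxT, hQ'.2.1, fun w hw => ?_⟩
      rw [hDx]
      exact hQ'.2.2.2 w hw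
    obtain ⟨x', h1, h2, -⟩ := mv_of_lt T cl D (cl y) hcand (by rw [hDx, hQ'.2.2.1]) hne
    have h3 : A x' y := hbelow _ hBmv x' h1
    have h4 : x' ∈ Y := by
      have := h2.1
      rw [hTj] at this
      exact this.1
    exact hY' x' h4 y hy h3

end IPath
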