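import Pool.Agent.Work.MP_820435_lc.Cls.IffBad
import Pool.Agent.Work.MP_820435_lc.Cls.Gch

/-!
# The classification in terms of bad exponents
-/

open Ordinal Cardinal Set Order

universe u

namespace IPath

theorem not_isBad_zero (κ : Cardinal.{u}) : ¬ IsBad κ 0 := by
  rintro (⟨ζ, h, -⟩ | ⟨h, -⟩)
  · exact succ_ne_bot ζ h.symm
  · exact not_isSuccLimit_bot h

theorem omega0_opow_ord {κ : Cardinal.{u}} (hκ1 : ℵ₀ < κ) : ω ^ κ.ord = κ.ord := by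
  refine le_antisymm ?_ (right_le_opow _ one_lt_omega0)
  have h1 : IsSuccLimit κ.ord := isSuccLimit_ord hκ1.le
  rw [opow_le_of_isSuccLimit omega0_ne_zero h1]
  intro b hb
  have h2 : (ω : Ordinal.{u}) < κ.ord := by
    rw [← ord_aleph0]
    exact ord_lt_ord.2 hκ1
  exact (isPrincipal_opow_ord hκ1.le h2 hb).le

theorem opow_ord_mul_add {κ : Cardinal.{u}} (hκ1 : ℵ₀ < κ) (ξ ρ : Ordinal.{u}) :
    ω ^ (κ.ord * ξ + ρ) = κ.ord ^ ξ * ω ^ ρ := by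
  rw [opow_add, opow_mul, omega0_opow_ord hκ1]

theorem card_opow_lt {κ : Cardinal.{u}} (hκ1 : ℵ₀ < κ) {ρ : Ordinal.{u}} (hρ : ρ < κ.ord) :
    (ω ^ ρ : Ordinal.{u}).card < κ := by
  refine (card_opow_le ω ρ).trans_lt (max_lt hκ1 (max_lt ?_ (lt_ord.1 hρ)))
  rwa [card_omega0]

theorem card_opow_ord_mul_add {κ : Cardinal.{u}} (hκ1 : ℵ₀ < κ) {ξ ρ : Ordinal.{u}}
    (hξ0 : ξ ≠ 0) (hξ : ξ.card ≤ κ) (hρ : ρ < κ.ord) :
    (ω ^ (κ.ord * ξ + ρ) : Ordinal.{u}).card = κ := by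
  have h1 : κ.ord ≤ κ.ord * ξ + ρ :=
    (Ordinal.le_mul_left _ (pos_iff_ne_zero.2 hξ0)).trans le_self_add
  have h0 : κ.ord * ξ + ρ ≠ 0 := by
    have h2 : (0 : Ordinal.{u}) < κ.ord := by
      rw [lt_ord, card_zero]
      exact aleph0_pos.trans hκ1
    exact (h2.trans_le h1).ne'
  rw [card_omega0_opow h0]
  refine le_antisymm (max_le hκ1.le ?_) ?_
  · rw [card_add, card_mul, card_ord]
    refine (add_le_add (mul_le_mul_right hξ κ) (lt_ord.1 hρ).le).trans ?_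
    rw [mul_eq_self hκ1.le, add_eq_self hκ1.le]
  · refine le_trans ?_ (le_max_right _ _)
    have := Ordinal.card_le_card h1
    rwa [card_ord] at this

/-- ZFC: exponents which are not bad. -/
theorem pathRel_of_not_isBad {κ : Cardinal.{u}} (hκ : κ.IsRegular) (hκ1 : ℵ₀ < κ)
    {ξ ρ : Ordinal.{u}} (hξ0 : ξ ≠ 0) (hξ : ξ.card ≤ κ) (hρ : ρ < κ.ord) (h : ¬ IsBad κ ξ) :
    PathRel (ω ^ (κ.ord * ξ + ρ)) := by
  refine pathRel_of_not_almostCover hκ (card_opow_ord_mul_add hκ1 hξ0 hξ hρ) fun hc => h ?_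
  rw [opow_ord_mul_add hκ1] at hc
  exact (almostCover_iff_isBad hκ hκ1 hξ (opow_pos _ omega0_pos).ne' (card_opow_lt hκ1 hρ)).1 hc

/-- **The classification** of the ordinals divisible by `ω`, under GCH. -/
theorem pathRel_iff_isBad (hgch : ∀ μ : Cardinal.{u}, ℵ₀ ≤ μ → 2 ^ μ = succ μ)
    {α : Ordinal.{u}} (hα : ω ∣ α) : PathRel α ↔ ∀ p ∈ CNF ω α, ∀ κ : Cardinal.{u},
      κ.IsRegular → ℵ₀ < κ → ∀ ξ ρ : Ordinal.{u}, ξ.card ≤ κ → ρ < κ.ord →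
        p.1 = κ.ord * ξ + ρ → ¬ IsBad κ ξ := by
  rw [pathRel_iff_of_gch hgch hα]
  refine forall₂_congr fun p _ => ⟨fun h κ hκ hκ1 ξ ρ hξ hρ he hb => ?_,
    fun h κ hc hκ hκ1 ha => ?_⟩
  · have hξ0 : ξ ≠ 0 := by
      rintro rfl
      exact not_isBad_zero κ hb
    refine h κ ?_ hκ hκ1 ?_
    · rw [he, card_opow_ord_mul_add hκ1 hξ0 hξ hρ]
    · rw [he, opow_ord_mul_add hκ1]
      exact (almostCover_iff_isBad hκ hκ1 hξ (opow_pos _ omega0_pos).ne'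
        (card_opow_lt hκ1 hρ)).2 hb
  · have h1 : p.1 = κ.ord * (p.1 / κ.ord) + p.1 % κ.ord := (div_add_mod _ _).symm
    have h2 : p.1 % κ.ord < κ.ord := mod_lt _ hκ.ord_pos.ne'
    have h3 : (p.1 / κ.ord).card ≤ κ := by
      have h4 : p.1 / κ.ord ≤ ω ^ p.1 :=
        (div_le_of_le_mul (le_mul_right _ hκ.ord_pos)).trans (right_le_opow _ one_lt_omega0)
      exact (Ordinal.card_le_card h4).trans hc.ge
    refine h κ hκ hκ1 _ _ h3 h2 h1 ?_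
    rw [h1, opow_ord_mul_add hκ1] at ha
    exact (almostCover_iff_isBad hκ hκ1 h3 (opow_pos _ omega0_pos).ne'
      (card_opow_lt hκ1 h2)).1 ha

end IPath
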