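import Pool.Agent.Work.MP_820435_lc.Cls.Pieces

/-!
# From covers by fewer than `κ` sets to the rank
-/

open Ordinal Cardinal Set Order

universe u

namespace IPath

/-- Fewer than `κ` blocks carry a big part of a small set. -/
theorem card_big_blocks_lt {K Z : Type u} [LinearOrder K] [WellFoundedLT K] [LinearOrder Z]
    [WellFoundedLT Z] {κ : Cardinal.{u}} (hκ : κ.IsRegular) (A : Set (K ×ₗ Z)) {F : Ordinal.{u}}
    (hF : F ≠ 0) (hA : κ.ord * otp A < κ.ord ^ (F + 1)) :
    #{i : K | κ.ord ^ F ≤ κ.ord * otp (fib A i)} < κ := by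
  by_contra hcon
  rw [not_lt] at hcon
  apply absurd hA
  rw [not_lt]
  have h1 : (1 : Ordinal.{u}) + (F - 1) = F := Ordinal.add_sub_cancel_of_le (one_le_iff_ne_zero.2 hF)
  have h2 : ∀ x : Ordinal.{u}, κ.ord ^ F ≤ κ.ord * x → κ.ord ^ (F - 1) ≤ x := by
    intro x hx
    rw [← h1, opow_add, opow_one] at hx
    exact le_of_mul_le_mul_left hx hκ.ord_pos
  have h3 := mul_le_otp_of_fib A {i : K | κ.ord ^ F ≤ κ.ord * otp (fib A i)} (κ.ord ^ (F - 1))
    (fun i hi => h2 _ hi)
  calc κ.ord ^ (F + 1) = κ.ord * (κ.ord ^ (F - 1) * κ.ord) := by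
        conv_lhs => rw [← h1]
        rw [add_assoc, opow_add, opow_one, opow_add, opow_one]
    _ ≤ κ.ord * (κ.ord ^ (F - 1) * otp {i : K | κ.ord ^ F ≤ κ.ord * otp (fib A i)}) := by
        gcongr
        exact ord_le_otp_of_card hcon
    _ ≤ κ.ord * otp A := by gcongr

/-- Fewer than `κ` small sets of blocks do not exhaust the blocks. -/
theorem exists_common_block {κ : Cardinal.{u}} (hκ : κ.IsRegular) {J : Type u} (hJ : #J < κ)
    (S : J → Set κ.ord.ToType) (hS : ∀ j, #(S j) < κ) : ∃ i, ∀ j, i ∉ S j := by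
  by_contra hcon
  push Not at hcon
  have h1 : (⋃ j, S j) = Set.univ := by
    ext i
    simpa using hcon i
  have h2 : #(⋃ j, S j) < κ := by
    refine (mk_iUnion_le_sum_mk).trans_lt ?_
    apply sum_lt_of_isRegular hκ hJ
    exact hS
  rw [h1, mk_univ, mk_toType, card_ord] at h2
  exact h2.false

/-- C5a: the block lemma for fewer than `κ` sets, `F j = log κ (κ * otp (A j))`. -/
theorem rankGE_of_cover {κ : Cardinal.{u}} (hκ : κ.IsRegular) (_hκ1 : ℵ₀ < κ) {J : Type u}
    (hJ : #J < κ) {ξ : Ordinal.{u}} {B : Type u} [LinearOrder B] [WellFoundedLT B]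
    (hB : κ.ord ^ ξ ≤ otp B) (A : J → Set B) (hfin : ∀ x, {j | x ∉ A j}.Finite)
    (F : J → Ordinal.{u}) (hF : ∀ j, κ.ord * otp (A j) < κ.ord ^ (F j + 1)) : RankGE ξ F := by
  have hκ0 : 0 < κ.ord := hκ.ord_pos
  have hκ1' : 1 < κ.ord := one_lt_ord hκ
  induction ξ using WellFoundedLT.induction generalizing B F with
  | _ ξ ih =>
    rw [rankGE_iff]
    refine ⟨?_, ?_⟩
    · have hne : otp B ≠ 0 := ((opow_pos ξ hκ0).trans_le hB).ne'
      have hne' : Nonempty B := type_ne_zero_iff_nonempty.1 hne
      obtain ⟨x⟩ := hne'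
      refine (hfin x).subset fun j hj => ?_
      have h1 : F j = 0 := hj
      have h2 := hF j
      rw [h1, zero_add, opow_one] at h2
      have h3 : otp (A j) = 0 := by
        by_contra h4
        exact absurd (le_mul_left κ.ord (pos_iff_ne_zero.2 h4)) (not_le.2 h2)
      have h4 : IsEmpty (A j) := type_eq_zero_iff_isEmpty.1 h3
      exact fun h5 => h4.false ⟨x, h5⟩
    · intro η hη
      have h1 : otp (κ.ord.ToType ×ₗ (κ.ord ^ η).ToType) ≤ otp B := by
        rw [otp_prodLex, otp_toType, otp_toType, ← opow_add_one]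
        exact (opow_le_opow_right hκ0 (add_one_le_of_lt hη)).trans hB
      obtain ⟨e, he⟩ := exists_strictMono_of_otp_le h1
      set A' : J → Set (κ.ord.ToType ×ₗ (κ.ord ^ η).ToType) := fun j => e ⁻¹' A j with hA'
      have hA1 : ∀ j, otp (A' j) ≤ otp (A j) := fun j =>
        otp_le_of_strictMono (fun x => ⟨e x.1, x.2⟩) fun a b hab => he hab
      have hA2 : ∀ j, κ.ord * otp (A' j) < κ.ord ^ (F j + 1) := fun j =>
        (mul_le_mul_right (hA1 j) _).trans_lt (hF j)
      obtain ⟨i, hi⟩ := exists_common_block hκ hJ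
        (fun j => {i | F j ≠ 0 ∧ κ.ord ^ F j ≤ κ.ord * otp (fib (A' j) i)}) (fun j => by
          rcases eq_or_ne (F j) 0 with h | h
          · have : {i | F j ≠ 0 ∧ κ.ord ^ F j ≤ κ.ord * otp (fib (A' j) i)} = ∅ := by
              ext i
              simp [h]
            rw [this, mk_eq_zero]
            exact hκ.pos
          · refine (mk_le_mk_of_subset ?_).trans_lt (card_big_blocks_lt hκ (A' j) h (hA2 j))
            intro i hi
            exact hi.2)
      refine ⟨fun j => log κ.ord (κ.ord * otp (fib (A' j) i)), ?_, ?_⟩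
      · intro j
        rcases eq_or_ne (F j) 0 with h | h
        · right
          refine ⟨?_, h⟩
          have h2 := hA2 j
          rw [h, zero_add, opow_one] at h2
          have h3 : otp (fib (A' j) i) ≤ otp (A' j) := by
            refine otp_le_of_strictMono (fun z => ⟨toLex (i, z.1), z.2⟩) ?_
            intro a b hab
            exact Prod.Lex.lt_iff.2 (Or.inr ⟨rfl, hab⟩)
          have h4 : κ.ord * otp (fib (A' j) i) < κ.ord := (mul_le_mul_right h3 _).trans_lt h2
          have h5 : otp (fib (A' j) i) = 0 := by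
            by_contra h6
            exact absurd (le_mul_left κ.ord (pos_iff_ne_zero.2 h6)) (not_le.2 h4)
          simp [h5]
        · left
          have h2 : ¬ κ.ord ^ F j ≤ κ.ord * otp (fib (A' j) i) := fun h3 => hi j ⟨h, h3⟩
          rw [not_le] at h2
          rcases eq_or_ne (κ.ord * otp (fib (A' j) i)) 0 with h3 | h3
          · simp only [h3, log_zero_right]
            exact pos_iff_ne_zero.2 h
          · exact (lt_opow_iff_log_lt hκ1' h3).1 h2
      · refine ih η hη (B := (κ.ord ^ η).ToType) (by rw [otp_toType]) (fun j => fib (A' j) i)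
          (fun z => (hfin (e (toLex (i, z)))).subset fun j hj => hj) _ ?_
        intro j
        rw [← succ_eq_add_one]
        exact lt_opow_succ_log_self hκ1' _

end IPath
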