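import Pool.Agent.Work.MP_820435_lc.Cls.Nec

/-!
# From a cover by `ν⁺` sets of smaller type to the rank of a constant function on `ν`
-/

open Ordinal Cardinal Set Order

universe u

namespace IPath

/-- The rank of the constant `n` on an infinite set is less than `n`. -/
theorem not_rankGE_const_nat {J : Type u} [Infinite J] (n : ℕ) :
    ¬ RankGE (n : Ordinal.{u}) (fun _ : J => (n : Ordinal.{u})) := by
  induction n with
  | zero =>
    intro h
    have h1 := h.finite
    have h2 : {j : J | ((0 : ℕ) : Ordinal.{u}) = 0} = Set.univ := by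
      ext j
      simp
    rw [h2] at h1
    exact infinite_univ h1
  | succ n ih =>
    intro h
    obtain ⟨F', h1, h2⟩ := h.step (η' := (n : Ordinal.{u}))
      (by exact_mod_cast Nat.lt_succ_self n)
    apply ih
    refine h2.mono fun j => ?_
    rcases h1 j with h3 | ⟨h3, h4⟩
    · rw [Nat.cast_add, Nat.cast_one] at h3
      exact Order.lt_add_one_iff.1 h3
    · rw [h3]
      exact zero_le

section
variable {B : Type u} [LinearOrder B] [WellFoundedLT B]

/-- Two consecutive sets. -/
theorem add_otp_le (s t : Set B) (h : ∀ x ∈ s, ∀ y ∈ t, x < y) : otp s + otp t ≤ otp B := by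
  have h1 : otp s + otp t = type (Sum.Lex (· < · : s → s → Prop) (· < · : t → t → Prop)) :=
    (type_sum_lex _ _).symm
  rw [h1]
  have e : Sum.Lex (· < · : s → s → Prop) (· < · : t → t → Prop) ↪r (· < · : B → B → Prop) := by
    refine RelEmbedding.ofMonotone (Sum.elim (fun x : s => x.1) (fun y : t => y.1)) ?_
    rintro (a | a) (b | b) hab
    · exact (Sum.lex_inl_inl.1 hab : a < b)
    · exact h _ a.2 _ b.2
    · exact absurd hab Sum.lex_inr_inl
    · exact (Sum.lex_inr_inr.1 hab : a < b)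
  exact e.ordinal_type_le

/-- If all tails have type at least `κ ^ ζ`, the whole has type at least `κ ^ (ζ + 1)`. -/
theorem opow_le_otp_of_tails_cls {κ : Cardinal.{u}} (hκ : κ.IsRegular) {ζ : Ordinal.{u}}
    (hζ : IsSuccLimit ζ) (hcof : ζ.cof < κ) (r : B → κ.ord.ToType) (hr : Monotone r)
    (h : ∀ i, κ.ord ^ ζ ≤ otp {b : B | i < r b}) : κ.ord ^ (ζ + 1) ≤ otp B := by
  have hκ0 : 0 < κ.ord := hκ.ord_pos
  have hκ1' : 1 < κ.ord := one_lt_ord hκ
  have hpos : 0 < κ.ord ^ ζ := opow_pos _ hκ0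
  have hne : ∀ i, ∃ b : B, i < r b := by
    intro i
    have h1 : otp {b : B | i < r b} ≠ 0 := (hpos.trans_le (h i)).ne'
    obtain ⟨b⟩ := type_ne_zero_iff_nonempty.1 h1
    exact ⟨b.1, b.2⟩
  have hcofB : κ ≤ (otp B).cof := by
    obtain ⟨s, hs1, hs2⟩ := Order.exists_cof_eq (α := B)
    have h1 : IsCofinal (r '' s) := by
      intro i
      obtain ⟨b, hb⟩ := hne i
      obtain ⟨c, hc1, hc2⟩ := hs1 b
      exact ⟨r c, ⟨c, hc1, rfl⟩, hb.le.trans (hr hc2)⟩
    have h2 := (Order.cof_le h1).trans mk_image_le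
    rw [Ordinal.cof_toType, hκ.cof_ord, hs2, ← Ordinal.cof_type] at h2
    exact h2
  have key : ∀ δ : Ordinal.{u}, δ ≤ κ.ord → κ.ord ^ ζ * δ ≤ otp B := by
    intro δ
    induction δ using WellFoundedLT.induction with
    | _ δ ih =>
      intro hδ
      rcases zero_or_succ_or_isSuccLimit δ with rfl | ⟨δ', rfl⟩ | hlim
      · simp
      · have hδ' : δ' < κ.ord := (lt_succ δ').trans_le hδ
        have h1 := ih δ' (lt_succ δ') hδ'.le
        have h2 : κ.ord ^ ζ * δ' ≠ otp B := by
          intro h3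
          rw [← h3] at hcofB
          apply absurd hcofB
          rw [not_le]
          rcases zero_or_succ_or_isSuccLimit δ' with rfl | ⟨δ'', rfl⟩ | hlim'
          · simpa using hκ.pos
          · rw [Ordinal.mul_succ, cof_add _ hpos.ne', cof_map_of_isNormal (isNormal_opow hκ1') hζ]
            exact hcof
          · rw [cof_mul hpos.ne' hlim'.isSuccPrelimit]
            exact (cof_le_card _).trans_lt (by rwa [← lt_ord])
        obtain ⟨a, ha⟩ := typein_surj (· < · : B → B → Prop) (lt_of_le_of_ne h1 h2)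
        have h3 : otp (Iio a) = κ.ord ^ ζ * δ' := by rw [← ha]; rfl
        calc κ.ord ^ ζ * succ δ' = otp (Iio a) + κ.ord ^ ζ := by rw [Ordinal.mul_succ, h3]
          _ ≤ otp (Iio a) + otp {b : B | r a < r b} := by
            gcongr
            exact h (r a)
          _ ≤ otp B := add_otp_le _ _ fun x hx y hy => by
            have hx' : x < a := hx
            have hy' : r a < r y := hy
            exact hx'.trans (hr.reflect_lt hy')
      · rw [mul_le_iff_of_isSuccLimit hlim]
        intro δ' hδ'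
        exact ih δ' hδ' (hδ'.le.trans hδ)
  rw [opow_add_one]
  exact key _ le_rfl

end

/-- The refined block lemma at a limit of small cofinality. -/
theorem exists_small_exponent {κ : Cardinal.{u}} (hκ : κ.IsRegular) {ζ : Ordinal.{u}}
    (hζ : IsSuccLimit ζ) (hcof : ζ.cof < κ) {Z : Type u} [LinearOrder Z] [WellFoundedLT Z]
    (A : Set (κ.ord.ToType ×ₗ Z)) (hA : otp A < κ.ord ^ (ζ + 1)) :
    ∃ f < ζ, #{i : κ.ord.ToType | κ.ord ^ f ≤ otp (fib A i)} < κ := by
  by_contra hcon
  push Not at hcon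
  apply absurd hA
  rw [not_lt]
  have hκ0 : κ.ord ≠ 0 := hκ.ord_pos.ne'
  refine opow_le_otp_of_tails_cls hκ hζ hcof (fun a : A => (ofLex a.1).1)
    (fun a b hab => Prod.Lex.monotone_fst _ _ hab) ?_
  intro i
  rw [opow_le_of_isSuccLimit hκ0 hζ]
  intro f hf
  have h1 : ∃ i', i < i' ∧ κ.ord ^ f ≤ otp (fib A i') := by
    by_contra h2
    push Not at h2
    have h3 : {i' : κ.ord.ToType | κ.ord ^ f ≤ otp (fib A i')} ⊆ Iic i := by
      intro i' hi'
      by_contra h4
      exact absurd hi' (not_le.2 (h2 i' (not_le.1 h4)))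
    have h4 : #(Iic i) < κ := by
      have h5 : #(Iio i) < κ := by
        have h6 := mk_Iio_lt i (by rw [mk_toType, card_ord, type_toType])
        rwa [mk_toType, card_ord] at h6
      have h6 : Iic i = insert i (Iio i) := by
        ext a
        simp [le_iff_eq_or_lt]
      rw [h6]
      exact mk_insert_le.trans_lt
        (add_lt_of_lt hκ.aleph0_le h5 (one_lt_aleph0.trans_le hκ.aleph0_le))
    exact absurd ((hcon f hf).trans (mk_le_mk_of_subset h3)) (not_le.2 h4)
  obtain ⟨i', hi1, hi2⟩ := h1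
  refine hi2.trans ?_
  refine otp_le_of_strictMono (fun z => ⟨⟨toLex (i', z.1), z.2⟩, hi1⟩) ?_
  intro a b hab
  exact Prod.Lex.lt_iff.2 (Or.inr ⟨rfl, hab⟩)

/-- Pigeonhole: `ν` many of `ν⁺` many ordinals below a limit are bounded below the limit. -/
theorem exists_bounded_family {ν : Cardinal.{u}} (hν : ℵ₀ ≤ ν) {Λ : Type u} (hΛ : succ ν ≤ #Λ)
    {ζ : Ordinal.{u}} (hcof : ζ.cof ≤ ν) (φ : Λ → Ordinal.{u})
    (hφ : ∀ j, φ j < ζ) :
    ∃ (e : ν.ord.ToType → Λ) (f : Ordinal.{u}), Function.Injective e ∧ f < ζ ∧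
      ∀ j, φ (e j) ≤ f := by
  obtain ⟨s, hs1, hs2⟩ := Order.exists_cof_eq (α := ζ.ToType)
  rw [Ordinal.cof_toType] at hs2
  have h1 : ∀ j, ∃ c : s, ToType.mk ⟨φ j, hφ j⟩ ≤ c.1 := by
    intro j
    obtain ⟨c, hc1, hc2⟩ := hs1 (ToType.mk ⟨φ j, hφ j⟩)
    exact ⟨⟨c, hc1⟩, hc2⟩
  choose c hc using h1
  obtain ⟨y, hy⟩ := infinite_pigeonhole_card c (succ ν) hΛ (hν.trans (le_succ ν)) (by
    rw [(isRegular_succ hν).cof_ord, hs2]
    exact hcof.trans_lt (lt_succ ν))
  have h2 : #(ν.ord.ToType) ≤ #(c ⁻¹' {y}) := by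
    rw [mk_toType, card_ord]
    exact (le_succ ν).trans hy
  obtain ⟨e⟩ := h2
  refine ⟨fun j => (e j).1, (ToType.mk.symm y.1 : Ordinal.{u}),
    fun a b hab => e.injective (Subtype.ext hab), (ToType.mk.symm y.1).2, ?_⟩
  intro j
  have h3 := hc (e j).1
  have h4 : c (e j).1 = y := (e j).2
  rw [h4] at h3
  have h5 := ToType.mk.symm.monotone h3
  rw [OrderIso.symm_apply_apply] at h5
  exact h5

/-- The rank of a constant from a family of small sets. -/
theorem rank_const_of_small {ν : Cardinal.{u}} (hν : ℵ₀ ≤ ν) {ζ f g : Ordinal.{u}}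
    (hg : 1 + f ≤ g + 1) {B : Type u} [LinearOrder B] [WellFoundedLT B]
    (hB : (succ ν).ord ^ ζ ≤ otp B) (A : ν.ord.ToType → Set B) (hfin : ∀ x, {j | x ∉ A j}.Finite)
    (hf : ∀ j, otp (A j) < (succ ν).ord ^ f) :
    RankGE ζ (fun _ : ν.ord.ToType => g) := by
  have hκ := isRegular_succ hν
  refine rankGE_of_cover hκ (hν.trans_lt (lt_succ ν)) ?_ hB A hfin _ ?_
  · rw [mk_toType, card_ord]
    exact lt_succ ν
  · intro j
    calc (succ ν).ord * otp (A j) < (succ ν).ord * (succ ν).ord ^ f :=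
          mul_lt_mul_of_pos_left (hf j) hκ.ord_pos
      _ = (succ ν).ord ^ (1 + f) := by rw [opow_add, opow_one]
      _ ≤ (succ ν).ord ^ (g + 1) := opow_le_opow_right hκ.ord_pos hg

/-- C5b: from `κ = ν⁺` bad colours to the rank of a constant function on `ν`. -/
theorem exists_rank_of_cover {ν : Cardinal.{u}} (hν : ℵ₀ ≤ ν) {ξ : Ordinal.{u}}
    {B : Type u} [LinearOrder B] [WellFoundedLT B] (hB : otp B = (succ ν).ord ^ ξ)
    {Λ : Type u} (hΛ : succ ν ≤ #Λ) (A : Λ → Set B) (hA : ∀ j, otp (A j) < otp B)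
    (hfin : ∀ x, {j | x ∉ A j}.Finite) :
    ∃ g, g + 2 ≤ ξ ∧ ∀ η < ξ, RankGE η (fun _ : ν.ord.ToType => g) := by
  have hκ := isRegular_succ hν
  have hκ0 : 0 < (succ ν).ord := hκ.ord_pos
  have hκ1' : 1 < (succ ν).ord := one_lt_ord hκ
  have hinf : Infinite ν.ord.ToType := by
    rw [infinite_iff, mk_toType, card_ord]
    exact hν
  have hfin' : ∀ {e : ν.ord.ToType → Λ}, Function.Injective e → ∀ x, {j | x ∉ A (e j)}.Finite :=
    fun he x => (hfin x).preimage he.injOn
  have hone : ∀ f : Ordinal.{u}, 1 + f ≤ f + 1 := by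
    intro f
    rcases lt_or_ge f ω with h | h
    · obtain ⟨n, rfl⟩ := lt_omega0.1 h
      exact_mod_cast (Nat.add_comm 1 n).le
    · rw [one_add_of_omega0_le h]
      exact le_self_add
  rw [hB] at hA
  rcases zero_or_succ_or_isSuccLimit ξ with rfl | ⟨ζ, rfl⟩ | hlim
  · -- `B` is one point
    exfalso
    have hne : Nonempty B := by
      rw [← type_ne_zero_iff_nonempty (r := (· < · : B → B → Prop))]
      intro h
      have h1 : otp B = 0 := h
      rw [h1] at hB
      simp at hB
    obtain ⟨x⟩ := hne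
    have h1 : {j | x ∉ A j} = Set.univ := by
      ext j
      refine ⟨fun _ => Set.mem_univ _, fun _ hx => ?_⟩
      have h2 := hA j
      rw [opow_zero, lt_one_iff] at h2
      exact (type_eq_zero_iff_isEmpty.1 h2).false ⟨x, hx⟩
    have h2 := hfin x
    rw [h1, finite_univ_iff] at h2
    have h3 : ℵ₀ ≤ #Λ := hν.trans ((le_succ ν).trans hΛ)
    rw [← infinite_iff] at h3
    exact h3.not_finite h2
  · -- `ξ = ζ + 1`: blocks of type `κ ^ ζ`
    have h1 : otp ((succ ν).ord.ToType ×ₗ ((succ ν).ord ^ ζ).ToType) ≤ otp B := by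
      rw [otp_prodLex, otp_toType, otp_toType, ← Ordinal.opow_succ, hB]
    obtain ⟨p, hp⟩ := exists_strictMono_of_otp_le h1
    set A' : Λ → Set ((succ ν).ord.ToType ×ₗ ((succ ν).ord ^ ζ).ToType) :=
      fun j => p ⁻¹' A j with hA'
    have hA1 : ∀ j, otp (A' j) < (succ ν).ord ^ (ζ + 1) := by
      intro j
      have h2 : otp (A' j) ≤ otp (A j) :=
        otp_le_of_strictMono (fun x => ⟨p x.1, x.2⟩) fun a b hab => hp hab
      exact h2.trans_lt (hA j)
    have hfinA : ∀ {e : ν.ord.ToType → Λ}, Function.Injective e → ∀ i,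
        ∀ z, {j | z ∉ fib (A' (e j)) i}.Finite := fun he i z =>
      (hfin' he (p (toLex (i, z)))).subset fun j hj => hj
    have hJ : #(ν.ord.ToType) < succ ν := by
      rw [mk_toType, card_ord]
      exact lt_succ ν
    have hZ : (succ ν).ord ^ ζ ≤ otp ((succ ν).ord ^ ζ).ToType := by rw [otp_toType]
    -- a common block for `ν` colours
    have hcommon : ∀ e : ν.ord.ToType → Λ, ∃ i, ∀ j,
        otp (fib (A' (e j)) i) < (succ ν).ord ^ ζ := by
      intro e
      obtain ⟨i, hi⟩ := exists_common_block hκ hJ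
        (fun j => {i | (succ ν).ord ^ ζ ≤ otp (fib (A' (e j)) i)}) (fun j => by
          by_contra h2
          rw [not_lt] at h2
          apply absurd (hA1 (e j))
          rw [not_lt, opow_add_one]
          refine le_trans ?_ (mul_le_otp_of_fib (A' (e j))
            {i | (succ ν).ord ^ ζ ≤ otp (fib (A' (e j)) i)} ((succ ν).ord ^ ζ) fun i hi => hi)
          gcongr
          exact ord_le_otp_of_card h2)
      exact ⟨i, fun j => not_le.1 (hi j)⟩
    obtain ⟨e0, he0⟩ : ∃ e : ν.ord.ToType → Λ, Function.Injective e := by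
      have h2 : #(ν.ord.ToType) ≤ #Λ := hJ.le.trans hΛ
      obtain ⟨e⟩ := h2
      exact ⟨e, e.injective⟩
    rcases zero_or_succ_or_isSuccLimit ζ with rfl | ⟨h, rfl⟩ | hζ
    · exfalso
      obtain ⟨i, hi⟩ := hcommon e0
      have hne : Nonempty ((succ ν).ord ^ (0 : Ordinal.{u})).ToType := by
        rw [nonempty_toType_iff, opow_zero]
        exact one_ne_zero
      obtain ⟨z⟩ := hne
      have h2 := hfinA he0 i z
      have h3 : {j | z ∉ fib (A' (e0 j)) i} = Set.univ := by
        ext j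
        refine ⟨fun _ => Set.mem_univ _, fun _ hx => ?_⟩
        have h4 : otp (fib (A' (e0 j)) i) < 1 := (hi j).trans_eq (opow_zero _)
        exact (type_eq_zero_iff_isEmpty.1 (lt_one_iff.1 h4)).false ⟨z, hx⟩
      rw [h3] at h2
      exact infinite_univ h2
    · obtain ⟨i, hi⟩ := hcommon e0
      have h2 : RankGE (succ h) (fun _ : ν.ord.ToType => 1 + h) :=
        rank_const_of_small hν (f := h + 1) (by rw [add_assoc]) hZ
          (fun j => fib (A' (e0 j)) i) (hfinA he0 i) hi
      have h3 : ω ≤ h := by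
        by_contra h4
        rw [not_le] at h4
        obtain ⟨n, rfl⟩ := lt_omega0.1 h4
        apply not_rankGE_const_nat (J := ν.ord.ToType) (n + 1)
        have h5 : (succ (n : Ordinal.{u})) = ((n + 1 : ℕ) : Ordinal.{u}) := by
          rw [succ_eq_add_one]
          push_cast
          rfl
        have h6 : (1 + (n : Ordinal.{u})) = ((n + 1 : ℕ) : Ordinal.{u}) := by
          rw [Nat.add_comm n 1]
          push_cast
          rfl
        rw [h5, h6] at h2
        exact h2
      rw [one_add_of_omega0_le h3] at h2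
      refine ⟨h, ?_, fun η hη => h2.mono_left (lt_succ_iff.1 hη)⟩
      rw [succ_eq_add_one, succ_eq_add_one, add_assoc, one_add_one_eq_two]
    · rcases le_or_gt ζ.cof ν with hcof | hcof
      · choose φ hφ1 hφ2 using fun j =>
          exists_small_exponent hκ hζ (hcof.trans_lt (lt_succ ν)) (A' j) (hA1 j)
        obtain ⟨e, f, he, hf, hef⟩ := exists_bounded_family hν hΛ hcof φ hφ1
        obtain ⟨i, hi⟩ := exists_common_block hκ hJ
          (fun j => {i | (succ ν).ord ^ f ≤ otp (fib (A' (e j)) i)}) (fun j => by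
            refine (mk_le_mk_of_subset ?_).trans_lt (hφ2 (e j))
            intro i hi
            exact (opow_le_opow_right hκ0 (hef j)).trans hi)
        have h2 : RankGE ζ (fun _ : ν.ord.ToType => f) :=
          rank_const_of_small hν (f := f) (hone f) hZ
            (fun j => fib (A' (e j)) i) (hfinA he i) (fun j => not_le.1 (hi j))
        refine ⟨f, ?_, fun η hη => h2.mono_left (lt_succ_iff.1 hη)⟩
        have h3 : f + 2 < ζ := by
          rw [← one_add_one_eq_two, ← add_assoc, ← succ_eq_add_one, ← succ_eq_add_one]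
          exact hζ.succ_lt (hζ.succ_lt hf)
        exact h3.le.trans (le_succ ζ)
      · obtain ⟨i, hi⟩ := hcommon e0
        have h2 : ∀ j, ∃ f < ζ, otp (fib (A' (e0 j)) i) < (succ ν).ord ^ f := fun j =>
          (lt_opow_of_isSuccLimit hκ0.ne' hζ).1 (hi j)
        choose φ hφ1 hφ2 using h2
        have h3 : (⨆ j, φ j) < ζ := iSup_lt_of_lt_cof (by
          rw [mk_toType, card_ord]
          exact hcof) hφ1
        have h4 : RankGE ζ (fun _ : ν.ord.ToType => ⨆ j, φ j) :=
          rank_const_of_small hν (f := ⨆ j, φ j) (hone _) hZ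
            (fun j => fib (A' (e0 j)) i) (hfinA he0 i) (fun j => (hφ2 j).trans_le
              (opow_le_opow_right hκ0 (Ordinal.le_iSup _ j)))
        refine ⟨⨆ j, φ j, ?_, fun η hη => h4.mono_left (lt_succ_iff.1 hη)⟩
        have h5 : (⨆ j, φ j) + 2 < ζ := by
          rw [← one_add_one_eq_two, ← add_assoc, ← succ_eq_add_one, ← succ_eq_add_one]
          exact hζ.succ_lt (hζ.succ_lt h3)
        exact h5.le.trans (le_succ ζ)
  · -- `ξ` limit
    have h2 : ∀ j, ∃ f < ξ, otp (A j) < (succ ν).ord ^ f := fun j =>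
      (lt_opow_of_isSuccLimit hκ0.ne' hlim).1 (hA j)
    choose φ hφ1 hφ2 using h2
    obtain ⟨e, f, he, hf, hef⟩ : ∃ (e : ν.ord.ToType → Λ) (f : Ordinal.{u}),
        Function.Injective e ∧ f < ξ ∧ ∀ j, φ (e j) ≤ f := by
      rcases le_or_gt ξ.cof ν with hcof | hcof
      · exact exists_bounded_family hν hΛ hcof φ hφ1
      · have h2 : #(ν.ord.ToType) ≤ #Λ := by
          rw [mk_toType, card_ord]
          exact (le_succ ν).trans hΛ
        obtain ⟨e⟩ := h2
        exact ⟨e, ⨆ j, φ (e j), e.injective, iSup_lt_of_lt_cof (by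
          rw [mk_toType, card_ord]
          exact hcof) (fun j => hφ1 (e j)), fun j => Ordinal.le_iSup (fun j => φ (e j)) j⟩
    refine ⟨f, ?_, fun η hη => ?_⟩
    · have h3 : f + 2 < ξ := by
        rw [← one_add_one_eq_two, ← add_assoc, ← succ_eq_add_one, ← succ_eq_add_one]
        exact hlim.succ_lt (hlim.succ_lt hf)
      exact h3.le
    · refine rank_const_of_small hν (f := f) (hone f) ?_ (fun j => A (e j)) (hfin' he)
        (fun j => (hφ2 (e j)).trans_le (opow_le_opow_right hκ0 (hef j)))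
      rw [hB]
      exact opow_le_opow_right hκ0 hη.le

end IPath
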