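import Pool.Agent.Work.MP_820435_lc.Cls.Bad
import Pool.Agent.Work.MP_820435_lc.Cls.Nec2

/-!
# Necessity of the rank criterion for all regular uncountable cardinals
-/

open Ordinal Cardinal Set Order

universe u

namespace IPath

theorem one_add_le_add_one (f : Ordinal.{u}) : 1 + f ≤ f + 1 := by
  rcases lt_or_ge f ω with h | h
  · obtain ⟨n, rfl⟩ := lt_omega0.1 h
    exact_mod_cast (Nat.add_comm 1 n).le
  · rw [one_add_of_omega0_le h]
    exact le_self_add

/-- Pigeonhole at small cofinality: one bound for `κ` many ordinals. -/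
theorem exists_common_bound {κ : Cardinal.{u}} (hκ : κ.IsRegular) {Λ : Type u} (hΛ : κ ≤ #Λ)
    {ζ : Ordinal.{u}} (hcof : ζ.cof < κ) (φ : Λ → Ordinal.{u}) (hφ : ∀ j, φ j < ζ) :
    ∃ f < ζ, κ ≤ #{j : Λ | φ j ≤ f} := by
  obtain ⟨s, hs1, hs2⟩ := Order.exists_cof_eq (α := ζ.ToType)
  rw [Ordinal.cof_toType] at hs2
  have h1 : ∀ j, ∃ c : s, ToType.mk ⟨φ j, hφ j⟩ ≤ c.1 := by
    intro j
    obtain ⟨c, hc1, hc2⟩ := hs1 (ToType.mk ⟨φ j, hφ j⟩)
    exact ⟨⟨c, hc1⟩, hc2⟩
  choose c hc using h1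
  obtain ⟨y, hy⟩ := infinite_pigeonhole_card c κ hΛ hκ.aleph0_le (by
    rw [hκ.cof_ord, hs2]
    exact hcof)
  refine ⟨(ToType.mk.symm y.1 : Ordinal.{u}), (ToType.mk.symm y.1).2,
    hy.trans (mk_le_mk_of_subset ?_)⟩
  intro j hj
  have h3 := hc j
  have h4 : c j = y := hj
  rw [h4] at h3
  have h5 := ToType.mk.symm.monotone h3
  rw [OrderIso.symm_apply_apply] at h5
  exact h5

/-- The rank of a family of exponents from a cover by small sets. -/
theorem rank_of_small {κ : Cardinal.{u}} (hκ : κ.IsRegular) (hκ1 : ℵ₀ < κ) {J : Type u}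
    (hJ : #J < κ) {ζ : Ordinal.{u}} (f g : J → Ordinal.{u}) (hg : ∀ j, 1 + f j ≤ g j + 1)
    {B : Type u} [LinearOrder B] [WellFoundedLT B] (hB : κ.ord ^ ζ ≤ otp B) (A : J → Set B)
    (hfin : ∀ x, {j | x ∉ A j}.Finite) (hf : ∀ j, otp (A j) < κ.ord ^ f j) : RankGE ζ g := by
  refine rankGE_of_cover hκ hκ1 hJ hB A hfin _ ?_
  intro j
  calc κ.ord * otp (A j) < κ.ord * κ.ord ^ f j := mul_lt_mul_of_pos_left (hf j) hκ.ord_pos
    _ = κ.ord ^ (1 + f j) := by rw [opow_add, opow_one]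
    _ ≤ κ.ord ^ (g j + 1) := opow_le_opow_right hκ.ord_pos (hg j)

theorem card_Iio_lt {κ : Cardinal.{u}} (i : κ.ord.ToType) : #(Iio i) < κ := by
  have h6 := mk_Iio_lt i (by rw [mk_toType, card_ord, type_toType])
  rwa [mk_toType, card_ord] at h6

/-- N: necessity. -/
theorem isBad_of_almostCover {κ : Cardinal.{u}} (hκ : κ.IsRegular) (hκ1 : ℵ₀ < κ)
    {ξ : Ordinal.{u}} (_hξ : ξ.card ≤ κ) (h : AlmostCover κ (κ.ord ^ ξ)) : IsBad κ ξ := by
  obtain ⟨A, hA, hfin⟩ := h
  have hκ0 : 0 < κ.ord := hκ.ord_pos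
  have hcard : #(κ.ord.ToType) = κ := by rw [mk_toType, card_ord]
  have hfin' : ∀ {J : Type u} {e : J → κ.ord.ToType}, Function.Injective e →
      ∀ x, {j | x ∉ A (e j)}.Finite := fun he x => (hfin x).preimage he.injOn
  have hB : otp (κ.ord ^ ξ).ToType = κ.ord ^ ξ := otp_toType _
  have hinj : ∀ ρ : Cardinal.{u}, ρ ≤ κ → ∃ e : ρ.ord.ToType → κ.ord.ToType,
      Function.Injective e := by
    intro ρ hρ
    have h2 : #(ρ.ord.ToType) ≤ #(κ.ord.ToType) := by
      rw [hcard, mk_toType, card_ord]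
      exact hρ
    obtain ⟨e⟩ := h2
    exact ⟨e, e.injective⟩
  have hcardρ : ∀ ρ : Cardinal.{u}, #(ρ.ord.ToType) = ρ := fun ρ => by rw [mk_toType, card_ord]
  have hinf : Infinite (ℵ₀ : Cardinal.{u}).ord.ToType := by
    rw [infinite_iff, hcardρ]
  obtain ⟨e1, he1⟩ := hinj ℵ₀ hκ1.le
  rcases zero_or_succ_or_isSuccLimit ξ with rfl | ⟨ζ, rfl⟩ | hlim
  · exfalso
    have hne : Nonempty (κ.ord ^ (0 : Ordinal.{u})).ToType := by
      rw [nonempty_toType_iff, opow_zero]
      exact one_ne_zero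
    obtain ⟨x⟩ := hne
    have h1 : {j | x ∉ A (e1 j)} = Set.univ := by
      ext j
      refine ⟨fun _ => Set.mem_univ _, fun _ hx => ?_⟩
      have h2 : otp (A (e1 j)) < 1 := (hA (e1 j)).trans_eq (opow_zero _)
      exact (type_eq_zero_iff_isEmpty.1 (lt_one_iff.1 h2)).false ⟨x, hx⟩
    have h2 := hfin' he1 x
    rw [h1] at h2
    exact infinite_univ h2
  · left
    refine ⟨ζ, succ_eq_add_one ζ, ?_⟩
    -- blocks of type `κ ^ ζ`
    have h1 : otp (κ.ord.ToType ×ₗ (κ.ord ^ ζ).ToType) ≤ otp (κ.ord ^ (succ ζ)).ToType := by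
      rw [otp_prodLex, otp_toType, otp_toType, otp_toType, ← Ordinal.opow_succ]
    obtain ⟨p, hp⟩ := exists_strictMono_of_otp_le h1
    set A' : κ.ord.ToType → Set (κ.ord.ToType ×ₗ (κ.ord ^ ζ).ToType) :=
      fun j => p ⁻¹' A j with hA'
    have hA1 : ∀ j, otp (A' j) < κ.ord ^ (ζ + 1) := by
      intro j
      have h2 : otp (A' j) ≤ otp (A j) :=
        otp_le_of_strictMono (fun x => ⟨p x.1, x.2⟩) fun a b hab => hp hab
      exact h2.trans_lt (hA j)
    have hfinA : ∀ {J : Type u} {e : J → κ.ord.ToType}, Function.Injective e → ∀ i,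
        ∀ z, {j | z ∉ fib (A' (e j)) i}.Finite := fun he i z =>
      (hfin' he (p (toLex (i, z)))).subset fun j hj => hj
    have hZ : κ.ord ^ ζ ≤ otp (κ.ord ^ ζ).ToType := by rw [otp_toType]
    have hcommon : ∀ {J : Type u} (_ : #J < κ) (e : J → κ.ord.ToType), ∃ i, ∀ j,
        otp (fib (A' (e j)) i) < κ.ord ^ ζ := by
      intro J hJ e
      obtain ⟨i, hi⟩ := exists_common_block hκ hJ
        (fun j => {i | κ.ord ^ ζ ≤ otp (fib (A' (e j)) i)}) (fun j => by
          by_contra h2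
          rw [not_lt] at h2
          apply absurd (hA1 (e j))
          rw [not_lt, opow_add_one]
          refine le_trans ?_ (mul_le_otp_of_fib (A' (e j))
            {i | κ.ord ^ ζ ≤ otp (fib (A' (e j)) i)} (κ.ord ^ ζ) fun i hi => hi)
          gcongr
          exact ord_le_otp_of_card h2)
      exact ⟨i, fun j => not_le.1 (hi j)⟩
    have hω : #((ℵ₀ : Cardinal.{u}).ord.ToType) < κ := by rwa [hcardρ]
    rcases zero_or_succ_or_isSuccLimit ζ with rfl | ⟨h, rfl⟩ | hζ
    · exfalso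
      obtain ⟨i, hi⟩ := hcommon hω e1
      have hne : Nonempty (κ.ord ^ (0 : Ordinal.{u})).ToType := by
        rw [nonempty_toType_iff, opow_zero]
        exact one_ne_zero
      obtain ⟨z⟩ := hne
      have h2 := hfinA he1 i z
      have h3 : {j | z ∉ fib (A' (e1 j)) i} = Set.univ := by
        ext j
        refine ⟨fun _ => Set.mem_univ _, fun _ hx => ?_⟩
        have h4 : otp (fib (A' (e1 j)) i) < 1 := (hi j).trans_eq (opow_zero _)
        exact (type_eq_zero_iff_isEmpty.1 (lt_one_iff.1 h4)).false ⟨z, hx⟩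
      rw [h3] at h2
      exact infinite_univ h2
    · have key : ∀ ρ : Cardinal.{u}, ρ < κ →
          RankGE (succ h) (fun _ : ρ.ord.ToType => 1 + h) := by
        intro ρ hρ
        obtain ⟨e, he⟩ := hinj ρ hρ.le
        have hJ : #(ρ.ord.ToType) < κ := by rwa [hcardρ]
        obtain ⟨i, hi⟩ := hcommon hJ e
        exact rank_of_small hκ hκ1 hJ (fun _ => h + 1) (fun _ => 1 + h)
          (fun _ => by rw [add_assoc]) hZ (fun j => fib (A' (e j)) i) (hfinA he i) hi
      have h3 : ω ≤ h := by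
        by_contra h4
        rw [not_le] at h4
        obtain ⟨n, rfl⟩ := lt_omega0.1 h4
        apply not_rankGE_const_nat (J := (ℵ₀ : Cardinal.{u}).ord.ToType) (n + 1)
        have h5 : (succ (n : Ordinal.{u})) = ((n + 1 : ℕ) : Ordinal.{u}) := by
          rw [succ_eq_add_one]
          push_cast
          rfl
        have h6 : (1 + (n : Ordinal.{u})) = ((n + 1 : ℕ) : Ordinal.{u}) := by
          rw [Nat.add_comm n 1]
          push_cast
          rfl
        have h7 := key ℵ₀ hκ1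
        rw [h5, h6] at h7
        exact h7
      intro ρ hρ
      refine ⟨h, lt_succ h, ?_⟩
      have h2 := key ρ hρ
      rwa [one_add_of_omega0_le h3] at h2
    · rcases lt_or_ge ζ.cof κ with hcof | hcof
      · choose φ hφ1 hφ2 using fun j => exists_small_exponent hκ hζ hcof (A' j) (hA1 j)
        obtain ⟨f, hf, hfκ⟩ := exists_common_bound hκ hcard.ge hcof φ hφ1
        intro ρ hρ
        refine ⟨f, hf, ?_⟩
        obtain ⟨e⟩ : Nonempty (ρ.ord.ToType ↪ {j : κ.ord.ToType | φ j ≤ f}) := by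
          have h2 : #(ρ.ord.ToType) ≤ #{j : κ.ord.ToType | φ j ≤ f} := by
            rw [hcardρ]
            exact hρ.le.trans hfκ
          exact h2
        have hJ : #(ρ.ord.ToType) < κ := by rwa [hcardρ]
        have he : Function.Injective fun j => (e j).1 := Subtype.val_injective.comp e.injective
        obtain ⟨i, hi⟩ := exists_common_block hκ hJ
          (fun j => {i | κ.ord ^ f ≤ otp (fib (A' (e j).1) i)}) (fun j => by
            refine (mk_le_mk_of_subset ?_).trans_lt (hφ2 (e j).1)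
            intro i hi
            exact (opow_le_opow_right hκ0 (e j).2).trans hi)
        exact rank_of_small hκ hκ1 hJ (fun _ => f) (fun _ => f) (fun _ => one_add_le_add_one f)
          hZ (fun j => fib (A' (e j).1) i) (hfinA he i) (fun j => not_le.1 (hi j))
      · intro ρ hρ
        obtain ⟨e, he⟩ := hinj ρ hρ.le
        have hJ : #(ρ.ord.ToType) < κ := by rwa [hcardρ]
        obtain ⟨i, hi⟩ := hcommon hJ e
        have h2 : ∀ j, ∃ f < ζ, otp (fib (A' (e j)) i) < κ.ord ^ f := fun j =>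
          (lt_opow_of_isSuccLimit hκ0.ne' hζ).1 (hi j)
        choose φ hφ1 hφ2 using h2
        refine ⟨⨆ j, φ j, iSup_lt_of_lt_cof (hJ.trans_le hcof) hφ1, ?_⟩
        exact rank_of_small hκ hκ1 hJ (fun _ => ⨆ j, φ j) (fun _ => ⨆ j, φ j)
          (fun _ => one_add_le_add_one _) hZ (fun j => fib (A' (e j)) i) (hfinA he i)
          (fun j => (hφ2 j).trans_le (opow_le_opow_right hκ0 (Ordinal.le_iSup _ j)))
  · right
    refine ⟨hlim, ?_⟩
    have h2 : ∀ j, ∃ f < ξ, otp (A j) < κ.ord ^ f := fun j =>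
      (lt_opow_of_isSuccLimit hκ0.ne' hlim).1 (hA j)
    choose F hF1 hF2 using h2
    refine ⟨F, hF1, fun i η hη => ?_⟩
    exact rank_of_small hκ hκ1 (card_Iio_lt i) (fun j : Iio i => F j.1) (fun j => F j.1)
      (fun j => one_add_le_add_one _) (by rw [hB]; exact opow_le_opow_right hκ0 hη.le)
      (fun j => A j.1) (hfin' Subtype.val_injective) (fun j => hF2 j.1)

end IPath
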