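import Pool.Agent.Work.MP_820435_lc.Cls.Defs
import Pool.Agent.Work.MP_820435_lc.Cls.Forest
import Pool.Agent.Work.MP_820435_lc.Enum
import Pool.Agent.Work.MP_820435_lc.SumRel

/-!
# Almost covers give counterexamples
-/

open Ordinal Cardinal Set Order

universe u

namespace IPath

theorem neg_aux {κ : Cardinal.{u}} (hκ : κ.IsRegular) (hκ1 : ℵ₀ < κ)
    (hpow : ∀ ρ < κ, 2 ^ ρ ≤ κ) {e : Ordinal.{u}} {V X : Type u} [LinearOrder V]
    [WellFoundedLT V] [LinearOrder X] [WellFoundedLT X] (hVo : otp V = κ.ord)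
    (hXo : otp X = ω ^ e) (hXc : #X = κ) (A : V → Set X) (hA : ∀ j, otp (A j) < ω ^ e)
    (hfin : ∀ x, {j | x ∉ A j}.Finite) : ¬ PathRel (ω ^ e) := by
  classical
  have hVc : #V = κ := by
    have := congrArg Ordinal.card hVo
    rwa [card_type, card_ord] at this
  obtain ⟨f⟩ : Nonempty (V ≃ X) := Cardinal.eq.1 (hVc.trans hXc.symm)
  have hne : Nonempty V := by
    rw [← mk_ne_zero_iff, hVc]
    exact hκ.pos.ne'
  obtain ⟨z, B, hzB⟩ := exists_enumBdd hκ.aleph0_le hVo hpow
  set T : V → Set V := fun j => B j ∩ Iio (z j) with hT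
  set b : V → Finset V := fun v => (hfin (f v)).toFinset with hb
  set tk : V → List V := fun v =>
    ((b v).filter fun j => j < v ∧ z j ≤ v).toList.insertionSort (fun i j => z i ≤ z j) with htk
  have hmem : ∀ v j, j ∈ tk v ↔ (f v ∉ A j) ∧ j < v ∧ z j ≤ v := by
    intro v j
    simp only [htk, List.mem_insertionSort, Finset.mem_toList, Finset.mem_filter, hb,
      Finite.mem_toFinset, mem_ofPred_eq]
  have : Std.Total (fun i j : V => z i ≤ z j) := ⟨fun i j => le_total _ _⟩
  have : IsTrans V (fun i j : V => z i ≤ z j) := ⟨fun i j k h1 h2 => h1.trans h2⟩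
  obtain ⟨G, hG, hkill⟩ := exists_killing_graph tk z T (fun j x hx => hx.2)
    (fun v j hj => ((hmem v j).1 hj).2.2) (fun v => List.pairwise_insertionSort _ _)
    (fun v => (b v).card) (fun v => by
      simp only [htk, List.length_insertionSort, Finset.length_toList]
      exact Finset.card_filter_le _ _)
  intro hrel
  rcases hrel X hXo (G.comap f.symm) with ⟨S, hS1, hS2⟩ | hray
  · set Y : Set V := f ⁻¹' S with hY
    have hYind : ∀ x ∈ Y, ∀ y ∈ Y, ¬ G.Adj x y := by
      intro x hx y hy hadj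
      refine hS2 (f x) hx (f y) hy ?_
      simpa using hadj
    obtain ⟨h0, h, hcl⟩ := hkill Y hYind
    -- the closure point
    have hnat : #(ULift.{u} (ℕ × ℕ)) < κ := by
      refine lt_of_le_of_lt ?_ hκ1
      rw [mk_uLift]
      simp
    obtain ⟨k0, hk0⟩ := exists_gt_all hκ hVo (I := ULift.{u} (ℕ × ℕ)) hnat
      (fun p => h0 p.down.1 p.down.2)
    have hF : ∀ x : V, ∃ k, ∀ n l, h x n l < k := by
      intro x
      obtain ⟨k, hk⟩ := exists_gt_all hκ hVo (I := ULift.{u} (ℕ × ℕ)) hnat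
        (fun p => h x p.down.1 p.down.2)
      exact ⟨k, fun n l => hk ⟨(n, l)⟩⟩
    choose F hF using hF
    obtain ⟨g, ⟨a, ha⟩, hg⟩ := exists_closure_point hκ hκ1 hVo (fun x => max (F x) k0)
    have hg0 : k0 < g := (le_max_right _ _).trans_lt (hg a ha)
    obtain ⟨j, hj1, hj2⟩ := hzB g Y
    have hTj : T j = Y ∩ Iio g := by
      ext x
      simp only [hT, mem_inter_iff, mem_Iio, hj1]
      constructor
      · rintro ⟨h1, h2⟩
        exact ⟨(hj2 x h2).1 h1, h2⟩
      · rintro ⟨h1, h2⟩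
        exact ⟨(hj2 x h2).2 h1, h2⟩
    have hfinal := hcl g (fun n l => (hk0 ⟨(n, l)⟩).trans hg0)
      (fun x hx n l => (hF x n l).trans_le ((le_max_left _ _).trans (hg x hx).le)) j hTj hj1.le
    -- the set `S` is too small
    have hSsub : S ⊆ A j ∪ f '' Iic (max j g) := by
      intro s hs
      by_contra hcon
      rw [mem_union, not_or] at hcon
      obtain ⟨h1, h2⟩ := hcon
      have h3 : f.symm s ∈ Y := by
        show f (f.symm s) ∈ S
        rwa [Equiv.apply_symm_apply]
      refine hfinal _ h3 ((hmem _ _).2 ⟨?_, ?_, ?_⟩)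
      · rwa [Equiv.apply_symm_apply]
      · by_contra h4
        exact h2 ⟨f.symm s, (not_lt.1 h4).trans (le_max_left _ _), by simp⟩
      · rw [hj1]
        by_contra h4
        exact h2 ⟨f.symm s, (not_le.1 h4).le.trans (le_max_right _ _), by simp⟩
    have hsmall : otp (f '' Iic (max j g) : Set X) < ω ^ e := by
      have h1 : #(f '' Iic (max j g) : Set X) < κ :=
        mk_image_le.trans_lt (mk_Iic_lt' hκ.aleph0_le hVo _)
      by_contra h2
      rw [not_lt] at h2
      have h3 := Ordinal.card_le_card h2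
      rw [card_type, ← hXo, card_type, hXc] at h3
      exact absurd h1 (not_lt.2 h3)
    rcases cover_opow e S hS1.ge {x | x.1 ∈ A j} {x | x.1 ∈ f '' Iic (max j g)} (by
      rw [eq_univ_iff_forall]
      rintro ⟨x, hx⟩
      exact hSsub hx) with h1 | h1
    · rw [otp_subtype] at h1
      exact absurd (h1.trans (otp_set_mono inter_subset_right)) (not_le.2 (hA j))
    · rw [otp_subtype] at h1
      exact absurd (h1.trans (otp_set_mono inter_subset_right)) (not_le.2 hsmall)
  · exact hG (HasRay.of_comap f.symm.injective hray)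

/-- If `2 ^ ρ ≤ κ` for all `ρ < κ` and `ω ^ e`, of regular uncountable cardinality `κ`, is almost
covered by `κ` sets of smaller type, then the relation fails at `ω ^ e`. -/
theorem not_pathRel_of_almostCover {κ : Cardinal.{u}} (hκ : κ.IsRegular) (hκ1 : ℵ₀ < κ)
    (hpow : ∀ ρ < κ, 2 ^ ρ ≤ κ) {e : Ordinal.{u}} (hc : (ω ^ e : Ordinal.{u}).card = κ)
    (h : AlmostCover κ (ω ^ e)) : ¬ PathRel (ω ^ e) := by
  obtain ⟨A, hA, hfin⟩ := h
  exact neg_aux hκ hκ1 hpow (otp_toType _) (otp_toType _) (by rw [mk_toType, hc]) A hA hfin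

end IPath
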