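import Pool.Agent.Work.MP_820435_lc.Cls.NormDef

/-!
# Properties of the norm modulo the countable sets
-/

open Ordinal Cardinal Set Order

universe u

namespace IPath

variable {J : Type u} {η η' : Ordinal.{u}} {F F' : J → Ordinal.{u}}

theorem NormGE.step (h : NormGE η F) (hη : η' < η) :
    ∃ F' : J → Ordinal.{u}, {j | ¬ F' j < F j}.Countable ∧ NormGE η' F' := by
  obtain ⟨W, h1, h2⟩ := h
  obtain ⟨F', h3, h4⟩ := h2 _ h1 η' hη
  exact ⟨F', h4, W, h3, h2⟩

theorem normGE_iff : NormGE η F ↔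
    ∀ η' < η, ∃ F' : J → Ordinal.{u}, {j | ¬ F' j < F j}.Countable ∧ NormGE η' F' := by
  refine ⟨fun h η' hη => h.step hη, fun h2 => ?_⟩
  choose! F' hF' hR using h2
  refine ⟨{p | p = (η, F) ∨ NormGE p.1 p.2}, Or.inl rfl, ?_⟩
  rintro p (rfl | hp)
  · exact fun η' hη => ⟨F' η', Or.inr (hR η' hη), hF' η' hη⟩
  · exact fun η' hη => by
      obtain ⟨F'', h3, h4⟩ := hp.step hη
      exact ⟨F'', Or.inr h4, h3⟩

theorem NormGE.mono_left (h : NormGE η F) (hη : η' ≤ η) : NormGE η' F := by
  rw [normGE_iff] at h ⊢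
  exact fun ζ hζ => h ζ (hζ.trans_le hη)

theorem NormGE.mono (h : NormGE η F) (hF : {j | ¬ F j ≤ F' j}.Countable) : NormGE η F' := by
  rw [normGE_iff] at h ⊢
  intro η' hη
  obtain ⟨F'', h3, h4⟩ := h η' hη
  refine ⟨F'', (h3.union hF).mono fun j hj => ?_, h4⟩
  by_contra hcon
  simp only [mem_union, mem_ofPred_eq, not_or, not_not] at hcon
  exact hj (hcon.1.trans_le hcon.2)

theorem NormGE.comp {I : Type u} (h : NormGE η F) (e : I → J) (he : Function.Injective e) :
    NormGE η (F ∘ e) := by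
  induction η using WellFoundedLT.induction generalizing F with
  | _ η ih =>
    rw [normGE_iff] at h ⊢
    intro η' hη
    obtain ⟨F', h1, h2⟩ := h η' hη
    exact ⟨F' ∘ e, h1.preimage_of_injOn he.injOn, ih η' hη h2⟩

theorem normGE_of_color (c : J → ℕ) (h : ∀ n, NormGE η (fun j : {j // c j = n} => F j.1)) :
    NormGE η F := by
  induction η using WellFoundedLT.induction generalizing F with
  | _ η ih =>
    rw [normGE_iff]
    intro η' hη
    have h1 := fun n => (h n).step hη
    choose G hG hR using h1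
    refine ⟨fun j => G (c j) ⟨j, rfl⟩, ?_, ih η' hη fun n => ?_⟩
    · refine (Set.countable_iUnion fun n => (hG n).image Subtype.val).mono ?_
      intro j hj
      exact mem_iUnion.2 ⟨c j, ⟨j, rfl⟩, hj, rfl⟩
    · have : (fun j : {j // c j = n} => G (c j.1) ⟨j.1, rfl⟩) = G n := by
        funext j
        obtain ⟨j, rfl⟩ := j
        rfl
      rw [this]
      exact hR n

theorem normGE_iUnion (T : ℕ → Set J) (hT : ⋃ n, T n = Set.univ)
    (h : ∀ n, NormGE η (fun j : T n => F j.1)) : NormGE η F := by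
  have h1 : ∀ j, ∃ n, j ∈ T n := fun j => mem_iUnion.1 (hT ▸ mem_univ j)
  choose c hc using h1
  refine normGE_of_color c fun n => ?_
  exact (h n).comp (fun j : {j // c j = n} => (⟨j.1, by have := hc j.1; rwa [j.2] at this⟩ : T n))
    fun a b hab => Subtype.ext (by simpa using hab)

theorem normGE_of_countable [Countable J] (η : Ordinal.{u}) (F : J → Ordinal.{u}) :
    NormGE η F :=
  ⟨Set.univ, mem_univ _, fun _ _ _ _ => ⟨fun _ => 0, mem_univ _, Set.to_countable _⟩⟩

theorem normGE_limit {ξ : Ordinal.{u}} (hξ : IsSuccLimit ξ) (h : ∀ η < ξ, NormGE η F) :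
    NormGE ξ F := by
  rw [normGE_iff]
  exact fun η' hη => (h (succ η') (hξ.succ_lt hη)).step (lt_succ η')

theorem RankGE.normGE (h : RankGE η F) : NormGE η F := by
  induction η using WellFoundedLT.induction generalizing F with
  | _ η ih =>
    rw [normGE_iff]
    intro η' hη
    obtain ⟨F', h1, h2⟩ := h.step hη
    refine ⟨F', h.finite.countable.mono fun j hj => ?_, ih η' hη h2⟩
    rcases h1 j with h3 | ⟨-, h3⟩
    · exact absurd h3 hj
    · exact h3

end IPath
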