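import Pool.Agent.Work.MP_820435_lc.Cls.Defs

/-!
# The norm modulo the countable sets
-/

open Ordinal Cardinal Set Order

universe u

namespace IPath

/-- The (Galvin-Hajnal) norm of `F : J → Ord` modulo the countable sets is at least `η`: for every
`η' < η` there is `F'` of norm at least `η'` with `F' j < F j` for all but countably many `j`. -/
def NormGE {J : Type u} (η : Ordinal.{u}) (F : J → Ordinal.{u}) : Prop :=
  ∃ W : Set (Ordinal.{u} × (J → Ordinal.{u})), (η, F) ∈ W ∧ ∀ p ∈ W, ∀ η' < p.1,
    ∃ F' : J → Ordinal.{u}, (η', F') ∈ W ∧ {j | ¬ F' j < p.2 j}.Countable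

end IPath
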