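import Pool.Agent.Work.MP_820435_lc.Cls.Norm

/-!
# Division of the norm by a regular cardinal
-/

open Ordinal Cardinal Set Order

universe u

namespace IPath

variable {J : Type u} {η : Ordinal.{u}} {F : J → Ordinal.{u}}

/-- The norm on a subset. -/
def NormOn (S : Set J) (η : Ordinal.{u}) (F : J → Ordinal.{u}) : Prop :=
  NormGE η (fun j : S => F j.1)

theorem NormOn.subset {S T : Set J} (h : NormOn T η F) (hST : S ⊆ T) : NormOn S η F :=
  NormGE.comp h (fun j : S => (⟨j.1, hST j.2⟩ : T)) fun a b hab => by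
    apply Subtype.ext
    exact congrArg (fun z : T => z.1) hab

theorem normOn_iUnion (T : ℕ → Set J) (h : ∀ n, NormOn (T n) η F) : NormOn (⋃ n, T n) η F := by
  refine normGE_iUnion (J := (⋃ n, T n : Set J)) (fun n => {j | j.1 ∈ T n}) ?_ fun n => ?_
  · ext j
    have := j.2
    simp only [mem_iUnion, mem_ofPred_eq, mem_univ, iff_true] at this ⊢
    exact this
  · refine NormGE.comp (h n)
      (fun j : {j : (⋃ n, T n : Set J) | j.1 ∈ T n} => (⟨j.1.1, j.2⟩ : T n)) fun a b hab => ?_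
    apply Subtype.ext
    apply Subtype.ext
    exact congrArg (fun z : T n => z.1) hab

theorem normOn_union {S T : Set J} (h1 : NormOn S η F) (h2 : NormOn T η F) :
    NormOn (S ∪ T) η F := by
  have h := normOn_iUnion (fun n : ℕ => if n = 0 then S else T) (η := η) (F := F) fun n => by
    split
    · exact h1
    · exact h2
  refine h.subset ?_
  rintro j (hj | hj)
  · exact mem_iUnion.2 ⟨0, by simpa using hj⟩
  · exact mem_iUnion.2 ⟨1, by simpa using hj⟩

theorem normOn_of_countable {S : Set J} (hS : S.Countable) : NormOn S η F := by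
  have := hS.to_subtype
  exact normGE_of_countable η _

theorem normGE_of_forall_succ (h : ∀ ζ < η, NormGE (ζ + 1) F) : NormGE η F :=
  normGE_iff.2 fun ζ hζ => (normGE_iff.1 (h ζ hζ)) ζ (lt_add_one ζ)

theorem normGE_add_one {F' : J → Ordinal.{u}} (h : NormGE η F')
    (hF : {j | ¬ F' j < F j}.Countable) : NormGE (η + 1) F :=
  normGE_iff.2 fun _ hζ => ⟨F', hF, NormGE.mono_left h (lt_add_one_iff.1 hζ)⟩

theorem mk_lt_of_hpow {ν : Cardinal.{u}} (hν : ν.IsRegular) (hpow : ∀ μ < ν, μ ^ #J < ν) :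
    #J < ν := by
  have h2 : (2 : Cardinal.{u}) < ν := (natCast_lt_aleph0 (n := 2)).trans_le hν.aleph0_le
  exact (cantor #J).trans (hpow 2 h2)

theorem div_aux {ν : Cardinal.{u}} (hν : ν.IsRegular) (hpow : ∀ μ < ν, μ ^ #J < ν)
    (ζ : Ordinal.{u}) : ∀ (S : Set J) (Z Y : J → Ordinal.{u}), (∀ j, Y j < ν.ord) →
      NormOn S (ν.ord * (ζ + 1)) (fun j => ν.ord * Z j + Y j) → NormOn S (ζ + 1) Z := by
  have hν0 : ν.ord ≠ 0 := hν.ord_pos.ne'
  have hlim : IsSuccLimit ν.ord := isSuccLimit_ord hν.aleph0_le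
  have hJ : #J < ν := mk_lt_of_hpow hν hpow
  induction ζ using WellFoundedLT.induction with
  | _ ζ ih =>
  intro S Z Y hY h
  by_contra hcon
  have step : ∀ (T : Set J) (Y' : J → Ordinal.{u}), T ⊆ S → (∀ j, Y' j < ν.ord) →
      NormOn (S \ T) (ζ + 1) Z → NormOn T (ν.ord * (ζ + 1)) (fun j => ν.ord * Z j + Y' j) →
      ∃ (T' : Set J) (Y'' : J → Ordinal.{u}), T' ⊆ T ∧ (∀ j, Y'' j < ν.ord) ∧
        NormOn (S \ T') (ζ + 1) Z ∧ NormOn T' (ν.ord * (ζ + 1)) (fun j => ν.ord * Z j + Y'' j) ∧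
        ∀ j ∈ T', Y'' j < Y' j := by
    intro T Y' hTS hY' hI hT
    obtain ⟨y, hy, hyY⟩ : ∃ y < ν.ord, ∀ j, Y' j ≤ y :=
      ⟨⨆ j, Y' j, iSup_lt_of_lt_cof (by rwa [hν.cof_ord]) hY', fun j => Ordinal.le_iSup Y' j⟩
    have h1 : ∀ x : ν.ord.ToType, ∃ G : J → Ordinal.{u},
        {j : J | j ∈ T ∧ ¬ G j < ν.ord * Z j + Y' j}.Countable ∧
          NormOn T (ν.ord * ζ + (ToType.mk.symm x).1) G := by
      intro x
      obtain ⟨G, hG1, hG2⟩ := normGE_iff.1 hT (ν.ord * ζ + (ToType.mk.symm x).1) (by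
        rw [mul_add, mul_one]
        exact add_lt_add_right (ToType.mk.symm x).2 _)
      classical
      refine ⟨fun j => if h : j ∈ T then G ⟨j, h⟩ else 0, ?_, ?_⟩
      · refine (hG1.image Subtype.val).mono ?_
        rintro j ⟨hj, hj'⟩
        beta_reduce at hj'
        rw [dif_pos hj] at hj'
        exact ⟨⟨j, hj⟩, hj', rfl⟩
      · have he : (fun j : T => if h : j.1 ∈ T then G ⟨j.1, h⟩ else 0) = G := by
          funext j
          rw [dif_pos j.2]
        show NormGE _ (fun j : T => if h : j.1 ∈ T then G ⟨j.1, h⟩ else 0)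
        rw [he]
        exact hG2
    choose G hG1 hG2 using h1
    let A : ν.ord.ToType → Set J := fun x =>
      {j | j ∈ T ∧ G x j < ν.ord * Z j + Y' j ∧ G x j / ν.ord = Z j}
    have hA : ∀ x j, j ∈ A x ↔ j ∈ T ∧ G x j < ν.ord * Z j + Y' j ∧ G x j / ν.ord = Z j :=
      fun x j => Iff.rfl
    have hAY : ∀ x, ∀ j ∈ A x, G x j % ν.ord < Y' j := by
      rintro x j ⟨-, h2, h3⟩
      have h4 : G x j = ν.ord * Z j + G x j % ν.ord := by
        conv_lhs => rw [← div_add_mod (G x j) ν.ord, h3]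
      rw [h4] at h2
      exact (add_lt_add_iff_left _).1 h2
    -- the complement of `A x` is in the ideal
    have hB : ∀ x, NormOn (S \ A x) (ζ + 1) Z := by
      intro x
      have h2 : NormOn {j | j ∈ T ∧ G x j / ν.ord < Z j} (ζ + 1) Z := by
        refine normGE_add_one (η := ζ) (F' := fun j => G x j.1 / ν.ord) ?_ ?_
        · refine normGE_of_forall_succ fun ζ' hζ' => ?_
          refine ih ζ' hζ' {j | j ∈ T ∧ G x j / ν.ord < Z j} (fun j => G x j / ν.ord)
            (fun j => G x j % ν.ord) (fun j => mod_lt _ hν0) ?_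
          have h3 : (fun j : J => ν.ord * (G x j / ν.ord) + G x j % ν.ord) = G x := by
            funext j
            exact div_add_mod _ _
          rw [h3]
          refine NormGE.mono_left ((hG2 x).subset fun j hj => hj.1) ?_
          refine le_trans ?_ le_self_add
          exact mul_le_mul_right (add_one_le_of_lt hζ') _
        · convert Set.countable_empty
          rw [eq_empty_iff_forall_notMem]
          intro j hj
          exact hj j.2.2
      refine (normOn_union (normOn_union hI h2) (normOn_of_countable (hG1 x))).subset ?_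
      rintro j ⟨hj, hj'⟩
      by_cases hjT : j ∈ T
      · by_cases h3 : G x j < ν.ord * Z j + Y' j
        · left
          right
          refine ⟨hjT, lt_of_le_of_ne ?_ fun h4 => hj' ⟨hjT, h3, h4⟩⟩
          rw [← lt_add_one_iff, ← lt_mul_iff_div_lt hν0, mul_add, mul_one]
          exact h3.trans (add_lt_add_right (hY' j) _)
        · exact Or.inr ⟨hjT, h3⟩
      · exact Or.inl (Or.inl ⟨hj, hjT⟩)
    -- the codes
    have hy1 : ∀ x, ∀ j ∈ A x, G x j % ν.ord + 1 < y + 1 := by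
      intro x j hj
      have h2 : G x j % ν.ord + 1 ≤ y := add_one_le_of_lt ((hAY x j hj).trans_le (hyY j))
      exact lt_add_one_iff.2 h2
    have h0 : (0 : Ordinal.{u}) < y + 1 := by
      rw [← succ_eq_add_one]
      exact bot_lt_iff_ne_bot.2 (succ_ne_bot y)
    classical
    let c : ν.ord.ToType → J → (y + 1).ToType := fun x j =>
      if h : j ∈ A x then ToType.mk ⟨G x j % ν.ord + 1, hy1 x j h⟩ else ToType.mk ⟨0, h0⟩
    have hc1 : ∀ x j (h : j ∈ A x), c x j = ToType.mk ⟨G x j % ν.ord + 1, hy1 x j h⟩ :=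
      fun x j h => dif_pos h
    have hc2 : ∀ x j, j ∉ A x → c x j = ToType.mk ⟨0, h0⟩ := fun x j h => dif_neg h
    have hcode : ∀ x x', c x = c x' → ∀ j ∈ A x, j ∈ A x' ∧ G x j % ν.ord = G x' j % ν.ord := by
      intro x x' he j hj
      have h2 : c x j = c x' j := congrFun he j
      rw [hc1 x j hj] at h2
      by_cases hj' : j ∈ A x'
      · rw [hc1 x' j hj'] at h2
        have h3 := congrArg Subtype.val (ToType.mk.injective h2)
        refine ⟨hj', ?_⟩
        have h4 : G x j % ν.ord + 1 = G x' j % ν.ord + 1 := h3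
        rw [← succ_eq_add_one, ← succ_eq_add_one] at h4
        exact succ_injective h4
      · rw [hc2 x' j hj'] at h2
        have h3 : G x j % ν.ord + 1 = 0 := congrArg Subtype.val (ToType.mk.injective h2)
        rw [← succ_eq_add_one] at h3
        exact absurd h3 (succ_ne_bot _)
    obtain ⟨d, hd⟩ := infinite_pigeonhole c (by rw [mk_toType, card_ord]; exact hν.aleph0_le) (by
      rw [mk_toType, card_ord, hν.cof_ord, ← power_def, mk_toType]
      refine hpow _ ?_
      rw [← lt_ord]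
      exact hlim.add_one_lt hy)
    rw [mk_toType, card_ord] at hd
    have hne : (c ⁻¹' {d}).Nonempty := by
      rw [nonempty_iff_ne_empty]
      rintro h2
      rw [h2, Cardinal.mk_eq_zero] at hd
      exact hν.pos.ne hd
    obtain ⟨x₀, hx₀⟩ := hne
    have hx₀' : c x₀ = d := hx₀
    have hunb : ∀ x : ν.ord.ToType, ∃ x' ∈ c ⁻¹' {d}, x ≤ x' := by
      intro x
      by_contra! h2
      have h3 : #(c ⁻¹' {d} : Set ν.ord.ToType) ≤ #(Iio x) := mk_le_mk_of_subset fun z hz => h2 z hz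
      rw [hd] at h3
      have h6 := mk_Iio_lt x (by rw [mk_toType, card_ord, type_toType])
      rw [mk_toType, card_ord] at h6
      exact absurd h3 (not_le.2 h6)
    refine ⟨A x₀, fun j => if j ∈ A x₀ then G x₀ j % ν.ord else 0, fun j hj => hj.1, fun j => ?_,
      hB x₀, ?_, fun j hj => ?_⟩
    · dsimp only
      split
      · exact mod_lt _ hν0
      · exact hν.ord_pos
    · have hτ : ∀ τ < ν.ord * ζ + ν.ord, NormOn (A x₀) τ
          (fun j => ν.ord * Z j + if j ∈ A x₀ then G x₀ j % ν.ord else 0) := by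
        intro τ hτ
        obtain ⟨x, hx⟩ : ∃ x : ν.ord.ToType, τ ≤ ν.ord * ζ + (ToType.mk.symm x).1 := by
          rcases lt_or_ge τ (ν.ord * ζ) with h2 | h2
          · exact ⟨x₀, h2.le.trans le_self_add⟩
          · refine ⟨ToType.mk ⟨τ - ν.ord * ζ, ?_⟩, ?_⟩
            · rw [mem_Iio, ← add_lt_add_iff_left (ν.ord * ζ), Ordinal.add_sub_cancel_of_le h2]
              exact hτ
            · rw [OrderIso.symm_apply_apply, Ordinal.add_sub_cancel_of_le h2]
        obtain ⟨x', hx', hxx'⟩ := hunb x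
        have hx'' : c x₀ = c x' := hx₀'.trans (show c x' = d from hx').symm
        have h2 : NormOn (A x₀) (ν.ord * ζ + (ToType.mk.symm x').1) (G x') :=
          (hG2 x').subset fun j hj => hj.1
        have h3 : (fun j : A x₀ => G x' j.1) = fun j : A x₀ =>
            ν.ord * Z j.1 + if j.1 ∈ A x₀ then G x₀ j.1 % ν.ord else 0 := by
          funext j
          obtain ⟨h4, h5⟩ := hcode x₀ x' hx'' j.1 j.2
          rw [if_pos j.2, h5, ← h4.2.2]
          exact (div_add_mod _ _).symm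
        show NormGE τ (fun j : A x₀ => ν.ord * Z j.1 + if j.1 ∈ A x₀ then G x₀ j.1 % ν.ord else 0)
        rw [← h3]
        refine NormGE.mono_left h2 (hx.trans ?_)
        gcongr
      have h2 : ν.ord * (ζ + 1) = ν.ord * ζ + ν.ord := by rw [mul_add, mul_one]
      rw [h2]
      exact normGE_limit (isSuccLimit_add _ hlim) hτ
    · dsimp only
      rw [if_pos hj]
      exact hAY x₀ j hj
  -- the sequence
  let Q := {p : Set J × (J → Ordinal.{u}) // p.1 ⊆ S ∧ (∀ j, p.2 j < ν.ord) ∧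
    NormOn (S \ p.1) (ζ + 1) Z ∧ NormOn p.1 (ν.ord * (ζ + 1)) fun j => ν.ord * Z j + p.2 j}
  have hstep : ∀ q : Q, ∃ q' : Q, q'.1.1 ⊆ q.1.1 ∧ ∀ j ∈ q'.1.1, q'.1.2 j < q.1.2 j := by
    rintro ⟨⟨T, Y'⟩, h1, h2, h3, h4⟩
    obtain ⟨T', Y'', h5, h6, h7, h8, h9⟩ := step T Y' h1 h2 h3 h4
    exact ⟨⟨⟨T', Y''⟩, h5.trans h1, h6, h7, h8⟩, h5, h9⟩
  choose f hf1 hf2 using hstep
  let q₀ : Q := ⟨⟨S, Y⟩, subset_rfl, hY, by
    show NormOn (S \ S) (ζ + 1) Z
    rw [Set.sdiff_self]
    exact normOn_of_countable countable_empty, h⟩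
  let s : ℕ → Q := fun n => Nat.rec q₀ (fun _ q => f q) n
  have hs : ∀ n, s (n + 1) = f (s n) := fun n => rfl
  have hne : (⋂ n, (s n).1.1).Nonempty := by
    rw [nonempty_iff_ne_empty]
    intro h1
    apply hcon
    have h2 := normOn_iUnion (fun n => S \ (s n).1.1) (η := ζ + 1) (F := Z) fun n => (s n).2.2.2.1
    rwa [← Set.sdiff_iInter, h1, Set.sdiff_empty] at h2
  obtain ⟨j, hj⟩ := hne
  obtain ⟨n, hn⟩ := WellFounded.not_rel_apply_succ (r := (· < ·)) (fun n => (s n).1.2 j)
  exact hn (hf2 (s n) j (mem_iInter.1 hj (n + 1)))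

theorem NormGE.div {ν : Cardinal.{u}} (hν : ν.IsRegular)
    (hpow : ∀ μ < ν, μ ^ #J < ν) {ζ y : Ordinal.{u}} {Z Y : J → Ordinal.{u}} (hy : y < ν.ord)
    (hY : ∀ j, Y j ≤ y) (h : NormGE (ν.ord * (ζ + 1)) (fun j => ν.ord * Z j + Y j)) :
    NormGE (ζ + 1) Z := by
  have h1 : NormOn Set.univ (ν.ord * (ζ + 1)) (fun j => ν.ord * Z j + Y j) :=
    NormGE.comp h (fun j : (Set.univ : Set J) => j.1) Subtype.val_injective
  have h2 := div_aux hν hpow ζ Set.univ Z Y (fun j => (hY j).trans_lt hy) h1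
  exact NormGE.comp h2 (fun j => ⟨j, mem_univ j⟩) fun a b hab =>
    congrArg (fun z : (Set.univ : Set J) => z.1) hab

end IPath
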