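import Pool.Agent.Work.MP_820435_lc.Cls.Defs

/-!
# Splitting well-orders into pieces and ordered sums of pieces
-/

open Ordinal Cardinal Set Order

universe u

namespace IPath

section
variable {B K : Type u} [LinearOrder B] [WellFoundedLT B] [LinearOrder K] [WellFoundedLT K]

/-- An ordered sum of pieces of type at most `t`. -/
theorem otp_le_mul {t : Ordinal.{u}} (r : B → K) (hr : Monotone r) (A : Set B)
    (h : ∀ i, otp (A ∩ r ⁻¹' {i} : Set B) ≤ t) : otp A ≤ t * otp K := by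
  have h' : ∀ i, ∃ f : (A ∩ r ⁻¹' {i} : Set B) → t.ToType, StrictMono f := fun i =>
    exists_strictMono_of_otp_le ((h i).trans_eq (otp_toType t).symm)
  choose f hf using h'
  have h2 : t * otp K = otp (K ×ₗ t.ToType) := by rw [otp_prodLex, otp_toType]
  rw [h2]
  refine otp_le_of_strictMono (fun a : A => toLex (r a.1, f (r a.1) ⟨a.1, a.2, rfl⟩)) ?_
  intro a b hab
  rcases (hr (le_of_lt hab)).lt_or_eq with h1 | h1
  · exact Prod.Lex.lt_iff.2 (Or.inl h1)
  · refine Prod.Lex.lt_iff.2 (Or.inr ⟨h1, ?_⟩)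
    have key : ∀ (i : K) (ha : a.1 ∈ A ∩ r ⁻¹' {i}) (hb : b.1 ∈ A ∩ r ⁻¹' {r b.1}), i = r b.1 →
        f i ⟨a.1, ha⟩ < f (r b.1) ⟨b.1, hb⟩ := by
      rintro i ha hb rfl
      exact hf _ hab
    exact key _ _ _ h1

/-- If all proper initial segments have type less than `t`, the type is at most `t`. -/
theorem otp_le_of_Iio {t : Ordinal.{u}} (h : ∀ a : B, otp (Iio a) < t) : otp B ≤ t := by
  by_contra hcon
  rw [not_le] at hcon
  obtain ⟨a, ha⟩ := typein_surj (· < · : B → B → Prop) hcon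
  have h1 : otp (Iio a) = t := by rw [← ha]; rfl
  exact (h a).ne h1

theorem otp_Iio_lt (a : B) : otp (Iio a) < otp B := by
  have h1 : otp (Iio a) = typein (· < · : B → B → Prop) a := rfl
  rw [h1]
  exact typein_lt_type _ a

/-- The points whose position is below `t`. -/
theorem otp_setOf_lt_le (t : Ordinal.{u}) : otp {b : B | otp (Iio b) < t} ≤ t := by
  have h1 : ∀ b : B, otp (Iio b) = typein (· < · : B → B → Prop) b := fun _ => rfl
  have h2 : otp {b : B | otp (Iio b) < t} ≤ otp t.ToType := by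
    refine otp_le_of_strictMono (fun b => ToType.mk ⟨otp (Iio b.1), b.2⟩) ?_
    intro a b hab
    apply ToType.mk.strictMono
    change otp (Iio a.1) < otp (Iio b.1)
    rw [h1, h1, typein_lt_typein]
    exact hab
  rwa [otp_toType] at h2

theorem otp_Iio_mono {a b : B} (h : a ≤ b) : otp (Iio a) ≤ otp (Iio b) :=
  otp_set_mono (Iio_subset_Iio h)

end

theorem one_lt_ord {κ : Cardinal.{u}} (hκ : κ.IsRegular) : 1 < κ.ord := by
  rw [lt_ord, card_one]
  exact one_lt_aleph0.trans_le hκ.aleph0_le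

theorem isSuccLimit_ord' {κ : Cardinal.{u}} (hκ : κ.IsRegular) : IsSuccLimit κ.ord :=
  isSuccLimit_ord hκ.aleph0_le

/-- C4a: splitting a well-order of type at most `κ ^ ξ`. -/
theorem exists_pieces {κ : Cardinal.{u}} (hκ : κ.IsRegular) (_hκ1 : ℵ₀ < κ) {ξ : Ordinal.{u}}
    (hξ0 : ξ ≠ 0) (hξ : ξ.card ≤ κ) {B : Type u} [LinearOrder B] [WellFoundedLT B]
    (hB : otp B ≤ κ.ord ^ ξ) :
    ∃ r : B → κ.ord.ToType, Monotone r ∧ ∀ i, ∃ ξ' < ξ, otp (r ⁻¹' {i}) ≤ κ.ord ^ ξ' := by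
  rcases zero_or_succ_or_isSuccLimit ξ with rfl | ⟨ξ', rfl⟩ | hlim
  · exact absurd rfl hξ0
  · have h1 : otp B ≤ otp (κ.ord.ToType ×ₗ (κ.ord ^ ξ').ToType) := by
      rw [otp_prodLex, otp_toType, otp_toType, ← Ordinal.opow_succ]
      exact hB
    obtain ⟨f, hf⟩ := exists_strictMono_of_otp_le h1
    refine ⟨fun b => (ofLex (f b)).1, ?_, ?_⟩
    · intro a b hab
      exact Prod.Lex.monotone_fst _ _ (hf.monotone hab)
    · intro i
      refine ⟨ξ', lt_succ ξ', ?_⟩
      have h2 : otp ((fun b => (ofLex (f b)).1) ⁻¹' {i}) ≤ otp (κ.ord ^ ξ').ToType := by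
        refine otp_le_of_strictMono (fun b => (ofLex (f b.1)).2) ?_
        intro a b hab
        have h3 : f a.1 < f b.1 := hf hab
        rcases Prod.Lex.lt_iff.1 h3 with h4 | ⟨_, h4⟩
        · have ha : (ofLex (f a.1)).1 = i := a.2
          have hb : (ofLex (f b.1)).1 = i := b.2
          rw [ha, hb] at h4
          exact absurd h4 (lt_irrefl _)
        · exact h4
      rwa [otp_toType] at h2
  · have hne : Nonempty (Iio ξ) := ⟨⟨0, pos_iff_ne_zero.2 hξ0⟩⟩
    have hcard : #(ξ.ToType) ≤ #(κ.ord.ToType) := by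
      rw [mk_toType, mk_toType, card_ord]
      exact hξ
    obtain ⟨g⟩ := hcard
    have hne2 : Nonempty ξ.ToType := by
      rwa [nonempty_toType_iff] 
    obtain ⟨e, he⟩ : ∃ e : κ.ord.ToType → ξ.ToType, Function.Surjective e :=
      ⟨Function.invFun g, Function.invFun_surjective g.injective⟩
    have hκ0 : κ.ord ≠ 0 := hκ.ord_pos.ne'
    have h1 : ∀ b : B, ∃ i : κ.ord.ToType, otp (Iio b) < κ.ord ^ ((e i : ξ.ToType) : Ordinal.{u}) := by
      intro b
      have h2 : otp (Iio b) < κ.ord ^ ξ := (otp_Iio_lt b).trans_le hB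
      rw [lt_opow_of_isSuccLimit hκ0 hlim] at h2
      obtain ⟨c, hc, h3⟩ := h2
      obtain ⟨i, hi⟩ := he (ToType.mk ⟨c, hc⟩)
      refine ⟨i, ?_⟩
      rw [hi]
      simpa using h3
    refine ⟨fun b => wellFounded_lt.min _ (h1 b), ?_, ?_⟩
    · intro a b hab
      apply not_lt.1
      apply wellFounded_lt.not_lt_min
      exact (otp_Iio_mono hab).trans_lt (wellFounded_lt.min_mem _ (h1 b))
    · intro i
      refine ⟨_, mem_Iio.1 (e i).toOrd.2, ?_⟩
      refine (otp_set_mono ?_).trans (otp_setOf_lt_le _)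
      rintro b rfl
      exact wellFounded_lt.min_mem _ (h1 b)

/-- A bounded ordered sum of small pieces is small. -/
theorem otp_lt_of_pieces {κ : Cardinal.{u}} (hκ : κ.IsRegular) {g : Ordinal.{u}}
    {B : Type u} [LinearOrder B] [WellFoundedLT B] (r : B → κ.ord.ToType) (hr : Monotone r)
    (A : Set B) (i0 : κ.ord.ToType) (hA : ∀ a ∈ A, r a ≤ i0)
    (h : ∀ i ≤ i0, otp (A ∩ r ⁻¹' {i} : Set B) < κ.ord ^ (g + 1)) :
    otp A < κ.ord ^ (g + 1) := by
  have hκ0 : 0 < κ.ord := hκ.ord_pos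
  have hlim := isSuccLimit_ord' hκ
  have hI : #(Iic i0) < κ := by
    have h1 : #(Iio i0) < κ := by
      have h2 := mk_Iio_lt i0 (by rw [mk_toType, card_ord, type_toType])
      rwa [mk_toType, card_ord] at h2
    have h2 : Iic i0 = insert i0 (Iio i0) := by
      ext a
      simp [le_iff_eq_or_lt]
    rw [h2]
    exact mk_insert_le.trans_lt (add_lt_of_lt hκ.aleph0_le h1 (one_lt_aleph0.trans_le hκ.aleph0_le))
  have h3 : ∀ i : Iic i0, ∃ d < κ.ord, otp (A ∩ r ⁻¹' {i.1} : Set B) < κ.ord ^ g * d := by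
    intro i
    have h4 := h i.1 i.2
    rw [opow_add_one, lt_mul_iff_of_isSuccLimit hlim] at h4
    exact h4
  choose d hd1 hd2 using h3
  have h5 : (⨆ i : Iic i0, d i + 1) < κ.ord :=
    iSup_add_one_lt_of_lt_cof (by rwa [hκ.cof_ord]) hd1
  set δ := ⨆ i : Iic i0, d i + 1 with hδ
  -- the set as a subset of the preimage of `Iic i0`
  have h6 : otp A ≤ (κ.ord ^ g * δ) * otp (Iic i0) := by
    have h7 := otp_le_mul (B := A) (K := Iic i0) (t := κ.ord ^ g * δ)
      (fun a => ⟨r a.1, hA a.1 a.2⟩) (fun a b hab => hr hab) Set.univ (fun i => by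
        have h8 : otp (Set.univ ∩ (fun a : A => (⟨r a.1, hA a.1 a.2⟩ : Iic i0)) ⁻¹' {i} : Set A) ≤
            otp (A ∩ r ⁻¹' {i.1} : Set B) := by
          refine otp_le_of_strictMono (fun a => ⟨a.1.1, a.1.2, congrArg Subtype.val a.2.2⟩) ?_
          intro a b hab
          exact hab
        refine h8.trans ((hd2 i).le.trans ?_)
        exact mul_le_mul_right ((le_add_of_nonneg_right zero_le_one).trans (Ordinal.le_iSup _ i)) _)
    rwa [otp_univ] at h7
  refine h6.trans_lt ?_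
  rw [opow_add_one, mul_assoc]
  refine mul_lt_mul_of_pos_left ?_ (opow_pos _ hκ0)
  rw [lt_ord, card_mul]
  refine mul_lt_of_lt hκ.aleph0_le ?_ ?_
  · rw [← lt_ord]
    exact h5
  · rwa [card_type]

/-- C4b: the sum of `κ` small pieces. -/
theorem otp_le_of_pieces {κ : Cardinal.{u}} (hκ : κ.IsRegular) (_hκ1 : ℵ₀ < κ) {g : Ordinal.{u}}
    {B : Type u} [LinearOrder B] [WellFoundedLT B] (r : B → κ.ord.ToType) (hr : Monotone r)
    (A : Set B) (h : ∀ i, otp (A ∩ r ⁻¹' {i} : Set B) < κ.ord ^ (g + 1)) :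
    otp A ≤ κ.ord ^ (g + 1) := by
  refine otp_le_of_Iio fun a => ?_
  have h1 : otp (Iio a) ≤ otp (A ∩ Iio a.1 : Set B) := by
    refine otp_le_of_strictMono (fun b => ⟨b.1.1, b.1.2, b.2⟩) ?_
    intro b c hbc
    exact hbc
  refine h1.trans_lt (otp_lt_of_pieces hκ r hr _ (r a.1) ?_ ?_)
  · rintro b ⟨_, hb⟩
    exact hr (le_of_lt hb)
  · intro i _
    refine (otp_set_mono ?_).trans_lt (h i)
    rintro b ⟨⟨hb1, _⟩, hb2⟩
    exact ⟨hb1, hb2⟩

end IPath
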