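import Pool.Agent.Work.MP_820435_lc.Cls.RankOps

/-!
# The rank of `b + ν` through canonical functions
-/

open Ordinal Cardinal Set Order

universe u

namespace IPath

theorem exists_canonical {ν : Cardinal.{u}} (hν : ν.IsRegular) {b b' : Ordinal.{u}}
    (h1 : RankGE b' (fun _ : ν.ord.ToType => b)) (β : Ordinal.{u}) (hβ : β.card ≤ ν)
    (h2 : ∀ ρ < ν, RankGE (b' + β) (fun _ : ρ.ord.ToType => b)) :
    ∃ f : ν.ord.ToType → Ordinal.{u}, (∀ j, f j < ν.ord) ∧
      RankGE (b' + β) (fun j => b + f j) := by
  have hcard : #(ν.ord.ToType) = ν := by rw [mk_toType, card_ord]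
  have hinf : Infinite ν.ord.ToType := by
    rw [infinite_iff, hcard]
    exact hν.aleph0_le
  have hb : b ≠ 0 := by
    rintro rfl
    have h3 := h1.finite
    have h4 : {j : ν.ord.ToType | (0 : Ordinal.{u}) = 0} = Set.univ := by
      ext j
      simp
    rw [h4] at h3
    exact infinite_univ h3
  induction β using WellFoundedLT.induction with
  | _ β ih =>
    rcases eq_or_ne β 0 with rfl | hβ0
    · exact ⟨fun _ => 0, fun _ => hν.ord_pos, by simpa using h1⟩
    have h3 : ∀ x : β.ToType, ∃ f : ν.ord.ToType → Ordinal.{u}, (∀ j, f j < ν.ord) ∧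
        RankGE (b' + (x.toOrd : Ordinal.{u})) (fun j => b + f j) := by
      intro x
      have hx : (x.toOrd : Ordinal.{u}) < β := mem_Iio.1 x.toOrd.2
      refine ih _ hx ((card_le_card hx.le).trans hβ) fun ρ hρ => (h2 ρ hρ).mono_left ?_
      gcongr
    choose g hg1 hg2 using h3
    have hle : #(β.ToType) ≤ #(ν.ord.ToType) := by
      rw [mk_toType, hcard]
      exact hβ
    obtain ⟨emb⟩ := hle
    have hne : Nonempty β.ToType := by rwa [nonempty_toType_iff]
    obtain ⟨e, he⟩ : ∃ e : ν.ord.ToType → β.ToType, Function.Surjective e :=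
      ⟨Function.invFun emb, Function.invFun_surjective emb.injective⟩
    have hIio : ∀ j : ν.ord.ToType, #(Iio j) < ν := by
      intro j
      have h6 := mk_Iio_lt j (by rw [mk_toType, card_ord, type_toType])
      rwa [mk_toType, card_ord] at h6
    refine ⟨fun j => ⨆ i : Iio j, g (e i.1) j + 1, fun j => ?_, ?_⟩
    · refine iSup_add_one_lt_of_lt_cof ?_ fun i => hg1 _ _
      rw [hν.cof_ord]
      exact hIio j
    · rw [rankGE_iff]
      refine ⟨?_, fun η hη => ?_⟩
      · have h4 : {j : ν.ord.ToType | b + (⨆ i : Iio j, g (e i.1) j + 1) = 0} = ∅ := by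
          ext j
          simp only [mem_empty_iff_false, iff_false]
          intro h5
          have h6 : b + (⨆ i : Iio j, g (e i.1) j + 1) = 0 := h5
          have h7 : b ≤ 0 := (le_self_add).trans h6.le
          exact hb (nonpos_iff_eq_zero.1 h7)
        rw [h4]
        exact finite_empty
      · rcases lt_or_ge η b' with hlt | hge
        · obtain ⟨F', h4, h5⟩ := h1.step hlt
          refine ⟨F', fun j => Or.inl ?_, h5⟩
          rcases h4 j with h6 | ⟨_, h6⟩
          · exact h6.trans_le le_self_add
          · exact absurd h6 hb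
        · have hγ : η - b' < β := (Ordinal.sub_lt_of_le hge).2 hη
          have hη' : b' + (η - b') = η := Ordinal.add_sub_cancel_of_le hge
          obtain ⟨i0, hi0⟩ := he (ToType.mk ⟨η - b', hγ⟩)
          have hx : ((e i0).toOrd : Ordinal.{u}) = η - b' := by
            rw [hi0]
            simp
          have hS : #(Iic i0) < ν := by
            have h6 : Iic i0 = insert i0 (Iio i0) := by
              ext a
              simp [le_iff_eq_or_lt]
            rw [h6]
            exact mk_insert_le.trans_lt
              (add_lt_of_lt hν.aleph0_le (hIio i0) (one_lt_aleph0.trans_le hν.aleph0_le))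
          obtain ⟨eS⟩ : Nonempty (Iic i0 ↪ (#(Iic i0)).ord.ToType) := by
            have h6 : #(Iic i0) ≤ #((#(Iic i0)).ord.ToType) := by
              rw [mk_toType, card_ord]
            exact h6
          have h7 : RankGE (b' + β) (fun _ : Iic i0 => b) := (h2 _ hS).comp eS eS.injective
          obtain ⟨F'', h8, h9⟩ := h7.step hη
          classical
          refine ⟨fun j => if h : j ∈ Iic i0 then F'' ⟨j, h⟩ else b + g (e i0) j, fun j => Or.inl ?_,
            ?_⟩
          · by_cases hj : j ∈ Iic i0
            · simp only [dif_pos hj]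
              rcases h8 ⟨j, hj⟩ with h10 | ⟨_, h10⟩
              · exact h10.trans_le le_self_add
              · exact absurd h10 hb
            · simp only [dif_neg hj]
              have hj' : i0 < j := not_le.1 hj
              have h10 : g (e i0) j + 1 ≤ ⨆ i : Iio j, g (e i.1) j + 1 :=
                Ordinal.le_iSup (fun i : Iio j => g (e i.1) j + 1) ⟨i0, hj'⟩
              have h11 : g (e i0) j < ⨆ i : Iio j, g (e i.1) j + 1 :=
                (Order.lt_add_one_iff.2 le_rfl).trans_le h10
              exact (add_lt_add_iff_left b).2 h11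
          · refine rankGE_split (Iic i0) ?_ ?_
            · have h10 : (fun j : Iic i0 => if h : j.1 ∈ Iic i0 then F'' ⟨j.1, h⟩
                  else b + g (e i0) j.1) = F'' := by
                funext j
                rw [dif_pos j.2]
              rw [h10]
              exact h9
            · have h10 : (fun j : ((Iic i0)ᶜ : Set ν.ord.ToType) =>
                  if h : j.1 ∈ Iic i0 then F'' ⟨j.1, h⟩ else b + g (e i0) j.1) =
                  (fun j => b + g (e i0) j) ∘ Subtype.val := by
                funext j
                rw [dif_neg j.2]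
                rfl
              rw [h10]
              have h11 := hg2 (e i0)
              rw [hx, hη'] at h11
              exact h11.comp _ Subtype.val_injective

/-- F2: the constant function `b + ν`. -/
theorem rankGE_canonical {ν : Cardinal.{u}} (hν : ν.IsRegular) {b b' β : Ordinal.{u}}
    (hβ : β.card ≤ ν) (h1 : RankGE b' (fun _ : ν.ord.ToType => b))
    (h2 : ∀ ρ < ν, RankGE (b' + β) (fun _ : ρ.ord.ToType => b)) :
    RankGE (b' + β) (fun _ : ν.ord.ToType => b + ν.ord) := by
  obtain ⟨f, hf1, hf2⟩ := exists_canonical hν h1 β hβ h2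
  refine hf2.mono fun j => ?_
  have := (hf1 j).le
  gcongr

end IPath
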