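import Pool.Agent.Work.MP_820435_lc.Cls.Omega

/-!
# Operations on functions into the ordinals and their rank
-/

open Ordinal Cardinal Set Order

universe u

namespace IPath

variable {J : Type u} {η : Ordinal.{u}} {F : J → Ordinal.{u}}

theorem rankGE_of_finite [Finite J] (η : Ordinal.{u}) (F : J → Ordinal.{u}) : RankGE η F := by
  refine ⟨Set.univ, Set.mem_univ _, fun p _ => ⟨Set.toFinite _, fun η' _ =>
    ⟨fun _ => 0, Set.mem_univ _, fun j => ?_⟩⟩⟩
  rcases eq_or_ne (p.2 j) 0 with h | h
  · exact Or.inr ⟨rfl, h⟩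
  · exact Or.inl (pos_iff_ne_zero.2 h)

/-- The rank of a union. -/
theorem rankGE_split (S : Set J) (h1 : RankGE η (fun j : S => F j.1))
    (h2 : RankGE η (fun j : (Sᶜ : Set J) => F j.1)) : RankGE η F := by
  classical
  induction η using WellFoundedLT.induction generalizing F with
  | _ η ih =>
    rw [rankGE_iff]
    refine ⟨?_, fun η' hη => ?_⟩
    · refine ((h1.finite.image Subtype.val).union (h2.finite.image Subtype.val)).subset ?_
      intro j hj
      by_cases hS : j ∈ S
      · exact Or.inl ⟨⟨j, hS⟩, hj, rfl⟩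
      · exact Or.inr ⟨⟨j, hS⟩, hj, rfl⟩
    · obtain ⟨F1, hF1, hR1⟩ := h1.step hη
      obtain ⟨F2, hF2, hR2⟩ := h2.step hη
      refine ⟨fun j => if h : j ∈ S then F1 ⟨j, h⟩ else F2 ⟨j, h⟩, fun j => ?_, ih η' hη ?_ ?_⟩
      · by_cases h : j ∈ S
        · simp only [dif_pos h]
          exact hF1 ⟨j, h⟩
        · simp only [dif_neg h]
          exact hF2 ⟨j, h⟩
      · have : (fun j : S => if h : j.1 ∈ S then F1 ⟨j.1, h⟩ else F2 ⟨j.1, h⟩) = F1 := by
          funext j
          rw [dif_pos j.2]
        rw [this]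
        exact hR1
      · have : (fun j : (Sᶜ : Set J) => if h : j.1 ∈ S then F1 ⟨j.1, h⟩ else F2 ⟨j.1, h⟩)
            = F2 := by
          funext j
          rw [dif_neg j.2]
        rw [this]
        exact hR2

/-- The rank at a limit. -/
theorem rankGE_limit {ξ : Ordinal.{u}} (hξ : IsSuccLimit ξ) (h : ∀ η < ξ, RankGE η F) :
    RankGE ξ F := by
  rw [rankGE_iff]
  refine ⟨(h 0 hξ.bot_lt).finite, fun η' hη => ?_⟩
  obtain ⟨F', h1, h2⟩ := (h (succ η') (hξ.succ_lt hη)).step (lt_succ η')
  exact ⟨F', h1, h2⟩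

theorem rankGE_of_le (h : ∀ j, 1 + η ≤ F j) : RankGE η F := by
  induction η using WellFoundedLT.induction generalizing F with
  | _ η ih =>
    rw [rankGE_iff]
    have h0 : {j | F j = 0} = ∅ := by
      ext j
      simp only [mem_ofPred_eq, mem_empty_iff_false, iff_false]
      intro hj
      have h1 := h j
      rw [hj] at h1
      have h2 : (1 : Ordinal.{u}) ≤ 1 + η := le_self_add
      exact absurd (h2.trans h1) (not_le.2 zero_lt_one)
    rw [h0]
    refine ⟨Set.finite_empty, fun η' hη => ⟨fun _ => 1 + η', fun j => Or.inl ?_,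
      ih η' hη fun _ => le_rfl⟩⟩
    exact lt_of_lt_of_le ((add_lt_add_iff_left 1).2 hη) (h j)

theorem rankGE_of_countable [Countable J] (η : Ordinal.{u}) (h : ∀ j, ω ≤ F j) : RankGE η F := by
  obtain ⟨e, he⟩ := exists_injective_nat J
  refine rankGE_of_tendsto e he η F fun n => ?_
  have : {j | F j ≤ n} = ∅ := by
    ext j
    simp only [mem_ofPred_eq, mem_empty_iff_false, iff_false, not_le]
    exact (natCast_lt_omega0 n).trans_le (h j)
  rw [this]
  exact Set.finite_empty

theorem RankGE.add_right {x : Ordinal.{u}} (h : RankGE η F) :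
    RankGE (η + x) (fun j => F j + x) := by
  induction x using WellFoundedLT.induction with
  | _ x ih =>
    rw [rankGE_iff]
    refine ⟨h.finite.subset fun j hj => ?_, fun ζ hζ => ?_⟩
    · have h1 : F j + x = 0 := hj
      have h2 : F j ≤ F j + x := le_self_add
      rw [h1] at h2
      exact nonpos_iff_eq_zero.1 h2
    · rcases lt_or_ge ζ η with h1 | h1
      · obtain ⟨F', hF', hR⟩ := h.step h1
        refine ⟨F', fun j => ?_, hR⟩
        rcases hF' j with h2 | ⟨h2, h3⟩
        · exact Or.inl (h2.trans_le le_self_add)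
        · rcases eq_or_ne x 0 with h4 | h4
          · exact Or.inr ⟨h2, by rw [h3, h4, add_zero]⟩
          · exact Or.inl (by rw [h2, h3, zero_add]; exact pos_iff_ne_zero.2 h4)
      · obtain ⟨y, rfl⟩ := exists_add_of_le h1
        have hy : y < x := (add_lt_add_iff_left η).1 hζ
        exact ⟨fun j => F j + y, fun j => Or.inl ((add_lt_add_iff_left _).2 hy), ih y hy⟩

theorem RankGE.mul {δ : Ordinal.{u}} (hδ : δ ≠ 0) (h : RankGE η F) :
    RankGE (δ * η) (fun j => δ * F j) := by
  classical
  induction η using WellFoundedLT.induction generalizing F with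
  | _ η ih =>
    rw [rankGE_iff]
    refine ⟨h.finite.subset fun j hj => ?_, fun ζ hζ => ?_⟩
    · have h1 : δ * F j = 0 := hj
      rcases mul_eq_zero.1 h1 with h2 | h2
      · exact absurd h2 hδ
      · exact h2
    · have h1 : ζ / δ < η := (lt_mul_iff_div_lt hδ).1 hζ
      have h2 : ζ % δ < δ := mod_lt _ hδ
      have h3 : ζ = δ * (ζ / δ) + ζ % δ := (div_add_mod _ _).symm
      obtain ⟨F', hF', hR⟩ := h.step h1
      refine ⟨fun j => if F j = 0 then 0 else δ * F' j + ζ % δ, fun j => ?_, ?_⟩
      · by_cases hj : F j = 0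
        · simp only [if_pos hj]
          exact Or.inr ⟨trivial, by rw [hj, mul_zero]⟩
        · simp only [if_neg hj]
          refine Or.inl ?_
          rcases hF' j with h4 | ⟨h4, h5⟩
          · calc δ * F' j + ζ % δ < δ * F' j + δ := (add_lt_add_iff_left _).2 h2
              _ = δ * succ (F' j) := (mul_succ _ _).symm
              _ ≤ δ * F j := mul_le_mul_right (succ_le_of_lt h4) δ
          · exact absurd h5 hj
      · have h4 := (ih (ζ / δ) h1 hR).add_right (x := ζ % δ)
        rw [← h3] at h4
        refine rankGE_split {j | F j = 0} ?_ ?_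
        · have : Finite {j | F j = 0} := h.finite
          exact rankGE_of_finite _ _
        · refine (h4.comp (fun j : ({j | F j = 0}ᶜ : Set J) => j.1)
            Subtype.val_injective).mono fun j => ?_
          have hj : F j.1 ≠ 0 := j.2
          change δ * F' j.1 + ζ % δ ≤ if F j.1 = 0 then 0 else δ * F' j.1 + ζ % δ
          rw [if_neg hj]

end IPath
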