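import Pool.Agent.Work.MP_820435_lc.Cls.Pieces

/-!
# Sufficiency: covers from ranks
-/

open Ordinal Cardinal Set Order

universe u

namespace IPath

theorem exists_one_add_succ (e : Ordinal.{u}) (he : e ≠ 0) : ∃ m, 1 + (m + 1) = e + 1 := by
  rcases lt_or_ge e ω with h | h
  · obtain ⟨n, rfl⟩ := lt_omega0.1 h
    have hn : n ≠ 0 := by
      rintro rfl
      exact he rfl
    obtain ⟨k, rfl⟩ := Nat.exists_eq_succ_of_ne_zero hn
    refine ⟨(k : Ordinal.{u}), ?_⟩
    have : (1 : ℕ) + (k + 1) = k.succ + 1 := by omega
    exact_mod_cast this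
  · refine ⟨e, ?_⟩
    rw [← add_assoc, one_add_of_omega0_le h]

/-- A point as an element of its own fibre. -/
def selfFib {B K : Type u} (r : B → K) (b : B) : (r ⁻¹' {r b} : Set B) := ⟨b, rfl⟩

/-- C6: sufficiency for a set `J` of colours. -/
theorem cover_of_rankGE_aux {κ : Cardinal.{u}} (hκ : κ.IsRegular) (hκ1 : ℵ₀ < κ) {J : Type u}
    (ξ : Ordinal.{u}) : ξ.card ≤ κ → ∀ (F : J → Ordinal.{u}), RankGE ξ F →
    ∀ (B : Type u) [LinearOrder B] [WellFoundedLT B], otp B ≤ κ.ord ^ ξ →
    ∃ A : J → Set B, (∀ x, {j | x ∉ A j}.Finite) ∧ (∀ j, F j = 0 → A j = ∅) ∧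
      ∀ j, κ.ord * otp (A j) < κ.ord ^ (F j + 2) := by
  classical
  have hκ0 : 0 < κ.ord := hκ.ord_pos
  have hκone : 1 < κ.ord := one_lt_ord hκ
  have hz : ∀ (B : Type u) [LinearOrder B] [WellFoundedLT B] (f : Ordinal.{u}),
      κ.ord * otp (∅ : Set B) < κ.ord ^ (f + 2) := by
    intro B _ _ f
    have h1 : otp (∅ : Set B) = 0 := by
      rw [type_eq_zero_iff_isEmpty]
      infer_instance
    rw [h1, mul_zero]
    exact opow_pos _ hκ0
  induction ξ using WellFoundedLT.induction with
  | _ ξ ih =>
    intro hξ F hF B _ _ hB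
    rcases eq_or_ne ξ 0 with rfl | hξ0
    · rw [opow_zero] at hB
      refine ⟨fun j => if F j = 0 then ∅ else Set.univ, ?_, ?_, ?_⟩
      · intro x
        refine hF.finite.subset ?_
        intro j hj
        by_contra hcon
        have h1 : F j ≠ 0 := hcon
        simp [h1] at hj
      · intro j hj
        simp [hj]
      · intro j
        beta_reduce
        rcases eq_or_ne (F j) 0 with h1 | h1
        · rw [if_pos h1]
          exact hz B _
        · rw [if_neg h1, otp_univ]
          calc κ.ord * otp B ≤ κ.ord * 1 := mul_le_mul_right hB _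
            _ = κ.ord ^ (1 : Ordinal.{u}) := by rw [mul_one, opow_one]
            _ < κ.ord ^ (F j + 2) := by
              rw [opow_lt_opow_iff_right hκone]
              have h2 : (1 : Ordinal.{u}) < 2 := one_lt_two
              exact h2.trans_le (le_add_of_nonneg_left zero_le)
    · obtain ⟨r, hr, hp⟩ := exists_pieces hκ hκ1 hξ0 hξ hB
      choose e he1 he2 using hp
      have h1 : ∀ i : κ.ord.ToType, ∃ F' : J → Ordinal.{u},
          (∀ j, F' j < F j ∨ (F' j = 0 ∧ F j = 0)) ∧ RankGE (e i) F' := fun i => hF.step (he1 i)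
      choose F' hF1 hF2 using h1
      have h2 : ∀ i : κ.ord.ToType, ∃ A : J → Set (r ⁻¹' {i} : Set B),
          (∀ x, {j | x ∉ A j}.Finite) ∧ (∀ j, F' i j = 0 → A j = ∅) ∧
          ∀ j, κ.ord * otp (A j) < κ.ord ^ (F' i j + 2) := fun i =>
        ih (e i) (he1 i) ((Ordinal.card_le_card (he1 i).le).trans hξ) (F' i) (hF2 i) _ (he2 i)
      choose A' hA1 hA2 hA3 using h2
      have hkey : ∀ (j : J) (b : B) (i : κ.ord.ToType) (hi : r b = i),
          (⟨b, hi⟩ : (r ⁻¹' {i} : Set B)) ∈ A' i j ↔ selfFib r b ∈ A' (r b) j := by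
        rintro j b _ rfl
        exact Iff.rfl
      refine ⟨fun j => {b | selfFib r b ∈ A' (r b) j}, ?_, ?_, ?_⟩
      · intro b
        exact hA1 (r b) (selfFib r b)
      · intro j hj
        rw [eq_empty_iff_forall_notMem]
        intro b hb
        have h3 : F' (r b) j = 0 := by
          rcases hF1 (r b) j with h4 | h4
          · rw [hj] at h4
            exact absurd h4 not_lt_zero
          · exact h4.1
        have h5 := hA2 (r b) j h3
        rw [mem_ofPred_eq, h5] at hb
        exact hb
      · intro j
        beta_reduce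
        rcases eq_or_ne (F j) 0 with h3 | h3
        · have h4 : {b | selfFib r b ∈ A' (r b) j} = (∅ : Set B) := by
            rw [eq_empty_iff_forall_notMem]
            intro b hb
            have h5 : F' (r b) j = 0 := by
              rcases hF1 (r b) j with h6 | h6
              · rw [h3] at h6
                exact absurd h6 not_lt_zero
              · exact h6.1
            have h7 := hA2 (r b) j h5
            rw [mem_ofPred_eq, h7] at hb
            exact hb
          rw [h4]
          exact hz B _
        · obtain ⟨m, hm⟩ := exists_one_add_succ (F j) h3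
          have h4 : ∀ i, F' i j + 2 ≤ F j + 1 := by
            intro i
            rcases hF1 i j with h5 | h5
            · have h6 : F' i j + 1 ≤ F j := add_one_le_of_lt h5
              have h7 : F' i j + 2 = F' i j + 1 + 1 := by
                rw [add_assoc, one_add_one_eq_two]
              rw [h7]
              exact add_le_add_left h6 1
            · exact absurd h5.2 h3
          have h5 : ∀ i, otp ({b | selfFib r b ∈ A' (r b) j} ∩
              r ⁻¹' {i} : Set B) < κ.ord ^ (m + 1) := by
            intro i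
            have h6 : otp ({b | selfFib r b ∈ A' (r b) j} ∩
                r ⁻¹' {i} : Set B) ≤ otp (A' i j) := by
              refine otp_le_of_strictMono
                (fun b => ⟨⟨b.1, b.2.2⟩, (hkey j b.1 i b.2.2).2 b.2.1⟩) ?_
              intro a b hab
              exact hab
            refine h6.trans_lt ?_
            have h7 := (hA3 i j).trans_le (opow_le_opow_right hκ0 (h4 i))
            rw [← hm, opow_add, opow_one] at h7
            exact lt_of_mul_lt_mul_left' h7
          have h6 := otp_le_of_pieces hκ hκ1 r hr _ h5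
          calc κ.ord * otp {b | selfFib r b ∈ A' (r b) j}
              ≤ κ.ord * κ.ord ^ (m + 1) := mul_le_mul_right h6 _
            _ = κ.ord ^ (F j + 1) := by rw [← hm, opow_add κ.ord 1, opow_one]
            _ < κ.ord ^ (F j + 2) := by
              rw [opow_lt_opow_iff_right hκone]
              have h7 : F j + 2 = F j + 1 + 1 := by rw [add_assoc, one_add_one_eq_two]
              rw [h7]
              exact lt_add_one _

/-- C6: sufficiency for a set `J` of colours. -/
theorem cover_of_rankGE {κ : Cardinal.{u}} (hκ : κ.IsRegular) (hκ1 : ℵ₀ < κ) {J : Type u}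
    {ξ : Ordinal.{u}} (hξ : ξ.card ≤ κ) (F : J → Ordinal.{u}) (h : RankGE ξ F)
    {B : Type u} [LinearOrder B] [WellFoundedLT B] (hB : otp B ≤ κ.ord ^ ξ) :
    ∃ A : J → Set B, (∀ x, {j | x ∉ A j}.Finite) ∧ (∀ j, F j = 0 → A j = ∅) ∧
      ∀ j, κ.ord * otp (A j) < κ.ord ^ (F j + 2) :=
  cover_of_rankGE_aux hκ hκ1 ξ hξ F h B hB

end IPath
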