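import Pool.Agent.Work.MP_820435_lc.Cls.Defs
import Pool.Agent.Work.MP_820435_lc.Cnf
import Pool.Agent.Work.MP_820435_lc.Graph

/-!
# Task list of CLS (statements only; nothing imports this file)
Every proof goes into its own file `Cls/<name>.lean` which imports `Cls/Defs` and what it needs.
-/

open Ordinal Cardinal Set Order

universe u

namespace IPath.Tasks

/- C1 `Cls/Forest` (helper63): the killing forest. `tk v` is the sorted list of the tasks at `v`. -/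
theorem exists_killing_graph {V J : Type u} [LinearOrder V] [WellFoundedLT V] [Nonempty V]
    (tk : V → List J) (γ : J → V) (T : J → Set V) (hT : ∀ j, ∀ x ∈ T j, x < γ j)
    (hγ : ∀ v, ∀ j ∈ tk v, γ j ≤ v) (hsort : ∀ v, (tk v).Pairwise (fun i j => γ i ≤ γ j))
    (cl : V → ℕ) (hcl : ∀ v, (tk v).length ≤ cl v) :
    ∃ G : SimpleGraph V, ¬ HasRay G ∧ ∀ Y : Set V, (∀ x ∈ Y, ∀ y ∈ Y, ¬ G.Adj x y) →
      ∃ (h0 : ℕ → ℕ → V) (h : V → ℕ → ℕ → V), ∀ g : V, (∀ n l, h0 n l < g) →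
        (∀ x < g, ∀ n l, h x n l < g) → ∀ j, T j = Y ∩ Iio g → γ j ≤ g → ∀ y ∈ Y, j ∉ tk y := by
  sorry

/- C2 `Cls/Neg`: from C1. `V = κ.ord.ToType` as a set carries `ω ^ e` by a bijection; the bounded
subsets of `V` are listed as `T j`, `j : V`; `tk v` = the `j` with `v ∉ A j`, `j < v`, `γ j ≤ v`. -/
theorem not_pathRel_of_almostCover {κ : Cardinal.{u}} (hκ : κ.IsRegular) (hκ1 : ℵ₀ < κ)
    (hpow : ∀ ρ < κ, 2 ^ ρ ≤ κ) {e : Ordinal.{u}} (hc : (ω ^ e : Ordinal.{u}).card = κ)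
    (h : AlmostCover κ (ω ^ e)) : ¬ PathRel (ω ^ e) := by
  sorry

/- C3 `Cls/Pos`: from `pathRel_of_good` (write `ω ^ e = κ.ord * β`, lift `b` on `β` to `κ.ord * β`). -/
theorem pathRel_of_not_almostCover {κ : Cardinal.{u}} (hκ : κ.IsRegular) {e : Ordinal.{u}}
    (hc : (ω ^ e : Ordinal.{u}).card = κ) (h : ¬ AlmostCover κ (ω ^ e)) : PathRel (ω ^ e) := by
  sorry

/- C4a `Cls/Pieces`: splitting a well-order of type at most `κ ^ ξ`. -/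
theorem exists_pieces {κ : Cardinal.{u}} (hκ : κ.IsRegular) (hκ1 : ℵ₀ < κ) {ξ : Ordinal.{u}}
    (hξ0 : ξ ≠ 0) (hξ : ξ.card ≤ κ) {B : Type u} [LinearOrder B] [WellFoundedLT B]
    (hB : otp B ≤ κ.ord ^ ξ) :
    ∃ r : B → κ.ord.ToType, Monotone r ∧ ∀ i, ∃ ξ' < ξ, otp (r ⁻¹' {i}) ≤ κ.ord ^ ξ' := by
  sorry

/- C4b `Cls/Pieces`: the sum of `κ` small pieces. -/
theorem otp_le_of_pieces {κ : Cardinal.{u}} (hκ : κ.IsRegular) (hκ1 : ℵ₀ < κ) {g : Ordinal.{u}}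
    {B : Type u} [LinearOrder B] [WellFoundedLT B] (r : B → κ.ord.ToType) (hr : Monotone r)
    (A : Set B) (h : ∀ i, otp (A ∩ r ⁻¹' {i} : Set B) < κ.ord ^ (g + 1)) :
    otp A ≤ κ.ord ^ (g + 1) := by
  sorry

/- C4c `Cls/Pieces`: fewer than `κ` small sets. -/
theorem otp_iUnion_lt {κ : Cardinal.{u}} (hκ : κ.IsRegular) {g : Ordinal.{u}}
    {B : Type u} [LinearOrder B] [WellFoundedLT B] {I : Type u} (hI : #I < κ) (A : I → Set B)
    (h : ∀ i, otp (A i) < κ.ord ^ (g + 1)) : otp (⋃ i, A i) < κ.ord ^ (g + 1) := by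
  sorry

/- C5a `Cls/Nec`: the block lemma for fewer than `κ` sets, `F j = log κ (κ * otp (A j))`. -/
theorem rankGE_of_cover {κ : Cardinal.{u}} (hκ : κ.IsRegular) (hκ1 : ℵ₀ < κ) {J : Type u}
    (hJ : #J < κ) {ξ : Ordinal.{u}} {B : Type u} [LinearOrder B] [WellFoundedLT B]
    (hB : κ.ord ^ ξ ≤ otp B) (A : J → Set B) (hfin : ∀ x, {j | x ∉ A j}.Finite)
    (F : J → Ordinal.{u}) (hF : ∀ j, κ.ord * otp (A j) < κ.ord ^ (F j + 1)) : RankGE ξ F := by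
  sorry

/- C5b `Cls/Nec2`: from `κ` bad colours to the rank of a constant function on `ν`. -/
theorem exists_rank_of_cover {ν : Cardinal.{u}} (hν : ℵ₀ ≤ ν) {ξ : Ordinal.{u}}
    {B : Type u} [LinearOrder B] [WellFoundedLT B] (hB : otp B = (succ ν).ord ^ ξ)
    {Λ : Type u} (hΛ : succ ν ≤ #Λ) (A : Λ → Set B) (hA : ∀ j, otp (A j) < otp B)
    (hfin : ∀ x, {j | x ∉ A j}.Finite) :
    ∃ g, g + 2 ≤ ξ ∧ ∀ η < ξ, RankGE η (fun _ : ν.ord.ToType => g) := by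
  sorry

/- C6 `Cls/Suf`: sufficiency for a set `J` of colours. -/
theorem cover_of_rankGE {κ : Cardinal.{u}} (hκ : κ.IsRegular) (hκ1 : ℵ₀ < κ) {J : Type u}
    {ξ : Ordinal.{u}} (hξ : ξ.card ≤ κ) (F : J → Ordinal.{u}) (h : RankGE ξ F)
    {B : Type u} [LinearOrder B] [WellFoundedLT B] (hB : otp B ≤ κ.ord ^ ξ) :
    ∃ A : J → Set B, (∀ x, {j | x ∉ A j}.Finite) ∧ (∀ j, F j = 0 → A j = ∅) ∧
      ∀ j, κ.ord * otp (A j) < κ.ord ^ (F j + 2) := by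
  sorry

/- C7 `Cls/Suf2`: from `ν` colours to `ν⁺` colours. -/
theorem cover_of_rank {ν : Cardinal.{u}} (hν : ℵ₀ ≤ ν) {ξ g : Ordinal.{u}}
    (hξ : ξ.card ≤ succ ν) (hg : g + 2 ≤ ξ)
    (h : ∀ η < ξ, RankGE η (fun _ : ν.ord.ToType => g))
    {B : Type u} [LinearOrder B] [WellFoundedLT B] (hB : otp B = (succ ν).ord ^ ξ) :
    ∃ A : (succ ν).ord.ToType → Set B, (∀ j, otp (A j) < otp B) ∧
      ∀ x, {j | x ∉ A j}.Finite := by
  sorry

/- C8 `Cls/Mul`: the factor `δ`. -/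
theorem almostCover_mul_iff {κ : Cardinal.{u}} (hκ : κ.IsRegular) (hκ1 : ℵ₀ < κ)
    {ξ δ : Ordinal.{u}} (hδ0 : δ ≠ 0) (hδ : δ.card < κ) :
    AlmostCover κ (κ.ord ^ ξ * δ) ↔ AlmostCover κ (κ.ord ^ ξ) := by
  sorry

end IPath.Tasks
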