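import Pool.Agent.Work.MP_820435_lc.Cls.Bad
import Pool.Agent.Work.MP_820435_lc.Cls.Iff
import Pool.Agent.Work.MP_820435_lc.Cls.Gch
import Pool.Agent.Work.MP_820435_lc.Cls.Omega

/-!
# Task list 2 of CLS (statements only; nothing imports this file): all regular uncountable cardinals
-/

open Ordinal Cardinal Set Order

universe u

namespace IPath.Tasks2

/- N `Cls/NecBad` (helper9). -/
theorem isBad_of_almostCover {κ : Cardinal.{u}} (hκ : κ.IsRegular) (hκ1 : ℵ₀ < κ)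
    {ξ : Ordinal.{u}} (hξ : ξ.card ≤ κ) (h : AlmostCover κ (κ.ord ^ ξ)) : IsBad κ ξ := by
  sorry

/- S1 `Cls/Suf3` (helper93): C7 for all regular uncountable `κ`. -/
theorem cover_of_rank_gen {κ : Cardinal.{u}} (hκ : κ.IsRegular) (hκ1 : ℵ₀ < κ)
    {ξ g : Ordinal.{u}} (hξ : ξ.card ≤ κ) (hg : g + 2 ≤ ξ)
    (h : ∀ ρ < κ, ∀ η < ξ, RankGE η (fun _ : ρ.ord.ToType => g))
    {B : Type u} [LinearOrder B] [WellFoundedLT B] (hB : otp B = κ.ord ^ ξ) :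
    ∃ A : κ.ord.ToType → Set B, (∀ j, otp (A j) < otp B) ∧ ∀ x, {j | x ∉ A j}.Finite := by
  sorry

/- S2 `Cls/SufCof` (helper40): cofinality `κ`. Here every union of fewer than `κ` consecutive
pieces of type `< κ ^ ζ` has type `< κ ^ ζ`, and a union of `κ` of them has type `≤ κ ^ ζ`. -/
theorem cover_of_cof_succ {κ : Cardinal.{u}} (hκ : κ.IsRegular) (hκ1 : ℵ₀ < κ)
    {ζ : Ordinal.{u}} (hζ : IsSuccLimit ζ) (hcof : ζ.cof = κ) (hζκ : ζ.card ≤ κ)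
    (h : ∀ ρ < κ, ∃ g < ζ, RankGE ζ (fun _ : ρ.ord.ToType => g))
    {B : Type u} [LinearOrder B] [WellFoundedLT B] (hB : otp B = κ.ord ^ (ζ + 1)) :
    ∃ A : κ.ord.ToType → Set B, (∀ j, otp (A j) < otp B) ∧ ∀ x, {j | x ∉ A j}.Finite := by
  sorry

theorem cover_of_cof_limit {κ : Cardinal.{u}} (hκ : κ.IsRegular) (hκ1 : ℵ₀ < κ)
    {ξ : Ordinal.{u}} (hζ : IsSuccLimit ξ) (hcof : ξ.cof = κ) (hξκ : ξ.card ≤ κ)
    (F : κ.ord.ToType → Ordinal.{u}) (hF : ∀ j, F j < ξ)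
    (h : ∀ i, ∀ η < ξ, RankGE η (fun j : Iio i => F j.1))
    {B : Type u} [LinearOrder B] [WellFoundedLT B] (hB : otp B = κ.ord ^ ξ) :
    ∃ A : κ.ord.ToType → Set B, (∀ j, otp (A j) < otp B) ∧ ∀ x, {j | x ∉ A j}.Finite := by
  sorry

/- I `Cls/IffBad` (helper40): from N, S1, S2 (other cofinalities: one `g` for all `ρ`), `Mul`. -/
theorem almostCover_iff_isBad {κ : Cardinal.{u}} (hκ : κ.IsRegular) (hκ1 : ℵ₀ < κ)
    {ξ δ : Ordinal.{u}} (hξ : ξ.card ≤ κ) (hδ0 : δ ≠ 0) (hδ : δ.card < κ) :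
    AlmostCover κ (κ.ord ^ ξ * δ) ↔ IsBad κ ξ := by
  sorry

/- I2 `Cls/IffBad`: successor cardinals (from both criteria) and `ℵ₁`. -/
theorem isBad_succ_iff {ν : Cardinal.{u}} (hν : ℵ₀ ≤ ν) {ξ : Ordinal.{u}}
    (hξ : ξ.card ≤ succ ν) : IsBad (succ ν) ξ ↔
      ∃ g, g + 2 ≤ ξ ∧ ∀ η < ξ, RankGE η (fun _ : ν.ord.ToType => g) := by
  sorry

/- G `Cls/GchBad` (helper63). -/
theorem pathRel_iff_isBad (hgch : ∀ μ : Cardinal.{u}, ℵ₀ ≤ μ → 2 ^ μ = succ μ)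
    {α : Ordinal.{u}} (hα : ω ∣ α) : PathRel α ↔ ∀ p ∈ CNF ω α, ∀ κ : Cardinal.{u},
      κ.IsRegular → ℵ₀ < κ → ∀ ξ ρ : Ordinal.{u}, ξ.card ≤ κ → ρ < κ.ord →
        p.1 = κ.ord * ξ + ρ → ¬ IsBad κ ξ := by
  sorry

end IPath.Tasks2
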