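import Pool.Agent.Work.MP_820435_lc.Cls.FirstDef
import Pool.Agent.Work.MP_820435_lc.Cls.IffBad
import Pool.Agent.Work.MP_820435_lc.Cls.Omega
import Pool.Agent.Work.MP_820435_lc.Init

/-!
# Task list 3 of CLS (statements only; nothing imports this file): the first bad exponents
-/

open Ordinal Cardinal Set Order

universe u

namespace IPath.Tasks3

variable {J : Type u} {η : Ordinal.{u}} {F : J → Ordinal.{u}}

/- F1 `Cls/RankOps` (helper46). -/
theorem rankGE_of_finite [Finite J] (η : Ordinal.{u}) (F : J → Ordinal.{u}) : RankGE η F := by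
  sorry

theorem rankGE_split (S : Set J) (h1 : RankGE η (fun j : S => F j.1))
    (h2 : RankGE η (fun j : (Sᶜ : Set J) => F j.1)) : RankGE η F := by
  sorry

theorem rankGE_limit {ξ : Ordinal.{u}} (hξ : IsSuccLimit ξ) (h : ∀ η < ξ, RankGE η F) :
    RankGE ξ F := by
  sorry

theorem rankGE_of_le (h : ∀ j, 1 + η ≤ F j) : RankGE η F := by
  sorry

theorem rankGE_of_countable [Countable J] (η : Ordinal.{u}) (h : ∀ j, ω ≤ F j) : RankGE η F := by
  sorry

theorem RankGE.mul {δ : Ordinal.{u}} (hδ : δ ≠ 0) (h : RankGE η F) :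
    RankGE (δ * η) (fun j => δ * F j) := by
  sorry

/- F2 `Cls/RankCan` (helper9): `f β j = sup {f (h β i) j + 1 : i < j}` for a map `h β` from `ν` onto
`β`; show `RankGE (b' + β) (fun j => b + f β j)` on every subset of `ν` by induction on `β`; the
descent to `γ = h β i₀` uses `rankGE_split` with `{j ≤ i₀}`. -/
theorem rankGE_canonical {ν : Cardinal.{u}} (hν : ν.IsRegular) {b b' β : Ordinal.{u}}
    (hβ : β.card ≤ ν) (h1 : RankGE b' (fun _ : ν.ord.ToType => b))
    (h2 : ∀ ρ < ν, RankGE (b' + β) (fun _ : ρ.ord.ToType => b)) :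
    RankGE (b' + β) (fun _ : ν.ord.ToType => b + ν.ord) := by
  sorry

/- F3 `Cls/First` (helper54). Step from `n` to `n + 2`, with `ν = ω_(n+2)`: `RankGE.mul`, then
`rankGE_canonical` for `ℵ_(n+1)` with `b = b' = ν * x`, then `F j = ν * x + ω_(n+1) + j` on `ν`. -/
theorem rank_step (n : ℕ) {x : Ordinal.{u}} (hx : x ≠ 0)
    (h : RankGE (x + 1) (fun _ : (ℵ_ n : Cardinal.{u}).ord.ToType => x)) :
    RankGE (ω_ ((n + 2 : ℕ) : Ordinal.{u}) * (x + 1) + 1)
      (fun _ : (ℵ_ ((n + 2 : ℕ) : Ordinal.{u}) : Cardinal.{u}).ord.ToType =>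
        ω_ ((n + 2 : ℕ) : Ordinal.{u}) * (x + 1)) := by
  sorry

theorem rank_firstExp (n : ℕ) : RankGE (firstExp n + 1)
    (fun _ : (ℵ_ n : Cardinal.{u}).ord.ToType => firstExp n) := by
  sorry

theorem isBad_firstExp (n : ℕ) : IsBad (succ (ℵ_ n : Cardinal.{u})) (firstExp n + 2) := by
  sorry

/- F4 `Cls/FirstLeast` (helper12): `pathRel_succ_init` (Init.lean; exponents `ν` for `n ≤ 2`,
`ν * (θ + 1)` with `ν = ω_(m+2)`, `θ = ω_m`, for `m = 1, 2`) against `not_pathRel_of_almostCover`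
and `almostCover_iff_isBad` (`δ = 1`). -/
theorem not_isBad_of_lt_firstExp (hgch : ∀ μ : Cardinal.{u}, ℵ₀ ≤ μ → 2 ^ μ = succ μ) {n : ℕ}
    (hn : n ≤ 4) {ξ : Ordinal.{u}} (hξ : ξ < firstExp n + 2) :
    ¬ IsBad (succ (ℵ_ n : Cardinal.{u})) ξ := by
  sorry

end IPath.Tasks3
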