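import Pool.Agent.Work.MP_820435_lc.Cls.NormDef
import Pool.Agent.Work.MP_820435_lc.Cls.FirstDef
import Pool.Agent.Work.MP_820435_lc.Cls.IffBad
import Pool.Agent.Work.MP_820435_lc.Cls.Omega

/-!
# Task list 4 of CLS (statements only; nothing imports this file): the least bad exponent for all
# `ℵ_(n + 1)`, under GCH
-/

open Ordinal Cardinal Set Order

universe u

namespace IPath.Tasks4

variable {J : Type u} {η η' : Ordinal.{u}} {F F' : J → Ordinal.{u}}

/- N1 `Cls/Norm` (helper46). -/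
theorem normGE_iff : NormGE η F ↔
    ∀ η' < η, ∃ F' : J → Ordinal.{u}, {j | ¬ F' j < F j}.Countable ∧ NormGE η' F' := by
  sorry

theorem NormGE.mono_left (h : NormGE η F) (hη : η' ≤ η) : NormGE η' F := by
  sorry

theorem NormGE.mono (h : NormGE η F) (hF : {j | ¬ F j ≤ F' j}.Countable) : NormGE η F' := by
  sorry

theorem NormGE.comp {I : Type u} (h : NormGE η F) (e : I → J) (he : Function.Injective e) :
    NormGE η (F ∘ e) := by
  sorry

theorem normGE_iUnion (T : ℕ → Set J) (hT : ⋃ n, T n = Set.univ)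
    (h : ∀ n, NormGE η (fun j : T n => F j.1)) : NormGE η F := by
  sorry

theorem normGE_of_countable [Countable J] (η : Ordinal.{u}) (F : J → Ordinal.{u}) :
    NormGE η F := by
  sorry

theorem normGE_limit {ξ : Ordinal.{u}} (hξ : IsSuccLimit ξ) (h : ∀ η < ξ, NormGE η F) :
    NormGE ξ F := by
  sorry

theorem RankGE.normGE (h : RankGE η F) : NormGE η F := by
  sorry

/- N2 `Cls/NormDiv` (helper63). -/
theorem NormGE.div {J : Type u} {ν : Cardinal.{u}} (hν : ν.IsRegular)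
    (hpow : ∀ μ < ν, μ ^ #J < ν) {ζ y : Ordinal.{u}} {Z Y : J → Ordinal.{u}} (hy : y < ν.ord)
    (hY : ∀ j, Y j ≤ y) (h : NormGE (ν.ord * (ζ + 1)) (fun j => ν.ord * Z j + Y j)) :
    NormGE (ζ + 1) Z := by
  sorry

/- N3 `Cls/FirstAll` (helper96). -/
theorem closed_of_lt_ord {ν : Cardinal.{u}} (hν : ν.IsRegular) (hν1 : ℵ₀ < ν) {z : Ordinal.{u}}
    (hz : z < ν.ord) : ¬ NormGE (z + 1) (fun _ : ν.ord.ToType => z) := by
  sorry

theorem closed_step {θ ν : Cardinal.{u}} (hθ : ℵ₀ < θ) (hν : ν.IsRegular)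
    (hpow : ∀ μ < ν, μ ^ θ < ν) {x : Ordinal.{u}} (hx : x.card < ν)
    (h : ∀ z < x, ¬ NormGE (z + 1) (fun _ : θ.ord.ToType => z)) {g : Ordinal.{u}}
    (hg : g < ν.ord * (x + 1)) : ¬ NormGE (g + 1) (fun _ : ν.ord.ToType => g) := by
  sorry

theorem closed_firstExp (hgch : ∀ μ : Cardinal.{u}, ℵ₀ ≤ μ → 2 ^ μ = succ μ) {n : ℕ}
    (hn : 1 ≤ n) {g : Ordinal.{u}} (hg : g < firstExp n) :
    ¬ NormGE (g + 1) (fun _ : (ℵ_ n : Cardinal.{u}).ord.ToType => g) := by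
  sorry

theorem not_isBad_of_lt (hgch : ∀ μ : Cardinal.{u}, ℵ₀ ≤ μ → 2 ^ μ = succ μ) {n : ℕ}
    {ξ : Ordinal.{u}} (hξ : ξ < firstExp n + 2) : ¬ IsBad (succ (ℵ_ n : Cardinal.{u})) ξ := by
  sorry

end IPath.Tasks4
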